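import Pool.Agent.Lib.MP_d1d9c5_gt.BD.Spec

section
set_option autoImplicit false

open scoped Classical

namespace Pool.Agent.Lib.MP_d1d9c5_gt.BD

universe w

namespace ACTM

variable {P I : Type}

theorem CI.trans' {A : SimpleGraph P} (hA : A.Connected) {B B' B'' : Set P} (h : CI A B B')
    (h' : CI A B' B'') : CI A B B'' := by
  obtain ⟨r, hr⟩ := h
  obtain ⟨r', hr'⟩ := h'
  refine ⟨r + r', fun x hx => ?_⟩
  obtain ⟨y, hy, h1⟩ := hr x hx
  obtain ⟨z, hz, h2⟩ := hr' y hy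
  refine ⟨z, hz, ?_⟩
  have := hA.dist_triangle (u := x) (v := y) (w := z)
  omega

theorem CI.image' {A : SimpleGraph P} {f : P → P} {C : ℕ}
    (hf : ∀ x y, A.dist (f x) (f y) ≤ C * A.dist x y + C) {B B' : Set P} (h : CI A B B') :
    CI A (f '' B) (f '' B') := by
  obtain ⟨r, hr⟩ := h
  refine ⟨C * r + C, ?_⟩
  rintro _ ⟨x, hx, rfl⟩
  obtain ⟨y, hy, h1⟩ := hr x hx
  refine ⟨f y, ⟨y, hy, rfl⟩, (hf x y).trans ?_⟩
  have := Nat.mul_le_mul_left C h1
  omega

theorem CI.near1 {A : SimpleGraph P} {f g : P → P} {C : ℕ} (h : ∀ x, A.dist (f x) (g x) ≤ C)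
    (B : Set P) : CI A (f '' B) (g '' B) := by
  refine ⟨C, ?_⟩
  rintro _ ⟨x, hx, rfl⟩
  exact ⟨g x, ⟨x, hx, rfl⟩, h x⟩

theorem Le.antisymm' {k l : Bool × ℤ} (h : Le k l) (h' : Le l k) : k = l := by
  obtain ⟨a, b⟩ := k
  obtain ⟨c, d⟩ := l
  unfold Le at h h'
  simp only at h h'
  rcases h with ⟨h1, h2⟩ | ⟨h1, h2⟩
  · rcases h' with ⟨h3, h4⟩ | ⟨h3, h4⟩
    · rw [h1] at h4; exact absurd h4 (by simp)
    · rw [h1, h2] at h3; exact absurd h3 (by simp)
  · rcases h' with ⟨h3, h4⟩ | ⟨h3, h4⟩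
    · rw [h3, h4] at h1; exact absurd h1 (by simp)
    · rw [h1]; exact Prod.ext rfl (le_antisymm h2 h4)

theorem Le.refl' (k : Bool × ℤ) : Le k k := Or.inr ⟨rfl, le_rfl⟩

end ACTM

open ACTM in
/-- ACT -/
theorem specACT (hLVM : SpecLVM.{w}) (hTPR : SpecTPR) (hTCN : SpecTCN) : SpecACT.{w} := by
  intro P I A S D d hP θ lev pos hL Γ _ C F hF R π hπ
  obtain ⟨tp1, tp2, -, -⟩ := hTPR P I A S hP.conn hP.ne
  have hc := hTCN P I A S hP.conn hP.ne
  have hA := hP.conn
  obtain ⟨R', hR'⟩ := hLVM P I A S D d hP θ lev pos hL Γ C F hF R π hπ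
  -- the induced maps are coarsely Lipschitz
  have lipb : ∀ h x y, A.dist (br (F h) x) (br (F h) y) ≤ C * A.dist x y + C := by
    intro h x y
    have h1 := tp1 (F h (W.nil, x)) (F h (W.nil, y))
    have h2 := hF.lip h (W.nil, x) (W.nil, y)
    rw [tp2] at h2
    exact h1.trans h2
  have oneb : ∀ x, A.dist (br (F 1) x) x ≤ C := fun x =>
    (tp1 (F 1 (W.nil, x)) (W.nil, x)).trans (hF.one _)
  have mulb : ∀ h h', π h' W.nil = W.nil → ∀ x,
      A.dist (br (F (h * h')) x) (br (F h) (br (F h') x)) ≤ C + (C * (R + R) + C) := by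
    intro h h' hh' x
    obtain ⟨y, hy⟩ := hπ.mp h' W.nil x
    rw [hh'] at hy
    have h1 : A.dist (br (F h') x) y ≤ R := (tp1 (F h' (W.nil, x)) (W.nil, y)).trans hy
    have h2 := hc.dist_triangle (u := F h' (W.nil, x)) (v := (W.nil, y))
      (w := (W.nil, br (F h') x))
    rw [tp2, A.dist_comm (u := y)] at h2
    have h3 : (TG A S).dist (F h' (W.nil, x)) (W.nil, br (F h') x) ≤ R + R := by omega
    have h4 := hF.lip h (F h' (W.nil, x)) (W.nil, br (F h') x)
    have h5 := Nat.mul_le_mul_left C h3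
    have h6 := hF.mul h h' (W.nil, x)
    have h7 := hc.dist_triangle (u := F (h * h') (W.nil, x)) (v := F h (F h' (W.nil, x)))
      (w := F h (W.nil, br (F h') x))
    rw [(TG A S).dist_comm (u := F (h * h') (W.nil, x))
      (v := F h (F h' (W.nil, x)))] at h7
    have h8 := tp1 (F (h * h') (W.nil, x)) (F h (W.nil, br (F h') x))
    refine h8.trans ?_
    omega
  let Rel : Γ → I → I → Prop := fun h i j =>
    CI A (br (F h) '' S i) (S j) ∧ CI A (S j) (br (F h) '' S i)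
  have mono : ∀ h i j i' j', Rel h i j → Rel h i' j' → Le (lev i) (lev i') →
      Le (lev j) (lev j') := by
    intro h i j i' j' h1 h2 h3
    rw [← hL.ci]
    have h4 := CI.image' (lipb h) ((hL.ci i i').2 h3)
    exact CI.trans' hA (CI.trans' hA h1.2 h4) h2.1
  choose i₀ hi₀ using hL.surj
  have hJ : ∀ h i, ∃ j, π h W.nil = W.nil → Rel h i j ∧
      ∀ x ∈ S i, |pos (br (F h) x) - qq θ (lev j)| ≤ R' := by
    intro h i
    by_cases hh : π h W.nil = W.nil
    · obtain ⟨j, h1, h2, h3⟩ := hR' h hh i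
      exact ⟨j, fun _ => ⟨⟨h1, h2⟩, h3⟩⟩
    · exact ⟨i, fun h' => absurd h' hh⟩
  choose J hJ using hJ
  let σ : Γ → Bool × ℤ → Bool × ℤ := fun h k => lev (J h (i₀ k))
  have sig : ∀ h, π h W.nil = W.nil → ∀ i j, Rel h i j → σ h (lev i) = lev j := by
    intro h hh i j hij
    have h1 := (hJ h (i₀ (lev i)) hh).1
    refine Le.antisymm' (mono h _ _ _ _ h1 hij ?_) (mono h _ _ _ _ hij h1 ?_)
    · rw [hi₀]; exact Le.refl' _
    · rw [hi₀]; exact Le.refl' _
  have inv : ∀ h, π h W.nil = W.nil → π h⁻¹ W.nil = W.nil := by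
    intro h hh
    have h1 := hπ.mul h⁻¹ h W.nil
    rw [inv_mul_cancel, hπ.one, hh] at h1
    exact h1.symm
  have one : ∀ k, σ 1 k = k := by
    intro k
    have h1 : Rel 1 (i₀ k) (i₀ k) := by
      refine ⟨?_, ?_⟩
      · have := CI.near1 (A := A) (f := br (F 1)) (g := id) (C := C) oneb (S (i₀ k))
        rwa [Set.image_id] at this
      · have := CI.near1 (A := A) (f := id) (g := br (F 1)) (C := C)
          (fun x => by rw [A.dist_comm]; exact oneb x) (S (i₀ k))
        rwa [Set.image_id] at this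
    have h2 := sig 1 (hπ.one _) _ _ h1
    rwa [hi₀] at h2
  have mul : ∀ h h', π h W.nil = W.nil → π h' W.nil = W.nil → ∀ k,
      σ (h * h') k = σ h (σ h' k) := by
    intro h h' hh hh' k
    have h1 := (hJ h' (i₀ k) hh').1
    have h2 := (hJ h (J h' (i₀ k)) hh).1
    have h3 : Rel (h * h') (i₀ k) (J h (J h' (i₀ k))) := by
      refine ⟨?_, ?_⟩
      · have e1 := CI.near1 (A := A) (f := br (F (h * h'))) (g := fun x => br (F h) (br (F h') x))
          (mulb h h' hh') (S (i₀ k))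
        have e2 := CI.image' (lipb h) h1.1
        rw [Set.image_image] at e2
        exact CI.trans' hA (CI.trans' hA e1 e2) h2.1
      · have e1 := CI.near1 (A := A) (f := fun x => br (F h) (br (F h') x)) (g := br (F (h * h')))
          (fun x => by rw [A.dist_comm]; exact mulb h h' hh' x) (S (i₀ k))
        have e2 := CI.image' (lipb h) h1.2
        rw [Set.image_image] at e2
        exact CI.trans' hA (CI.trans' hA h2.2 e2) e1
    have hhh : π (h * h') W.nil = W.nil := by rw [hπ.mul, hh', hh]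
    have h4 := sig (h * h') hhh _ _ h3
    have h5 := sig h hh _ _ h2
    rw [hi₀] at h4
    rw [h4]
    exact h5.symm
  have le1 : ∀ h, π h W.nil = W.nil → ∀ k l, Le k l → Le (σ h k) (σ h l) := by
    intro h hh k l hkl
    refine mono h _ _ _ _ (hJ h (i₀ k) hh).1 (hJ h (i₀ l) hh).1 ?_
    rwa [hi₀, hi₀]
  refine ⟨R', σ, ⟨fun h hh k l => ⟨le1 h hh k l, fun h1 => ?_⟩, one, mul, fun h hh i x hx => ?_⟩⟩
  · have h2 := le1 h⁻¹ (inv h hh) _ _ h1
    rw [← mul _ _ (inv h hh) hh, ← mul _ _ (inv h hh) hh, inv_mul_cancel, one, one] at h2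
    exact h2
  · rw [sig h hh i (J h i) (hJ h i hh).1]
    exact (hJ h i hh).2 x hx

end Pool.Agent.Lib.MP_d1d9c5_gt.BD
end

section
/-!
# MP_d1d9c5_gt, bounded degree example: AVO (a point far from two gluing sets)
-/
set_option autoImplicit false

open scoped Classical

namespace Pool.Agent.Lib.MP_d1d9c5_gt.BD

theorem specAVO (hPUL : SpecPUL) (hDUN : SpecDUN) (hDNU : SpecDNU) : SpecAVO := by
  intro P I A S D d hP C R f g hf v u₁ u₂ i₁ i₂
  by_contra hcon
  push Not at hcon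
  obtain ⟨D', hD'⟩ := hPUL P I A S D d hP C R
  have h1 := hD' f g hf v u₁ i₁
  have h2 := hD' f g hf v u₂ i₂
  obtain ⟨D'', hD''⟩ := hDUN D' D'
  have h3 := hD'' P A hP.conn _ _ h1 h2
  apply hDNU P A D'' hP.conn hP.unb
  have h4 : ({x | ∃ s ∈ S i₁, (TG A S).dist (f (v, x)) (u₁, s) ≤ R} ∪
      {x | ∃ s ∈ S i₂, (TG A S).dist (f (v, x)) (u₂, s) ≤ R}) = Set.univ := by
    rw [Set.eq_univ_iff_forall]
    intro x
    by_cases hx : ∀ s ∈ S i₁, R < (TG A S).dist (f (v, x)) (u₁, s)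
    · exact Or.inr (hcon x hx)
    · push Not at hx
      exact Or.inl hx
  rw [h4] at h3
  exact h3

end Pool.Agent.Lib.MP_d1d9c5_gt.BD
end

section
/-!
# BAL: balls are finite
-/
set_option autoImplicit false

open scoped Classical

namespace Pool.Agent.Lib.MP_d1d9c5_gt.BD

theorem specBAL : SpecBAL := by
  intro X G d hG hd x n
  have hfin : ∀ z, (G.neighborSet z).Finite := fun z =>
    Set.encard_lt_top_iff.1 (lt_of_le_of_lt (hd z) (by exact_mod_cast ENat.natCast_lt_top d))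
  induction n with
  | zero =>
    refine (Set.finite_singleton x).subset ?_
    intro y hy
    have h1 : G.dist x y = 0 := Nat.le_zero.1 hy
    exact ((hG.dist_eq_zero_iff).1 h1).symm
  | succ n ih =>
    refine (ih.union (ih.biUnion fun z _ => hfin z)).subset ?_
    intro y hy
    by_cases hn : G.dist x y ≤ n
    · exact Or.inl hn
    right
    have h1 : G.dist x y = n + 1 := by
      have : G.dist x y ≤ n + 1 := hy
      omega
    obtain ⟨p, hp⟩ := (hG y x).exists_walk_length_eq_dist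
    rw [SimpleGraph.dist_comm, h1] at hp
    cases p with
    | nil => simp at hp
    | cons h q =>
      rename_i z
      rw [SimpleGraph.Walk.length_cons] at hp
      have h2 : G.dist z x ≤ q.length := SimpleGraph.dist_le q
      refine Set.mem_iUnion₂.2 ⟨z, ?_, h.symm⟩
      show G.dist x z ≤ n
      rw [SimpleGraph.dist_comm]
      omega

end Pool.Agent.Lib.MP_d1d9c5_gt.BD
end

section
/-!
# CCN: the graph of the pieces is connected
-/
set_option autoImplicit false

open scoped Classical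

namespace Pool.Agent.Lib.MP_d1d9c5_gt.BD

namespace CCNM

theorem line {V : Type} {G : SimpleGraph V} {f : ℤ → V} (h : ∀ a, G.Reachable (f a) (f (a + 1)))
    (a : ℤ) : G.Reachable (f a) (f 0) := by
  induction a using Int.induction_on with
  | zero => exact SimpleGraph.Reachable.refl _
  | succ n ih => exact (h n).symm.trans ih
  | pred n ih =>
    have h1 := h (-(n : ℤ) - 1)
    rw [sub_add_cancel] at h1
    exact h1.trans ih

theorem line2 {V : Type} {G : SimpleGraph V} {f : ℤ → V}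
    (h : ∀ a, G.Reachable (f a) (f (a + 1))) (a a' : ℤ) : G.Reachable (f a) (f a') :=
  (line h a).trans (line h a').symm

theorem step {θ : ℝ} {x y : Pt} (h : Mo θ x y) : (A0 θ).Reachable x y := by
  by_cases hxy : x = y
  · rw [hxy]
  · exact SimpleGraph.Adj.reachable ((SimpleGraph.fromRel_adj _ _ _).2 ⟨hxy, Or.inl h⟩)

theorem mv {θ : ℝ} (c : Finset (Bool × ℤ × ℤ)) (a b w a' b' w' : ℤ) :
    (A0 θ).Reachable (c, a, b, w) (c, a', b', w') := by
  have h1 : (A0 θ).Reachable (c, a, b, w) (c, a', b, w) :=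
    line2 (f := fun a => ((c, a, b, w) : Pt)) (fun a => step (Mo.a c a b w)) a a'
  have h2 : (A0 θ).Reachable (c, a', b, w) (c, a', b', w) :=
    line2 (f := fun b => ((c, a', b, w) : Pt)) (fun b => step (Mo.b c a' b w)) b b'
  have h3 : (A0 θ).Reachable (c, a', b', w) (c, a', b', w') :=
    line2 (f := fun w => ((c, a', b', w) : Pt)) (fun w => step (Mo.w c a' b' w)) w w'
  exact (h1.trans h2).trans h3

theorem off {θ : ℝ} (c : Finset (Bool × ℤ × ℤ)) :
    ∀ a b w : ℤ, (A0 θ).Reachable (c, a, b, w) (∅, 0, 0, 0) := by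
  induction c using Finset.induction_on with
  | empty => exact fun a b w => mv ∅ a b w 0 0 0
  | insert l s hl ih =>
    intro a b w
    obtain ⟨t, j, e⟩ := l
    have h1 := mv (θ := θ) (insert (t, j, e) s) a b w (qq θ (t, j)) e w
    have h2 := step (Mo.t (θ := θ) (insert (t, j, e) s) t j e w)
    have h3 : symmDiff (insert (t, j, e) s) {(t, j, e)} = s := by
      ext z
      rw [Finset.mem_symmDiff, Finset.mem_insert, Finset.mem_singleton]
      constructor
      · rintro (⟨h | h, h'⟩ | ⟨h, h'⟩)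
        · exact absurd h h'
        · exact h
        · exact absurd (Or.inl h) h'
      · intro h
        exact Or.inl ⟨Or.inr h, fun h' => hl (h' ▸ h)⟩
    rw [h3] at h2
    exact (h1.trans h2).trans (ih _ _ _)

end CCNM

theorem specCCN : SpecCCN := by
  intro θ _ _
  have : Nonempty Pt := ⟨(∅, 0, 0, 0)⟩
  refine ⟨?_⟩
  rintro ⟨c, a, b, w⟩ ⟨c', a', b', w'⟩
  exact (CCNM.off c a b w).trans (CCNM.off c' a' b' w').symm

end Pool.Agent.Lib.MP_d1d9c5_gt.BD
end

section
set_option autoImplicit false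

open scoped Classical

namespace Pool.Agent.Lib.MP_d1d9c5_gt.BD

namespace CDGM

/-- switching a lamp of the sheet `t` at the cursor -/
def Nt (θ : ℝ) (x : Pt) (t : Bool) : Set Pt :=
  {y | ∃ j, qq θ (t, j) = x.2.1 ∧ y = (symmDiff x.1 {(t, j, x.2.2.1)}, x.2.1, x.2.2.1, x.2.2.2)}

theorem Nt_sub {θ : ℝ} (hinj : ∀ (t : Bool) (j j' : ℤ), qq θ (t, j) = qq θ (t, j') → j = j')
    (x : Pt) (t : Bool) : (Nt θ x t).encard ≤ 1 := by
  rw [Set.encard_le_one_iff]
  rintro y y' ⟨j, hj, rfl⟩ ⟨j', hj', rfl⟩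
  have : j = j' := hinj t j j' (hj.trans hj'.symm)
  rw [this]

/-- the six moves -/
def N6 (x : Pt) : Finset Pt :=
  {(x.1, x.2.1 + 1, x.2.2.1, x.2.2.2), (x.1, x.2.1 - 1, x.2.2.1, x.2.2.2),
    (x.1, x.2.1, x.2.2.1 + 1, x.2.2.2), (x.1, x.2.1, x.2.2.1 - 1, x.2.2.2),
    (x.1, x.2.1, x.2.2.1, x.2.2.2 + 1), (x.1, x.2.1, x.2.2.1, x.2.2.2 - 1)}

theorem nbr {θ : ℝ} (x : Pt) :
    (A0 θ).neighborSet x ⊆ (↑(N6 x) ∪ Nt θ x true) ∪ Nt θ x false := by
  intro y hy
  rw [SimpleGraph.mem_neighborSet] at hy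
  unfold A0 at hy
  rw [SimpleGraph.fromRel_adj] at hy
  obtain ⟨-, h | h⟩ := hy
  · cases h with
    | a c a b w => left; left; simp [N6]
    | b c a b w => left; left; simp [N6]
    | w c a b w => left; left; simp [N6]
    | t c t j b w =>
      cases t with
      | true => left; right; exact ⟨j, rfl, rfl⟩
      | false => right; exact ⟨j, rfl, rfl⟩
  · cases h with
    | a c a b w => left; left; simp [N6]
    | b c a b w => left; left; simp [N6]
    | w c a b w => left; left; simp [N6]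
    | t c t j b w =>
      have e : symmDiff (symmDiff c {(t, j, b)}) {(t, j, b)} = c :=
        symmDiff_symmDiff_cancel_right _ _
      cases t with
      | true => left; right; exact ⟨j, rfl, by simp only [e]⟩
      | false => right; exact ⟨j, rfl, by simp only [e]⟩

end CDGM

open CDGM in
theorem specCDG (hCQQ : SpecCQQ) (hCDL : SpecCDL) : SpecCDG := by
  intro θ h1 h2
  have hmono := (hCQQ θ h1 h2).1
  have hinj : ∀ (t : Bool) (j j' : ℤ), qq θ (t, j) = qq θ (t, j') → j = j' := by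
    intro t j j' hq
    rcases lt_trichotomy j j' with h | h | h
    · exact absurd hq (hmono t _ _ h).ne
    · exact h
    · exact absurd hq.symm (hmono t _ _ h).ne
  refine ⟨?_, ?_, ?_, ?_⟩
  · intro x
    refine (Set.encard_le_encard (nbr x)).trans ?_
    refine (Set.encard_union_le _ _).trans ?_
    have a1 : ((↑(N6 x) : Set Pt) ∪ Nt θ x true).encard ≤ 6 + 1 := by
      refine (Set.encard_union_le _ _).trans ?_
      refine add_le_add ?_ (Nt_sub hinj x true)
      rw [Set.encard_coe_eq_coe_finsetCard]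
      exact_mod_cast Finset.card_le_six
    refine (add_le_add a1 (Nt_sub hinj x false)).trans ?_
    norm_num
  · intro x
    have hI : Set.InjOn (fun i : I0 => i.1.1.1) {i | x ∈ S0 θ i} := by
      rintro ⟨⟨⟨t, j⟩, b, w, e⟩, he⟩ hi ⟨⟨⟨t', j'⟩, b', w', e'⟩, he'⟩ hi' htt
      simp only at htt
      subst htt
      obtain ⟨a1, a2, a3, a4⟩ := hi
      obtain ⟨b1, b2, b3, b4⟩ := hi'
      simp only at a1 a2 a3 a4 b1 b2 b3 b4
      have hj : j = j' := hinj t j j' (a1.symm.trans b1)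
      subst hj
      apply Subtype.ext
      simp only [Prod.mk.injEq, true_and]
      exact ⟨a2.symm.trans b2, a3.symm.trans b3, a4.symm.trans b4⟩
    rw [← hI.encard_image]
    refine (Set.encard_le_encard (Set.subset_univ _)).trans ?_
    rw [Set.encard_univ]
    simp
    norm_num
  · intro n
    refine ⟨(∅, 0, 0, 0), (∅, (n : ℤ) + 1, 0, 0), ?_⟩
    obtain ⟨h, -⟩ := hCDL θ h1 h2 (∅, 0, 0, 0) (∅, (n : ℤ) + 1, 0, 0)
    simp only [zero_sub, abs_neg] at h
    have h3 : ((n : ℤ) + 1) ≤ ((A0 θ).dist (∅, 0, 0, 0) (∅, (n : ℤ) + 1, 0, 0) : ℕ) :=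
      (le_abs_self _).trans h
    omega
  · rintro ⟨⟨k, b, w, e⟩, he⟩
    refine ⟨(e, qq θ k, b, w), rfl, rfl, rfl, ?_⟩
    simp only
    rw [Finset.filter_true_of_mem]
    exact he

end Pool.Agent.Lib.MP_d1d9c5_gt.BD
end

section
set_option autoImplicit false

open scoped Classical

namespace Pool.Agent.Lib.MP_d1d9c5_gt.BD

namespace CDLM

theorem adj_bd {θ : ℝ} {x y : Pt} (h : (A0 θ).Adj x y) :
    |x.2.1 - y.2.1| ≤ 1 ∧ |x.2.2.1 - y.2.2.1| ≤ 1 ∧ |x.2.2.2 - y.2.2.2| ≤ 1 ∧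
    ∀ l ∈ symmDiff x.1 y.1, qq θ (l.1, l.2.1) = x.2.1 ∧ l.2.2 = x.2.2.1 := by
  unfold A0 at h
  rw [SimpleGraph.fromRel_adj] at h
  obtain ⟨-, h | h⟩ := h
  · cases h with
    | a c a b w => simp
    | b c a b w => simp
    | w c a b w => simp
    | t c t j b w =>
      refine ⟨by simp, by simp, by simp, ?_⟩
      intro l hl
      have : symmDiff c (symmDiff c {(t, j, b)}) = {(t, j, b)} := symmDiff_symmDiff_cancel_left _ _
      simp only [this, Finset.mem_singleton] at hl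
      subst hl
      exact ⟨rfl, rfl⟩
  · cases h with
    | a c a b w => simp
    | b c a b w => simp
    | w c a b w => simp
    | t c t j b w =>
      refine ⟨by simp, by simp, by simp, ?_⟩
      intro l hl
      have : symmDiff (symmDiff c {(t, j, b)}) c = {(t, j, b)} := by
        rw [symmDiff_comm, symmDiff_symmDiff_cancel_left]
      simp only [this, Finset.mem_singleton] at hl
      subst hl
      exact ⟨rfl, rfl⟩

theorem walk_bd {θ : ℝ} {x y : Pt} (p : (A0 θ).Walk x y) :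
    |x.2.1 - y.2.1| ≤ p.length ∧ |x.2.2.1 - y.2.2.1| ≤ p.length ∧
    |x.2.2.2 - y.2.2.2| ≤ p.length ∧
    ∀ l ∈ symmDiff x.1 y.1, |qq θ (l.1, l.2.1) - x.2.1| ≤ p.length ∧
      |l.2.2 - x.2.2.1| ≤ p.length := by
  induction p with
  | nil => simp
  | @cons x z y h p ih =>
    obtain ⟨h1, h2, h3, h4⟩ := adj_bd h
    obtain ⟨g1, g2, g3, g4⟩ := ih
    rw [SimpleGraph.Walk.length_cons]
    push_cast
    rw [abs_le] at h1 h2 h3 g1 g2 g3
    refine ⟨?_, ?_, ?_, ?_⟩
    · rw [abs_le]; constructor <;> linarith [h1.1, h1.2, g1.1, g1.2]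
    · rw [abs_le]; constructor <;> linarith [h2.1, h2.2, g2.1, g2.2]
    · rw [abs_le]; constructor <;> linarith [h3.1, h3.2, g3.1, g3.2]
    · intro l hl
      by_cases hl1 : l ∈ symmDiff x.1 z.1
      · obtain ⟨e1, e2⟩ := h4 l hl1
        rw [e1, e2, sub_self, sub_self, abs_zero]
        constructor <;> positivity
      · have hl2 : l ∈ symmDiff z.1 y.1 := by
          rw [Finset.mem_symmDiff] at hl hl1 ⊢
          tauto
        obtain ⟨e1, e2⟩ := g4 l hl2
        rw [abs_le] at e1 e2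
        constructor
        · rw [abs_le]; constructor <;> linarith [h1.1, h1.2, e1.1, e1.2]
        · rw [abs_le]; constructor <;> linarith [h2.1, h2.2, e2.1, e2.2]

end CDLM

open CDLM in
theorem specCDL (hCCN : SpecCCN) : SpecCDL := by
  intro θ h1 h2 x y
  obtain ⟨p, hp⟩ := (hCCN θ h1 h2).exists_walk_length_eq_dist x y
  have := walk_bd p
  rw [hp] at this
  exact this

end Pool.Agent.Lib.MP_d1d9c5_gt.BD
end

section
set_option autoImplicit false

open scoped Classical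

namespace Pool.Agent.Lib.MP_d1d9c5_gt.BD

theorem specCDS (hCDU : SpecCDU) (hCDL : SpecCDL) (hCQQ : SpecCQQ) : SpecCDS := by
  intro θ h1 h2
  refine ⟨fun ρ => 2 * ((2 * ρ + 1) * (2 * ρ + 1)) * (4 * ρ + 1), ?_⟩
  intro i ρ x hx y hxy
  have key : y ∈ S0 θ i ∧ ∀ l ∈ symmDiff x.1 y.1, |qq θ (l.1, l.2.1) - x.2.1| ≤ ρ ∧
      |l.2.2 - x.2.2.1| ≤ ρ := by
    induction hxy with
    | refl =>
      refine ⟨hx, ?_⟩
      intro l hl
      simp at hl
    | @tail z w hz hzw ih =>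
      obtain ⟨hw, hd⟩ := hzw
      obtain ⟨hzS, hzl⟩ := ih
      refine ⟨hw, ?_⟩
      intro l hl
      by_cases hl1 : l ∈ symmDiff x.1 z.1
      · exact hzl l hl1
      · have hl2 : l ∈ symmDiff z.1 w.1 := by
          rw [Finset.mem_symmDiff] at hl hl1 ⊢
          tauto
        obtain ⟨-, -, -, h4⟩ := hCDL θ h1 h2 z w
        obtain ⟨e1, e2⟩ := h4 l hl2
        have ez1 : z.2.1 = x.2.1 := hzS.1.trans hx.1.symm
        have ez2 : z.2.2.1 = x.2.2.1 := hzS.2.1.trans hx.2.1.symm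
        rw [ez1] at e1
        rw [ez2] at e2
        have hd' : ((A0 θ).dist z w : ℤ) ≤ ρ := by exact_mod_cast hd
        exact ⟨e1.trans hd', e2.trans hd'⟩
  obtain ⟨hy, hl⟩ := key
  have e1 : x.2.1 - y.2.1 = 0 := by rw [hx.1, hy.1, sub_self]
  have e2 : x.2.2.1 - y.2.2.1 = 0 := by rw [hx.2.1, hy.2.1, sub_self]
  have e3 : x.2.2.2 - y.2.2.2 = 0 := by rw [hx.2.2.1, hy.2.2.1, sub_self]
  have h := hCDU θ h1 h2 x y
  rw [e1, e2, e3] at h
  have hsum : ∑ l ∈ symmDiff x.1 y.1,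
        (2 * ((qq θ (l.1, l.2.1) - x.2.1).natAbs + (l.2.2 - x.2.2.1).natAbs) + 1) ≤
      (symmDiff x.1 y.1).card * (4 * ρ + 1) := by
    rw [← smul_eq_mul]
    apply Finset.sum_le_card_nsmul
    intro l hlm
    obtain ⟨g1, g2⟩ := hl l hlm
    rw [abs_le] at g1 g2
    omega
  have hcard : (symmDiff x.1 y.1).card ≤ 2 * ((2 * ρ + 1) * (2 * ρ + 1)) := by
    let T : Finset (Bool × ℤ × ℤ) := Finset.univ ×ˢ
      (Finset.Icc (x.2.1 - ρ) (x.2.1 + ρ) ×ˢ Finset.Icc (x.2.2.1 - ρ) (x.2.2.1 + ρ))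
    have hT : T.card = 2 * ((2 * ρ + 1) * (2 * ρ + 1)) := by
      simp only [T, Finset.card_product, Int.card_Icc, Finset.card_univ, Fintype.card_bool]
      congr 2 <;> omega
    rw [← hT]
    apply Finset.card_le_card_of_injOn (fun l => (l.1, qq θ (l.1, l.2.1), l.2.2))
    · intro l hlm
      obtain ⟨g1, g2⟩ := hl l hlm
      rw [abs_le] at g1 g2
      simp only [T, Finset.coe_product, Set.mem_prod, Finset.coe_univ, Set.mem_univ, true_and,
        Finset.coe_Icc, Set.mem_Icc]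
      refine ⟨⟨?_, ?_⟩, ⟨?_, ?_⟩⟩ <;> linarith [g1.1, g1.2, g2.1, g2.2]
    · rintro ⟨t, j, b⟩ - ⟨t', j', b'⟩ - hll
      simp only [Prod.mk.injEq] at hll
      obtain ⟨rfl, hq, rfl⟩ := hll
      have hmono := (hCQQ θ h1 h2).1 t
      have : j = j' := by
        rcases lt_trichotomy j j' with h | h | h
        · exact absurd hq (hmono _ _ h).ne
        · exact h
        · exact absurd hq.symm (hmono _ _ h).ne
      rw [this]
  calc (A0 θ).dist x y ≤ (symmDiff x.1 y.1).card * (4 * ρ + 1) := by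
        simpa using h.trans (by simpa using hsum)
    _ ≤ 2 * ((2 * ρ + 1) * (2 * ρ + 1)) * (4 * ρ + 1) := Nat.mul_le_mul_right _ hcard

end Pool.Agent.Lib.MP_d1d9c5_gt.BD
end

section
set_option autoImplicit false

open scoped Classical

namespace Pool.Agent.Lib.MP_d1d9c5_gt.BD

namespace CDUM

theorem dist_le_one {θ : ℝ} {x y : Pt} (h : Mo θ x y) : (A0 θ).dist x y ≤ 1 := by
  by_cases hxy : x = y
  · subst hxy
    simp
  · have : (A0 θ).Adj x y := by
      unfold A0
      rw [SimpleGraph.fromRel_adj]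
      exact ⟨hxy, Or.inl h⟩
    rw [SimpleGraph.dist_eq_one_iff_adj.2 this]

theorem dist_le_one' {θ : ℝ} {x y : Pt} (h : Mo θ y x) : (A0 θ).dist x y ≤ 1 := by
  rw [SimpleGraph.dist_comm]
  exact dist_le_one h

/-- moving along a line of points -/
theorem line {θ : ℝ} (hc : (A0 θ).Connected) (P : ℤ → Pt) (hP : ∀ a, Mo θ (P a) (P (a + 1)))
    (a : ℤ) (n : ℕ) : (A0 θ).dist (P a) (P (a + n)) ≤ n := by
  induction n with
  | zero => simp
  | succ n ih =>
    have h1 := hc.dist_triangle (u := P a) (v := P (a + n)) (w := P (a + (n + 1 : ℕ)))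
    have h2 : (A0 θ).dist (P (a + n)) (P (a + (n + 1 : ℕ))) ≤ 1 := by
      have : a + ((n + 1 : ℕ) : ℤ) = (a + n) + 1 := by push_cast; ring
      rw [this]
      exact dist_le_one (hP _)
    omega

theorem line' {θ : ℝ} (hc : (A0 θ).Connected) (P : ℤ → Pt) (hP : ∀ a, Mo θ (P a) (P (a + 1)))
    (a b : ℤ) : (A0 θ).dist (P a) (P b) ≤ (a - b).natAbs := by
  rcases le_total a b with h | h
  · obtain ⟨n, hn⟩ := Int.le.dest h
    rw [← hn]
    refine (line hc P hP a n).trans ?_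
    omega
  · obtain ⟨n, hn⟩ := Int.le.dest h
    rw [← hn, SimpleGraph.dist_comm]
    refine (line hc P hP b n).trans ?_
    omega

theorem move {θ : ℝ} (hc : (A0 θ).Connected) (c : Finset (Bool × ℤ × ℤ)) (a b w a' b' w' : ℤ) :
    (A0 θ).dist (c, a, b, w) (c, a', b', w') ≤
      (a - a').natAbs + (b - b').natAbs + (w - w').natAbs := by
  have h1 := line' hc (fun a => (c, a, b, w)) (fun a => Mo.a c a b w) a a'
  have h2 := line' hc (fun b => (c, a', b, w)) (fun b => Mo.b c a' b w) b b'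
  have h3 := line' hc (fun w => (c, a', b', w)) (fun w => Mo.w c a' b' w) w w'
  have t1 := hc.dist_triangle (u := (c, a, b, w)) (v := (c, a', b, w)) (w := (c, a', b', w'))
  have t2 := hc.dist_triangle (u := (c, a', b, w)) (v := (c, a', b', w)) (w := (c, a', b', w'))
  omega

theorem main {θ : ℝ} (hc : (A0 θ).Connected) (n : ℕ) : ∀ x y : Pt, (symmDiff x.1 y.1).card = n →
    (A0 θ).dist x y ≤
    (x.2.1 - y.2.1).natAbs + (x.2.2.1 - y.2.2.1).natAbs + (x.2.2.2 - y.2.2.2).natAbs +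
      ∑ l ∈ symmDiff x.1 y.1,
        (2 * ((qq θ (l.1, l.2.1) - x.2.1).natAbs + (l.2.2 - x.2.2.1).natAbs) + 1) := by
  induction n with
  | zero =>
    rintro ⟨c, a, b, w⟩ ⟨c', a', b', w'⟩ h
    simp only [Finset.card_eq_zero] at h
    have hcc : c = c' := by
      rw [← Finset.bot_eq_empty, symmDiff_eq_bot] at h
      exact h
    subst hcc
    have := move hc c a b w a' b' w'
    simpa using this
  | succ n ih =>
    rintro ⟨c, a, b, w⟩ ⟨c', a', b', w'⟩ h
    simp only at h ⊢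
    obtain ⟨l, hl⟩ : (symmDiff c c').Nonempty := by
      rw [← Finset.card_pos, h]; omega
    obtain ⟨t, j, e⟩ := l
    have hsd : symmDiff (symmDiff c {(t, j, e)}) c' = (symmDiff c c').erase (t, j, e) := by
      ext m
      simp only [Finset.mem_symmDiff, Finset.mem_singleton, Finset.mem_erase] at hl ⊢
      by_cases hm : m = (t, j, e)
      · subst hm
        tauto
      · tauto
    have hcard : ((symmDiff c c').erase (t, j, e)).card = n := by
      rw [Finset.card_erase_of_mem hl, h]; rfl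
    have h1 := ih (symmDiff c {(t, j, e)}, a, b, w) (c', a', b', w') (by
      simp only
      rw [hsd, hcard])
    simp only [hsd] at h1
    have m1 := move hc c a b w (qq θ (t, j)) e w
    have m2 := dist_le_one (Mo.t (θ := θ) c t j e w)
    have m3 := move hc (symmDiff c {(t, j, e)}) (qq θ (t, j)) e w a b w
    have t1 := hc.dist_triangle (u := (c, a, b, w)) (v := (c, qq θ (t, j), e, w))
      (w := (symmDiff c {(t, j, e)}, a, b, w))
    have t2 := hc.dist_triangle (u := (c, qq θ (t, j), e, w))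
      (v := (symmDiff c {(t, j, e)}, qq θ (t, j), e, w)) (w := (symmDiff c {(t, j, e)}, a, b, w))
    have t3 := hc.dist_triangle (u := (c, a, b, w)) (v := (symmDiff c {(t, j, e)}, a, b, w))
      (w := (c', a', b', w'))
    rw [← Finset.add_sum_erase _ _ hl]
    simp only
    have e1 : (a - qq θ (t, j)).natAbs = (qq θ (t, j) - a).natAbs := by omega
    have e2 : (b - e).natAbs = (e - b).natAbs := by omega
    have e3 : (w - w).natAbs = 0 := by simp
    rw [e1, e2, e3] at m1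
    rw [e3] at m3
    omega

end CDUM

open CDUM in
theorem specCDU (hCCN : SpecCCN) : SpecCDU := by
  intro θ h1 h2 x y
  exact main (hCCN θ h1 h2) _ x y rfl

end Pool.Agent.Lib.MP_d1d9c5_gt.BD
end

section
set_option autoImplicit false

open scoped Classical

namespace Pool.Agent.Lib.MP_d1d9c5_gt.BD

namespace CLVM

theorem ci_of_le (hCDU : SpecCDU) (θ : ℝ) (h1 : 1 < θ) (h2 : θ < 2)
    (htr : ∀ k l m, Le k l → Le l m → Le k m) (i j : I0) (h : Le (lev0 i) (lev0 j)) :
    CI (A0 θ) (S0 θ i) (S0 θ j) := by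
  obtain ⟨⟨k, b, w, c⟩, hc⟩ := i
  obtain ⟨⟨k', b', w', c'⟩, hc'⟩ := j
  simp only at hc hc'
  have hk : Le k k' := h
  refine ⟨(qq θ k - qq θ k').natAbs + (b - b').natAbs + (w - w').natAbs +
    ∑ l ∈ c ∪ c', (2 * ((qq θ (l.1, l.2.1) - qq θ k).natAbs + (l.2.2 - b).natAbs) + 1), ?_⟩
  rintro ⟨xc, xa, xb, xw⟩ ⟨ha, hb, hw, hl⟩
  simp only at ha hb hw hl
  subst ha hb hw
  refine ⟨(xc.filter (fun l => Fr k' l) ∪ c', qq θ k', b', w'), ⟨rfl, rfl, rfl, ?_⟩, ?_⟩
  · simp only
    ext l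
    simp only [Finset.mem_filter, Finset.mem_union]
    constructor
    · rintro ⟨⟨-, h3⟩ | h3, h4⟩
      · exact absurd h3 h4
      · exact h3
    · intro h3
      exact ⟨Or.inr h3, hc' l h3⟩
  · refine (hCDU θ h1 h2 _ _).trans ?_
    simp only
    refine Nat.add_le_add_left (Finset.sum_le_sum_of_subset ?_) _
    intro l hl'
    rw [Finset.mem_symmDiff] at hl'
    simp only [Finset.mem_union, Finset.mem_filter] at hl' ⊢
    rcases hl' with ⟨h3, h4⟩ | ⟨h3, h4⟩
    · left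
      rw [← hl, Finset.mem_filter]
      refine ⟨h3, fun h5 => h4 (Or.inl ⟨h3, htr _ _ _ h5 hk⟩)⟩
    · rcases h3 with h3 | h3
      · exact absurd h3.1 h4
      · exact Or.inr h3

theorem le_of_ci (hCDL : SpecCDL) (θ : ℝ) (h1 : 1 < θ) (h2 : θ < 2)
    (hrf : ∀ k, Le k k) (i j : I0) (h : CI (A0 θ) (S0 θ i) (S0 θ j)) :
    Le (lev0 i) (lev0 j) := by
  obtain ⟨⟨k, b, w, c⟩, hc⟩ := i
  obtain ⟨⟨k', b', w', c'⟩, hc'⟩ := j
  simp only at hc hc'
  show Le k k'
  by_contra hk
  obtain ⟨r, hr⟩ := h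
  obtain ⟨b'', hb1, hb2⟩ : ∃ b'' : ℤ, b + r < b'' ∧ ∀ l ∈ c', l.2.2 < b'' := by
    obtain ⟨M, hM⟩ := (c'.image (fun l => l.2.2)).bddAbove
    refine ⟨max M (b + r) + 1, ?_, ?_⟩
    · have := le_max_right M (b + r); omega
    · intro l hl
      have h3 : l.2.2 ≤ M := hM (Finset.mem_coe.2 (Finset.mem_image_of_mem _ hl))
      have := le_max_left M (b + r)
      omega
  let l : Bool × ℤ × ℤ := (k.1, k.2, b'')
  have hlk : Fr k l := hrf k
  have hlk' : ¬ Fr k' l := hk
  obtain ⟨y, hy, hd⟩ := hr (insert l c, qq θ k, b, w) ⟨rfl, rfl, rfl, by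
    simp only
    ext m
    simp only [Finset.mem_filter, Finset.mem_insert]
    constructor
    · rintro ⟨rfl | h3, h4⟩
      · exact absurd hlk h4
      · exact h3
    · intro h3
      exact ⟨Or.inr h3, hc m h3⟩⟩
  have hly : l ∈ y.1 := by
    by_contra hn
    have h3 := ((hCDL θ h1 h2 (insert l c, qq θ k, b, w) y).2.2.2 l (by
      rw [Finset.mem_symmDiff]
      exact Or.inl ⟨Finset.mem_insert_self _ _, hn⟩)).2
    simp only [l] at h3
    have h4 : |b'' - b| ≤ (r : ℤ) := h3.trans (by exact_mod_cast hd)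
    rw [abs_le] at h4
    omega
  have h5 : l ∈ y.1.filter (fun l => ¬ Fr k' l) := Finset.mem_filter.2 ⟨hly, hlk'⟩
  rw [hy.2.2.2] at h5
  exact absurd (hb2 l h5) (lt_irrefl _)

end CLVM

/-- CLV -/
theorem specCLV (hCDU : SpecCDU) (hCDL : SpecCDL) (hCQQ : SpecCQQ) : SpecCLV := by
  intro θ h1 h2
  obtain ⟨-, q2, q3, -⟩ := hCQQ θ h1 h2
  refine ⟨fun i j => ⟨?_, ?_⟩, fun x y => ?_, fun i x hx => hx.1, fun k => ?_, fun x => ?_, ?_,
    fun n => ?_⟩
  · exact CLVM.le_of_ci hCDL θ h1 h2 (fun k => ((q2 k k).1 rfl).1) i j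
  · exact CLVM.ci_of_le hCDU θ h1 h2 q3 i j
  · exact (hCDL θ h1 h2 x y).1
  · exact ⟨⟨(k, 0, 0, ∅), by simp⟩, rfl⟩
  · refine ⟨⟨((false, x.2.1), x.2.2.1, x.2.2.2,
      x.1.filter (fun l => ¬ Fr (false, x.2.1) l)), ?_⟩, rfl, ?_⟩
    · intro l hl
      exact (Finset.mem_filter.1 hl).2
    · refine ⟨?_, rfl, rfl, rfl⟩
      simp [qq]
  · refine ⟨(∅, 0, 0, 0), ⟨((true, 0), 0, 0, ∅), by simp⟩, rfl, rfl, ?_, rfl, rfl, ?_⟩
    · simp [qq]
    · simp
  · exact ⟨(∅, n, 0, 0), le_refl _⟩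

end Pool.Agent.Lib.MP_d1d9c5_gt.BD
end

section
set_option autoImplicit false

open scoped Classical

/-! # MP_d1d9c5_gt, module COC: the stabilizer of a copy is unbounded -/

namespace Pool.Agent.Lib.MP_d1d9c5_gt.BD

universe w

namespace COCM

/-- pigeonhole: an unbounded function is unbounded on one of finitely many classes -/
lemma pigeon {P J : Type} (pos : P → ℤ) (g : P → J) (T : Set J) (hT : T.Finite)
    (hg : ∀ x, g x ∈ T) (hu : ∀ n : ℕ, ∃ x, (n : ℤ) ≤ pos x) :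
    ∃ j, ∀ M : ℤ, ∃ x, g x = j ∧ M ≤ pos x := by
  by_contra hcon
  push Not at hcon
  choose M hM using hcon
  obtain ⟨B, hB⟩ := (hT.image M).bddAbove
  obtain ⟨x, hx⟩ := hu B.toNat
  have h1 := hM (g x) x rfl
  have h2 : M (g x) ≤ B := hB ⟨g x, hg x, rfl⟩
  have h3 := Int.self_le_toNat B
  linarith

section

variable {X : Type} {G : SimpleGraph X} {Γ : Type w} [Group Γ] {C : ℕ} {F : Γ → X → X}

lemma back (hG : G.Connected) (hQA : QA G Γ C F) {h : Γ} {p q : X} (hp : G.dist (F h p) q ≤ C) :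
    G.dist (F h⁻¹ q) p ≤ C * C + 3 * C := by
  have h1 := hQA.lip h⁻¹ q (F h p)
  have h2 := hQA.mul h⁻¹ h p
  have h3 := hQA.one p
  rw [inv_mul_cancel] at h2
  have t1 := hG.dist_triangle (u := F h⁻¹ q) (v := F h⁻¹ (F h p)) (w := p)
  have t2 := hG.dist_triangle (u := F h⁻¹ (F h p)) (v := F 1 p) (w := p)
  have h4 : C * G.dist q (F h p) ≤ C * C := by
    rw [G.dist_comm]
    exact Nat.mul_le_mul_left _ hp
  linarith

end

end COCM

theorem specCOC (hTPR : SpecTPR) (hTDG : SpecTDG) (hBAL : SpecBAL) (hTCN : SpecTCN) :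
    SpecCOC.{w} := by
  intro P I A S D d hPc θ lev pos hLev Γ _ C F hQA R π hPA n
  have hG : (TG A S).Connected := hTCN P I A S hPc.conn hPc.ne
  obtain ⟨tpr1, -, -, -⟩ := hTPR P I A S hPc.conn hPc.ne
  have hdeg := hTDG P I A S d hPc.deg hPc.mult
  obtain ⟨x₀, -⟩ := hLev.base
  choose h hh using fun x : P => hQA.tra (W.nil, x₀) (W.nil, x)
  set K1 : ℕ := C * C + 3 * C with hK1
  have hback : ∀ x, (TG A S).dist (F (h x)⁻¹ (W.nil, x)) (W.nil, x₀) ≤ K1 := fun x =>
    COCM.back hG hQA (hh x)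
  have hfin : ({y | (TG A S).dist (W.nil, x₀) y ≤ K1 + R} : Set (W I × P)).Finite := by
    apply hBAL (W I × P) (TG A S) (2 * d) hG
    intro p
    have := hdeg p
    push_cast
    exact this
  have hmem : ∀ x, π (h x)⁻¹ W.nil ∈
      Prod.fst '' ({y | (TG A S).dist (W.nil, x₀) y ≤ K1 + R} : Set (W I × P)) := by
    intro x
    obtain ⟨y, hy⟩ := hPA.mp (h x)⁻¹ W.nil x
    refine ⟨(π (h x)⁻¹ W.nil, y), ?_, rfl⟩
    have t1 := hG.dist_triangle (u := ((W.nil, x₀) : W I × P)) (v := F (h x)⁻¹ (W.nil, x))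
      (w := (π (h x)⁻¹ W.nil, y))
    have t2 := hback x
    rw [(TG A S).dist_comm] at t2
    show (TG A S).dist _ _ ≤ _
    linarith
  obtain ⟨g, hg⟩ := COCM.pigeon pos (fun x => π (h x)⁻¹ W.nil) _ (hfin.image _) hmem hLev.unb
  obtain ⟨x, hx, -⟩ := hg 0
  obtain ⟨z, hz, hzp⟩ := hg (pos x + n + (3 * C + C * K1 : ℕ))
  refine ⟨h z * (h x)⁻¹, x, ?_, ?_⟩
  · rw [hPA.mul, hx, ← hz, ← hPA.mul, mul_inv_cancel, hPA.one]
  · have d1 := hQA.mul (h z) (h x)⁻¹ (W.nil, x)
    have d2 := hQA.lip (h z) (F (h x)⁻¹ (W.nil, x)) (W.nil, x₀)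
    have d3 := hh z
    have d4 : C * (TG A S).dist (F (h x)⁻¹ (W.nil, x)) (W.nil, x₀) ≤ C * K1 :=
      Nat.mul_le_mul_left _ (hback x)
    have t1 := hG.dist_triangle (u := F (h z * (h x)⁻¹) (W.nil, x))
      (v := F (h z) (F (h x)⁻¹ (W.nil, x))) (w := (W.nil, z))
    have t2 := hG.dist_triangle (u := F (h z) (F (h x)⁻¹ (W.nil, x)))
      (v := F (h z) (W.nil, x₀)) (w := (W.nil, z))
    rw [SimpleGraph.dist_comm (G := TG A S)] at d1
    have d5 : (TG A S).dist (F (h z * (h x)⁻¹) (W.nil, x)) (W.nil, z) ≤ 3 * C + C * K1 := by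
      linarith
    have d6 := tpr1 (F (h z * (h x)⁻¹) (W.nil, x)) (W.nil, z)
    have d7 := hLev.lip (br (F (h z * (h x)⁻¹)) x) z
    have d8 : ((A.dist (br (F (h z * (h x)⁻¹)) x) z : ℕ) : ℤ) ≤ ((3 * C + C * K1 : ℕ) : ℤ) := by
      have : A.dist (br (F (h z * (h x)⁻¹)) x) z ≤ 3 * C + C * K1 := le_trans d6 d5
      exact_mod_cast this
    have d9 := le_trans d7 d8
    rw [abs_le] at d9
    have d10 := le_abs_self (pos (br (F (h z * (h x)⁻¹)) x) - pos x)
    linarith [d9.1]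

end Pool.Agent.Lib.MP_d1d9c5_gt.BD
end

section
/-!
# MP_d1d9c5_gt, bounded degree example: COL (essentially one side)
-/
set_option autoImplicit false

open scoped Classical

namespace Pool.Agent.Lib.MP_d1d9c5_gt.BD

theorem specCOL (hPUL : SpecPUL) (hTCR : SpecTCR) (hTPR : SpecTPR) (hTCN : SpecTCN) :
    SpecCOL := by
  intro P I A S D d hP C
  have hG : (TG A S).Connected := hTCN P I A S hP.conn hP.ne
  obtain ⟨-, h2, -, h4⟩ := hTPR P I A S hP.conn hP.ne
  obtain ⟨D', hD'⟩ := hPUL P I A S D d hP C (2 * C)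
  obtain ⟨R₁, hR₁⟩ := hP.thick D'
  refine ⟨C * R₁ + 3 * C, ?_⟩
  intro f g hf v u u' i hu
  have hB := hD' f g hf v u i
  -- crossing
  have cross : ∀ x y, A.Adj x y → u.1 <:+ (f (v, x)).1.1 → ¬ u.1 <:+ (f (v, y)).1.1 →
      x ∈ {x | ∃ s ∈ S i, (TG A S).dist (f (v, x)) (u, s) ≤ 2 * C} ∧
      y ∈ {x | ∃ s ∈ S i, (TG A S).dist (f (v, x)) (u, s) ≤ 2 * C} := by
    intro x y hxy hx hy
    obtain ⟨s, hs, hsd⟩ := hTCR P I A S hP.conn hP.ne u u' i hu (f (v, x)) (f (v, y)) hx hy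
    have h5 := hf.lipf (v, x) (v, y)
    rw [h2 v x y, SimpleGraph.dist_eq_one_iff_adj.2 hxy] at h5
    have h6 := h4 u u' i s hu hs
    have h7 : (TG A S).dist (f (v, y)) (u, s) ≤
        (TG A S).dist (f (v, y)) (u', s) + (TG A S).dist (u', s) (u, s) := hG.dist_triangle
    rw [SimpleGraph.dist_comm] at h6
    rw [SimpleGraph.dist_comm (u := f (v, y)) (v := (u', s))] at h7
    exact ⟨⟨s, hs, by omega⟩, ⟨s, hs, by omega⟩⟩
  have near : ∀ x, (∃ b ∈ {x | ∃ s ∈ S i, (TG A S).dist (f (v, x)) (u, s) ≤ 2 * C},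
      A.dist x b ≤ R₁) → ∃ s ∈ S i, (TG A S).dist (f (v, x)) (u, s) ≤ C * R₁ + 3 * C := by
    rintro x ⟨b, ⟨s, hs, hsb⟩, hxb⟩
    refine ⟨s, hs, ?_⟩
    have h5 := hf.lipf (v, x) (v, b)
    rw [h2 v x b] at h5
    have h6 : C * A.dist x b ≤ C * R₁ := Nat.mul_le_mul_left C hxb
    have h7 : (TG A S).dist (f (v, x)) (u, s) ≤
        (TG A S).dist (f (v, x)) (f (v, b)) + (TG A S).dist (f (v, b)) (u, s) := hG.dist_triangle
    omega
  rcases hR₁ _ hB (fun x => u.1 <:+ (f (v, x)).1.1) (by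
    intro x y hxy hne
    by_cases hx : u.1 <:+ (f (v, x)).1.1
    · have hy : ¬ u.1 <:+ (f (v, y)).1.1 := fun hy => hne ⟨fun _ => hy, fun _ => hx⟩
      exact cross x y hxy hx hy
    · have hy : u.1 <:+ (f (v, y)).1.1 := by
        by_contra hy
        exact hne ⟨fun h => absurd h hx, fun h => absurd h hy⟩
      exact (cross y x hxy.symm hy hx).symm) with h | h
  · left
    intro x
    rcases h x with h | h
    · exact Or.inl h
    · exact Or.inr (near x h)
  · right
    intro x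
    rcases h x with h | h
    · exact Or.inl h
    · exact Or.inr (near x h)

end Pool.Agent.Lib.MP_d1d9c5_gt.BD
end

section
set_option autoImplicit false

open scoped Classical

/-! # MP_d1d9c5_gt, module CON: the contradiction -/

namespace Pool.Agent.Lib.MP_d1d9c5_gt.BD

universe w

namespace CONM

section

variable {P I : Type} {A : SimpleGraph P} {S : I → Set P} {θ : ℝ} {lev : I → Bool × ℤ} {pos : P → ℤ}
  {Γ : Type w} [Group Γ] {R R' : ℕ} {F : Γ → W I × P → W I × P} {π : Γ → W I → W I}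
  {σ : Γ → Bool × ℤ → Bool × ℤ}

lemma st_inv (hPA : PA A S Γ R F π) {h : Γ} (hh : π h W.nil = W.nil) : π h⁻¹ W.nil = W.nil := by
  have h1 := hPA.mul h⁻¹ h W.nil
  rw [inv_mul_cancel, hPA.one, hh] at h1
  exact h1.symm

lemma st_pow (hPA : PA A S Γ R F π) {h : Γ} (hh : π h W.nil = W.nil) (n : ℕ) :
    π (h ^ n) W.nil = W.nil := by
  induction n with
  | zero => rw [pow_zero]; exact hPA.one _
  | succ n ih => rw [pow_succ, hPA.mul, hh, ih]

lemma shift (hORD : SpecORD) (hPA : PA A S Γ R F π) (hLA : LA S θ lev pos Γ R' F π σ) {h : Γ}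
    (hh : π h W.nil = W.nil) :
    ∃ t₁ t₂ : ℤ, ∀ a : ℤ, σ h (false, a) = (false, a + t₁) ∧ σ h (true, a) = (true, a + t₂) := by
  have hi := st_inv hPA hh
  apply hORD (σ h) (σ h⁻¹)
  · intro k
    rw [← hLA.mul h⁻¹ h hi hh, inv_mul_cancel, hLA.one]
  · intro k
    rw [← hLA.mul h h⁻¹ hh hi, mul_inv_cancel, hLA.one]
  · exact hLA.le h hh

lemma shift_pow (hPA : PA A S Γ R F π) (hLA : LA S θ lev pos Γ R' F π σ) {h : Γ}
    (hh : π h W.nil = W.nil) {t₁ t₂ : ℤ}
    (ht : ∀ a : ℤ, σ h (false, a) = (false, a + t₁) ∧ σ h (true, a) = (true, a + t₂)) (n : ℕ) :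
    ∀ a : ℤ, σ (h ^ n) (false, a) = (false, a + n * t₁) ∧
      σ (h ^ n) (true, a) = (true, a + n * t₂) := by
  induction n with
  | zero =>
    intro a
    rw [pow_zero, hLA.one, hLA.one]
    simp
  | succ n ih =>
    intro a
    have h1 := hLA.mul (h ^ n) h (st_pow hPA hh n) hh
    rw [pow_succ, h1, h1, (ht a).1, (ht a).2, (ih _).1, (ih _).2]
    push_cast
    constructor <;> congr 1 <;> ring

lemma bd (hLev : Lev A S θ lev pos) (hLA : LA S θ lev pos Γ R' F π σ) {h : Γ}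
    (hh : π h W.nil = W.nil) {t₁ t₂ : ℤ}
    (ht : ∀ a : ℤ, σ h (false, a) = (false, a + t₁) ∧ σ h (true, a) = (true, a + t₂)) :
    |(t₁ : ℝ) - θ * t₂| ≤ 2 * R' + 1 := by
  obtain ⟨x₀, i₀, h0, hl0, hx0⟩ := hLev.base
  obtain ⟨i₁, hl1, hx1⟩ := hLev.cov x₀
  have e1 := hLA.pos h hh i₁ x₀ hx1
  have e2 := hLA.pos h hh i₀ x₀ hx0
  rw [hl1, h0, (ht 0).1] at e1
  rw [hl0, (ht 0).2] at e2
  simp only [qq, zero_add] at e1 e2
  simp only [Bool.false_eq_true, if_false, if_true] at e1 e2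
  have h3 : |(t₁ : ℤ) - ⌊θ * (t₂ : ℝ)⌋| ≤ 2 * R' := by
    rw [abs_le] at *
    constructor <;> linarith [e1.1, e1.2, e2.1, e2.2]
  have h4 : |(t₁ : ℝ) - (⌊θ * (t₂ : ℝ)⌋ : ℤ)| ≤ 2 * R' := by exact_mod_cast h3
  have h5 := Int.floor_le (θ * (t₂ : ℝ))
  have h6 := Int.lt_floor_add_one (θ * (t₂ : ℝ))
  rw [abs_le] at *
  constructor <;> linarith [h4.1, h4.2]

lemma zero (hLev : Lev A S θ lev pos) (hθ : Irrational θ) (hPA : PA A S Γ R F π)
    (hLA : LA S θ lev pos Γ R' F π σ) {h : Γ}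
    (hh : π h W.nil = W.nil) {t₁ t₂ : ℤ}
    (ht : ∀ a : ℤ, σ h (false, a) = (false, a + t₁) ∧ σ h (true, a) = (true, a + t₂)) :
    t₁ = 0 := by
  have h1 : ∀ n : ℕ, (n : ℝ) * |(t₁ : ℝ) - θ * t₂| ≤ 2 * R' + 1 := by
    intro n
    have h2 := bd hLev hLA (st_pow hPA hh n) (shift_pow hPA hLA hh ht n)
    have h3 : (((n : ℤ) * t₁ : ℤ) : ℝ) - θ * (((n : ℤ) * t₂ : ℤ) : ℝ) =
        (n : ℝ) * ((t₁ : ℝ) - θ * t₂) := by push_cast; ring
    rw [h3, abs_mul, Nat.abs_cast] at h2
    exact h2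
  have h2 : (t₁ : ℝ) - θ * t₂ = 0 := by
    by_contra hne
    have hp : 0 < |(t₁ : ℝ) - θ * t₂| := abs_pos.2 hne
    obtain ⟨n, hn⟩ := exists_nat_gt ((2 * (R' : ℝ) + 1) / |(t₁ : ℝ) - θ * t₂|)
    have := h1 n
    rw [div_lt_iff₀ hp] at hn
    linarith
  by_cases h3 : t₂ = 0
  · rw [h3] at h2
    have h4 : (t₁ : ℝ) = 0 := by simpa using h2
    exact_mod_cast h4
  · exfalso
    apply hθ
    refine ⟨(t₁ : ℚ) / t₂, ?_⟩
    have h4 : (t₂ : ℝ) ≠ 0 := by exact_mod_cast h3
    push_cast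
    rw [div_eq_iff h4]
    linarith

end

end CONM

theorem specCON (hPER : SpecPER.{w}) (hACT : SpecACT.{w}) (hORD : SpecORD)
    (hCOC : SpecCOC.{w}) : SpecCON.{w} := by
  intro P I A S D d hPc θ lev pos hθ hLev Γ _ C F hQA
  obtain ⟨R, π, hPA⟩ := hPER P I A S D d hPc Γ C F hQA
  obtain ⟨R', σ, hLA⟩ := hACT P I A S D d hPc θ lev pos hLev Γ C F hQA R π hPA
  obtain ⟨h, x, hh, hx⟩ := hCOC P I A S D d hPc θ lev pos hLev Γ C F hQA R π hPA (R' + 1)
  obtain ⟨t₁, t₂, ht⟩ := CONM.shift hORD hPA hLA hh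
  have h0 := CONM.zero hLev hθ hPA hLA hh ht
  obtain ⟨i, hi, hxi⟩ := hLev.cov x
  have h1 := hLA.pos h hh i x hxi
  rw [hi, (ht _).1, h0] at h1
  simp only [qq, add_zero, Bool.false_eq_true, if_false] at h1
  push_cast at hx
  linarith

end Pool.Agent.Lib.MP_d1d9c5_gt.BD
end

section
/-!
# CQQ: positions of the levels, order of the levels
-/
set_option autoImplicit false

open scoped Classical

namespace Pool.Agent.Lib.MP_d1d9c5_gt.BD

theorem specCQQ : SpecCQQ := by
  intro θ h1 h2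
  refine ⟨?_, ?_, ?_, ?_⟩
  · intro t j j' hj
    cases t with
    | false => simpa [qq] using hj
    | true =>
      have h3 : θ * (j : ℝ) + 1 ≤ θ * (j' : ℝ) := by
        have h4 : (j : ℝ) + 1 ≤ j' := by exact_mod_cast hj
        nlinarith
      have h5 : ⌊θ * (j : ℝ)⌋ + 1 ≤ ⌊θ * (j' : ℝ)⌋ := by
        rw [← Int.floor_add_one]
        exact Int.floor_le_floor h3
      have h6 : qq θ (true, j) = ⌊θ * (j : ℝ)⌋ := by simp [qq]
      have h7 : qq θ (true, j') = ⌊θ * (j' : ℝ)⌋ := by simp [qq]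
      rw [h6, h7]
      omega
  · rintro ⟨t, j⟩ ⟨t', j'⟩
    cases t <;> cases t' <;> simp [Le]
    all_goals omega
  · rintro ⟨t, j⟩ ⟨t', j'⟩ ⟨t'', j''⟩
    cases t <;> cases t' <;> cases t'' <;> simp [Le]
    all_goals omega
  · rintro ⟨t, j⟩ ⟨t', j'⟩
    cases t <;> cases t' <;> simp [Le]
    all_goals omega

end Pool.Agent.Lib.MP_d1d9c5_gt.BD
end

section
/-! # Module CRT: rough transitivity of the pieces. -/
set_option autoImplicit false

open scoped Classical

namespace Pool.Agent.Lib.MP_d1d9c5_gt.BD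

namespace CRTM

/-- Lamps. -/
abbrev Lp : Type := Bool × ℤ × ℤ

/-- The translation of the lamps. -/
def tl (n n₂ m : ℤ) : Lp ≃ Lp where
  toFun l := (l.1, l.2.1 + (if l.1 = true then n₂ else n), l.2.2 + m)
  invFun l := (l.1, l.2.1 - (if l.1 = true then n₂ else n), l.2.2 - m)
  left_inv l := by simp
  right_inv l := by simp

/-- The translation of the levels. -/
def lv (n n₂ : ℤ) (k : Bool × ℤ) : Bool × ℤ := (k.1, k.2 + (if k.1 = true then n₂ else n))

/-- The maps. -/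
def ff (n n₂ m u : ℤ) (E : Finset Lp) (x : Pt) : Pt :=
  (symmDiff (x.1.map (tl n n₂ m).toEmbedding) E, x.2.1 + n, x.2.2.1 + m, x.2.2.2 + u)

theorem Le_lv (n n₂ : ℤ) (k l : Bool × ℤ) : Le (lv n n₂ k) (lv n n₂ l) ↔ Le k l := by
  obtain ⟨s, i⟩ := k
  obtain ⟨t, j⟩ := l
  unfold Le lv
  cases s <;> cases t <;> simp

theorem Fr_tl (n n₂ m : ℤ) (k : Bool × ℤ) (l : Lp) :
    Fr (lv n n₂ k) (tl n n₂ m l) ↔ Fr k l := by
  unfold Fr
  exact Le_lv n n₂ (l.1, l.2.1) k

theorem tl_symm (n n₂ m : ℤ) (l : Lp) : (tl (-n) (-n₂) (-m)).symm l = tl n n₂ m l := by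
  obtain ⟨t, j, e⟩ := l
  cases t <;> simp [tl]

theorem lv_lv (n n₂ : ℤ) (k : Bool × ℤ) : lv (-n) (-n₂) (lv n n₂ k) = k := by
  obtain ⟨t, j⟩ := k
  cases t <;> simp [lv]

theorem mem_map_tl (n n₂ m : ℤ) (s : Finset Lp) (l : Lp) :
    tl n n₂ m l ∈ s.map (tl n n₂ m).toEmbedding ↔ l ∈ s := by
  rw [Finset.mem_map_equiv, Equiv.symm_apply_apply]

theorem mem_map_tl' (n n₂ m : ℤ) (s : Finset Lp) (l : Lp) :
    l ∈ s.map (tl (-n) (-n₂) (-m)).toEmbedding ↔ tl n n₂ m l ∈ s := by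
  rw [Finset.mem_map_equiv, tl_symm]

/-- `E'` is the inverse image of `E`. -/
def Inv (n n₂ m : ℤ) (E E' : Finset Lp) : Prop := ∀ l, l ∈ E' ↔ tl n n₂ m l ∈ E

theorem Inv.symm {n n₂ m : ℤ} {E E' : Finset Lp} (h : Inv n n₂ m E E') :
    Inv (-n) (-n₂) (-m) E' E := by
  intro l
  rw [h]
  have h1 : tl n n₂ m (tl (-n) (-n₂) (-m) l) = l := by
    rw [← tl_symm, Equiv.symm_apply_apply]
  rw [h1]

theorem ff_comp (n n₂ m u : ℤ) (E E' : Finset Lp) (h : Inv n n₂ m E E') (x : Pt) :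
    ff (-n) (-n₂) (-m) (-u) E' (ff n n₂ m u E x) = x := by
  obtain ⟨c, a, b, w⟩ := x
  unfold ff
  refine Prod.ext ?_ (Prod.ext ?_ (Prod.ext ?_ ?_))
  · show symmDiff ((symmDiff (c.map (tl n n₂ m).toEmbedding) E).map
      (tl (-n) (-n₂) (-m)).toEmbedding) E' = c
    ext l
    rw [Finset.mem_symmDiff, mem_map_tl', Finset.mem_symmDiff, mem_map_tl, h l]
    tauto
  · show a + n + -n = a
    ring
  · show b + m + -m = b
    ring
  · show w + u + -u = w
    ring

/-- The maps of the indices. -/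
noncomputable def pf (n n₂ m u : ℤ) (E : Finset Lp) (i : I0) : I0 :=
  ⟨(lv n n₂ i.1.1, i.1.2.1 + m, i.1.2.2.1 + u,
    (symmDiff (i.1.2.2.2.map (tl n n₂ m).toEmbedding) E).filter
      (fun l => ¬ Fr (lv n n₂ i.1.1) l)), by
    intro l hl
    exact (Finset.mem_filter.mp hl).2⟩

theorem pf_comp (n n₂ m u : ℤ) (E E' : Finset Lp) (h : Inv n n₂ m E E') (i : I0) :
    pf (-n) (-n₂) (-m) (-u) E' (pf n n₂ m u E i) = i := by
  obtain ⟨⟨k, b, w, e⟩, hi⟩ := i
  apply Subtype.ext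
  refine Prod.ext ?_ (Prod.ext ?_ (Prod.ext ?_ ?_))
  · exact lv_lv n n₂ k
  · show b + m + -m = b
    ring
  · show w + u + -u = w
    ring
  · show (symmDiff (((symmDiff (e.map (tl n n₂ m).toEmbedding) E).filter
      (fun l => ¬ Fr (lv n n₂ k) l)).map (tl (-n) (-n₂) (-m)).toEmbedding) E').filter
        (fun l => ¬ Fr (lv (-n) (-n₂) (lv n n₂ k)) l) = e
    ext l
    rw [Finset.mem_filter, lv_lv, Finset.mem_symmDiff, mem_map_tl', Finset.mem_filter,
      Finset.mem_symmDiff, mem_map_tl, h l, Fr_tl]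
    have h1 : l ∈ e → ¬ Fr k l := hi l
    tauto

/-- Position bound. -/
theorem qb (θ : ℝ) (n n₂ : ℤ) (hn : |θ * n₂ - n| ≤ 2) (k : Bool × ℤ) :
    (qq θ (lv n n₂ k) - (qq θ k + n)).natAbs ≤ 3 := by
  obtain ⟨t, j⟩ := k
  cases t
  · simp [qq, lv]
  · have h1 : qq θ (lv n n₂ (true, j)) = ⌊θ * ((j + n₂ : ℤ) : ℝ)⌋ := by simp [qq, lv]
    have h2 : qq θ (true, j) = ⌊θ * (j : ℝ)⌋ := by simp [qq]
    rw [h1, h2]
    have a1 := Int.floor_le (θ * ((j + n₂ : ℤ) : ℝ))
    have a2 := Int.lt_floor_add_one (θ * ((j + n₂ : ℤ) : ℝ))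
    have a3 := Int.floor_le (θ * (j : ℝ))
    have a4 := Int.lt_floor_add_one (θ * (j : ℝ))
    obtain ⟨a5, a6⟩ := abs_le.mp hn
    set p : ℤ := ⌊θ * ((j + n₂ : ℤ) : ℝ)⌋
    set q : ℤ := ⌊θ * (j : ℝ)⌋
    push_cast at a1 a2
    have b1 : (p : ℝ) - (q + n) < 4 := by linarith
    have b2 : (-4 : ℝ) < (p : ℝ) - (q + n) := by linarith
    have c1 : p - (q + n) < 4 := by exact_mod_cast b1
    have c2 : -4 < p - (q + n) := by exact_mod_cast b2
    omega

section

variable (hCDU : SpecCDU) (θ : ℝ) (h1 : 1 < θ) (h2 : θ < 2)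

include hCDU h1 h2

/-- Distance of two points with the same lamps. -/
theorem d1 (c : Finset Lp) (a b w a' b' w' : ℤ) :
    (A0 θ).dist (c, a, b, w) (c, a', b', w') ≤
      (a - a').natAbs + (b - b').natAbs + (w - w').natAbs := by
  have h := hCDU θ h1 h2 (c, a, b, w) (c, a', b', w')
  have h3 : symmDiff c c = ∅ := symmDiff_self c
  simp only at h
  rw [h3, Finset.sum_empty, add_zero] at h
  exact h

/-- Switching a lamp. -/
theorem d2 (c : Finset Lp) (l : Lp) (a b w : ℤ) :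
    (A0 θ).dist (c, a, b, w) (symmDiff c {l}, a, b, w) ≤
      2 * ((qq θ (l.1, l.2.1) - a).natAbs + (l.2.2 - b).natAbs) + 1 := by
  have h := hCDU θ h1 h2 (c, a, b, w) (symmDiff c {l}, a, b, w)
  have h3 : symmDiff c (symmDiff c {l}) = {l} := symmDiff_symmDiff_cancel_left c {l}
  simp only at h
  rw [h3, Finset.sum_singleton] at h
  simpa using h

theorem lipMo (n n₂ m u : ℤ) (E : Finset Lp) (hn : |θ * n₂ - n| ≤ 2) (x y : Pt)
    (h : Mo θ x y) : (A0 θ).dist (ff n n₂ m u E x) (ff n n₂ m u E y) ≤ 7 := by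
  cases h with
  | a c a b w =>
    refine le_trans (d1 hCDU θ h1 h2 _ _ _ _ _ _ _) ?_
    show (a + n - (a + 1 + n)).natAbs + (b + m - (b + m)).natAbs + (w + u - (w + u)).natAbs ≤ 7
    omega
  | b c a b w =>
    refine le_trans (d1 hCDU θ h1 h2 _ _ _ _ _ _ _) ?_
    show (a + n - (a + n)).natAbs + (b + m - (b + 1 + m)).natAbs + (w + u - (w + u)).natAbs ≤ 7
    omega
  | w c a b w =>
    refine le_trans (d1 hCDU θ h1 h2 _ _ _ _ _ _ _) ?_
    show (a + n - (a + n)).natAbs + (b + m - (b + m)).natAbs +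
      (w + u - (w + 1 + u)).natAbs ≤ 7
    omega
  | t c t j b w =>
    have e1 : ff n n₂ m u E (symmDiff c {(t, j, b)}, qq θ (t, j), b, w) =
        (symmDiff (symmDiff (c.map (tl n n₂ m).toEmbedding) E) {tl n n₂ m (t, j, b)},
          qq θ (t, j) + n, b + m, w + u) := by
      unfold ff
      refine Prod.ext ?_ rfl
      show symmDiff ((symmDiff c {(t, j, b)}).map (tl n n₂ m).toEmbedding) E =
        symmDiff (symmDiff (c.map (tl n n₂ m).toEmbedding) E) {tl n n₂ m (t, j, b)}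
      have e0 : (symmDiff c {(t, j, b)}).map (tl n n₂ m).toEmbedding =
          symmDiff (c.map (tl n n₂ m).toEmbedding) {tl n n₂ m (t, j, b)} := by
        ext l
        obtain ⟨l', rfl⟩ := (tl n n₂ m).surjective l
        rw [mem_map_tl, Finset.mem_symmDiff, Finset.mem_symmDiff, mem_map_tl,
          Finset.mem_singleton, Finset.mem_singleton, (tl n n₂ m).injective.eq_iff]
      rw [e0, symmDiff_right_comm]
    rw [e1]
    refine le_trans (d2 hCDU θ h1 h2 _ _ _ _ _) ?_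
    have e2 := qb θ n n₂ hn (t, j)
    show 2 * ((qq θ (lv n n₂ (t, j)) - (qq θ (t, j) + n)).natAbs +
      (b + m - (b + m)).natAbs) + 1 ≤ 7
    omega

theorem lip (n n₂ m u : ℤ) (E : Finset Lp) (hn : |θ * n₂ - n| ≤ 2) (x y : Pt)
    (h : (A0 θ).Adj x y) : (A0 θ).dist (ff n n₂ m u E x) (ff n n₂ m u E y) ≤ 7 := by
  unfold A0 at h
  rw [SimpleGraph.fromRel_adj] at h
  rcases h.2 with h3 | h3
  · exact lipMo hCDU θ h1 h2 n n₂ m u E hn x y h3
  · rw [SimpleGraph.dist_comm]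
    exact lipMo hCDU θ h1 h2 n n₂ m u E hn y x h3

theorem glu (n n₂ m u : ℤ) (E : Finset Lp) (hn : |θ * n₂ - n| ≤ 2) (i : I0) (x : Pt)
    (hx : x ∈ S0 θ i) :
    ∃ z ∈ S0 θ (pf n n₂ m u E i), (A0 θ).dist (ff n n₂ m u E x) z ≤ 7 := by
  obtain ⟨c, a, b, w⟩ := x
  obtain ⟨⟨k, b', w', e⟩, hi⟩ := i
  obtain ⟨ha, hb, hw, hc⟩ := hx
  replace ha : a = qq θ k := ha
  replace hb : b = b' := hb
  replace hw : w = w' := hw
  replace hc : c.filter (fun l => ¬ Fr k l) = e := hc
  refine ⟨(symmDiff (c.map (tl n n₂ m).toEmbedding) E, qq θ (lv n n₂ k), b + m, w + u),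
    ⟨rfl, ?_, ?_, ?_⟩, ?_⟩
  · show b + m = b' + m
    rw [hb]
  · show w + u = w' + u
    rw [hw]
  · show (symmDiff (c.map (tl n n₂ m).toEmbedding) E).filter (fun l => ¬ Fr (lv n n₂ k) l) =
      (symmDiff (e.map (tl n n₂ m).toEmbedding) E).filter (fun l => ¬ Fr (lv n n₂ k) l)
    ext l
    obtain ⟨l', rfl⟩ := (tl n n₂ m).surjective l
    rw [Finset.mem_filter, Finset.mem_filter, Finset.mem_symmDiff, Finset.mem_symmDiff,
      mem_map_tl, mem_map_tl, Fr_tl, ← hc, Finset.mem_filter]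
    tauto
  · refine le_trans (d1 hCDU θ h1 h2 _ _ _ _ _ _ _) ?_
    show (a + n - qq θ (lv n n₂ k)).natAbs + (b + m - (b + m)).natAbs +
      (w + u - (w + u)).natAbs ≤ 7
    have e2 := qb θ n n₂ hn k
    rw [ha]
    omega

end

end CRTM

open CRTM in
/-- CRT. -/
theorem specCRT (hCDU : SpecCDU) : SpecCRT := by
  intro θ h1 h2
  refine ⟨7, ?_⟩
  rintro ⟨c, a, b, w⟩ ⟨c', a', b', w'⟩
  have hθ : 0 < θ := by linarith
  set n : ℤ := a' - a with hn
  set n₂ : ℤ := ⌊(n : ℝ) / θ⌋ with hn₂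
  set m : ℤ := b' - b with hm
  set u : ℤ := w' - w with hu
  set E : Finset Lp := symmDiff (c.map (tl n n₂ m).toEmbedding) c' with hE
  set E' : Finset Lp := E.map (tl n n₂ m).symm.toEmbedding with hE'
  have hInv : Inv n n₂ m E E' := by
    intro l
    rw [hE', Finset.mem_map_equiv, Equiv.symm_symm]
  have hb1 : |θ * n₂ - n| ≤ 2 := by
    have a1 := Int.floor_le ((n : ℝ) / θ)
    have a2 := Int.lt_floor_add_one ((n : ℝ) / θ)
    rw [← hn₂] at a1 a2
    rw [le_div_iff₀ hθ] at a1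
    rw [div_lt_iff₀ hθ] at a2
    rw [abs_le]
    constructor <;> nlinarith
  have hb2 : |θ * ((-n₂ : ℤ) : ℝ) - ((-n : ℤ) : ℝ)| ≤ 2 := by
    push_cast
    have : θ * -(n₂ : ℝ) - -(n : ℝ) = -(θ * n₂ - n) := by ring
    rw [this, abs_neg]
    exact hb1
  have cmp2 : ∀ x, ff n n₂ m u E (ff (-n) (-n₂) (-m) (-u) E' x) = x := by
    intro x
    have h := ff_comp (-n) (-n₂) (-m) (-u) E' E hInv.symm x
    simpa only [neg_neg] using h
  have cmp3 : ∀ i, pf n n₂ m u E (pf (-n) (-n₂) (-m) (-u) E' i) = i := by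
    intro i
    have h := pf_comp (-n) (-n₂) (-m) (-u) E' E hInv.symm i
    simpa only [neg_neg] using h
  let π : I0 ≃ I0 := ⟨pf n n₂ m u E, pf (-n) (-n₂) (-m) (-u) E', pf_comp n n₂ m u E E' hInv, cmp3⟩
  refine ⟨ff n n₂ m u E, ff (-n) (-n₂) (-m) (-u) E', π, ⟨?_, ?_, ?_, ?_, ?_, ?_⟩, ?_⟩
  · exact ff_comp n n₂ m u E E' hInv
  · exact cmp2
  · exact lip hCDU θ h1 h2 n n₂ m u E hb1
  · exact lip hCDU θ h1 h2 (-n) (-n₂) (-m) (-u) E' hb2
  · intro i x hx
    exact glu hCDU θ h1 h2 n n₂ m u E hb1 i x hx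
  · intro i x hx
    exact glu hCDU θ h1 h2 (-n) (-n₂) (-m) (-u) E' hb2 i x hx
  · unfold ff
    refine Prod.ext ?_ (Prod.ext ?_ (Prod.ext ?_ ?_))
    · show symmDiff (c.map (tl n n₂ m).toEmbedding) E = c'
      rw [hE]
      exact symmDiff_symmDiff_cancel_left _ _
    · show a + n = a'
      omega
    · show b + m = b'
      omega
    · show w + u = w'
      omega

end Pool.Agent.Lib.MP_d1d9c5_gt.BD
end

section
set_option autoImplicit false

open scoped Classical

/-!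
# CTH: the pieces are thick
-/

namespace Pool.Agent.Lib.MP_d1d9c5_gt.BD

namespace CTHM

variable {θ : ℝ}

theorem adj_a (c : Finset (Bool × ℤ × ℤ)) (a b w : ℤ) :
    (A0 θ).Adj (c, a, b, w) (c, a + 1, b, w) := by
  rw [A0, SimpleGraph.fromRel_adj]
  refine ⟨?_, Or.inl (Mo.a c a b w)⟩
  intro h
  have := congrArg (fun x : Pt => x.2.1) h
  simp at this

theorem adj_b (c : Finset (Bool × ℤ × ℤ)) (a b w : ℤ) :
    (A0 θ).Adj (c, a, b, w) (c, a, b + 1, w) := by
  rw [A0, SimpleGraph.fromRel_adj]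
  refine ⟨?_, Or.inl (Mo.b c a b w)⟩
  intro h
  have := congrArg (fun x : Pt => x.2.2.1) h
  simp at this

theorem adj_w (c : Finset (Bool × ℤ × ℤ)) (a b w : ℤ) :
    (A0 θ).Adj (c, a, b, w) (c, a, b, w + 1) := by
  rw [A0, SimpleGraph.fromRel_adj]
  refine ⟨?_, Or.inl (Mo.w c a b w)⟩
  intro h
  have := congrArg (fun x : Pt => x.2.2.2) h
  simp at this

theorem adj_t (c : Finset (Bool × ℤ × ℤ)) (t : Bool) (j b w : ℤ) :
    (A0 θ).Adj (c, qq θ (t, j), b, w) (symmDiff c {(t, j, b)}, qq θ (t, j), b, w) := by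
  rw [A0, SimpleGraph.fromRel_adj]
  refine ⟨?_, Or.inl (Mo.t c t j b w)⟩
  intro h
  have h1 := congrArg (fun x : Pt => x.1) h
  simp only at h1
  have h2 : symmDiff c {(t, j, b)} = symmDiff c ∅ := by
    rw [← h1]
    exact (symmDiff_bot c).symm
  have h3 := symmDiff_right_injective c h2
  simp at h3

/-- A flat. -/
structure Fl (θ : ℝ) (Φ : ℤ × ℤ → Pt) : Prop where
  a1 : ∀ t w, (A0 θ).Adj (Φ (t, w)) (Φ (t + 1, w))
  a2 : ∀ t w, (A0 θ).Adj (Φ (t, w)) (Φ (t, w + 1))
  d1 : ∀ x y, |x.1 - y.1| ≤ (A0 θ).dist (Φ x) (Φ y) + 1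
  d2 : ∀ x y, |x.2 - y.2| ≤ (A0 θ).dist (Φ x) (Φ y) + 1

theorem lip1 {G : SimpleGraph Pt} (hG : G.Connected) (f : ℤ → Pt)
    (hf : ∀ t, G.Adj (f t) (f (t + 1))) (s t : ℤ) : G.dist (f s) (f t) ≤ (s - t).natAbs := by
  have h1 : ∀ (n : ℕ) (s : ℤ), G.dist (f s) (f (s + n)) ≤ n := by
    intro n
    induction n with
    | zero => intro s; simp
    | succ n ih =>
      intro s
      have h2 := hG.dist_triangle (u := f s) (v := f (s + n)) (w := f (s + n + 1))
      have h3 : G.dist (f (s + n)) (f (s + n + 1)) ≤ 1 :=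
        le_of_eq (SimpleGraph.dist_eq_one_iff_adj.2 (hf _))
      have h4 := ih s
      push_cast
      rw [← add_assoc]
      omega
  rcases le_total s t with h | h
  · have h2 := h1 (t - s).natAbs s
    have h3 : s + ((t - s).natAbs : ℤ) = t := by omega
    rw [h3] at h2
    omega
  · have h2 := h1 (s - t).natAbs t
    have h3 : t + ((s - t).natAbs : ℤ) = s := by omega
    rw [h3, SimpleGraph.dist_comm] at h2
    omega

theorem lip2 (hG : (A0 θ).Connected) {Φ : ℤ × ℤ → Pt} (hΦ : Fl θ Φ) (x y : ℤ × ℤ) :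
    (A0 θ).dist (Φ x) (Φ y) ≤ (x.1 - y.1).natAbs + (x.2 - y.2).natAbs := by
  obtain ⟨a, b⟩ := x
  obtain ⟨a', b'⟩ := y
  have h1 := lip1 hG (fun t => Φ (t, b)) (fun t => hΦ.a1 t b) a a'
  have h2 := lip1 hG (fun t => Φ (a', t)) (fun t => hΦ.a2 a' t) b b'
  have h3 := hG.dist_triangle (u := Φ (a, b)) (v := Φ (a', b)) (w := Φ (a', b'))
  simp only at h1 h2 ⊢
  omega

theorem ad_adj {Φ : ℤ × ℤ → Pt} (hΦ : Fl θ Φ) (x y : ℤ × ℤ) (h : Ad x y) :
    (A0 θ).Adj (Φ x) (Φ y) := by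
  obtain ⟨a, b⟩ := x
  obtain ⟨a', b'⟩ := y
  unfold Ad at h
  simp only at h
  have h1 : (a' = a + 1 ∧ b' = b) ∨ (a = a' + 1 ∧ b' = b) ∨ (a' = a ∧ b' = b + 1) ∨
      (a' = a ∧ b = b' + 1) := by
    rcases abs_cases (a - a') with ⟨h2, h3⟩ | ⟨h2, h3⟩ <;>
      rcases abs_cases (b - b') with ⟨h4, h5⟩ | ⟨h4, h5⟩ <;> omega
  rcases h1 with ⟨rfl, rfl⟩ | ⟨rfl, rfl⟩ | ⟨rfl, rfl⟩ | ⟨rfl, rfl⟩
  · exact hΦ.a1 _ _
  · exact (hΦ.a1 _ _).symm
  · exact hΦ.a2 _ _
  · exact (hΦ.a2 _ _).symm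

/-- The far points of a flat have one colour. -/
theorem flat (hG : (A0 θ).Connected) (D : ℕ → ℕ) (R : ℕ)
    (hR : ∀ (B : Set (ℤ × ℤ)) (χ : ℤ × ℤ → Prop),
      (∀ x ∈ B, ∀ y, Kc B x y → |x.1 - y.1| ≤ (D 2 + 1 : ℕ) ∧ |x.2 - y.2| ≤ (D 2 + 1 : ℕ)) →
      (∀ x y, Ad x y → ¬ (χ x ↔ χ y) → x ∈ B ∧ y ∈ B) →
      (∀ x, χ x ∨ ∃ b ∈ B, |x.1 - b.1| ≤ R ∧ |x.2 - b.2| ≤ R) ∨
        ∀ x, ¬ χ x ∨ ∃ b ∈ B, |x.1 - b.1| ≤ R ∧ |x.2 - b.2| ≤ R)
    (B : Set Pt) (hB : Dust (A0 θ) D B) (χ : Pt → Prop)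
    (hχ : ∀ x y, (A0 θ).Adj x y → ¬ (χ x ↔ χ y) → x ∈ B ∧ y ∈ B)
    (Φ : ℤ × ℤ → Pt) (hΦ : Fl θ Φ) (x y : ℤ × ℤ)
    (hx : ¬ ∃ b ∈ B, (A0 θ).dist (Φ x) b ≤ 2 * R) (hy : ¬ ∃ b ∈ B, (A0 θ).dist (Φ y) b ≤ 2 * R) :
    χ (Φ x) ↔ χ (Φ y) := by
  have h1 : ∀ x ∈ Φ ⁻¹' B, ∀ y, Kc (Φ ⁻¹' B) x y →
      |x.1 - y.1| ≤ (D 2 + 1 : ℕ) ∧ |x.2 - y.2| ≤ (D 2 + 1 : ℕ) := by
    intro x hx y hxy
    have h2' : Relation.ReflTransGen (fun a b => b ∈ B ∧ (A0 θ).dist a b ≤ 2) (Φ x) (Φ y) := by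
      refine Relation.ReflTransGen.lift (r := fun a b => b ∈ Φ ⁻¹' B ∧ Kg a b)
        (p := fun a b => b ∈ B ∧ (A0 θ).dist a b ≤ 2) Φ ?_ x y hxy
      rintro a b ⟨h3, h4⟩
      refine ⟨h3, ?_⟩
      have h5 := lip2 hG hΦ a b
      unfold Kg at h4
      simp only [Int.abs_eq_natAbs] at h4
      omega
    have h2 := hB 2 (Φ x) hx (Φ y) h2'
    have h3 := hΦ.d1 x y
    have h4 := hΦ.d2 x y
    push_cast
    omega
  have key : ∀ z : ℤ × ℤ, (¬ ∃ b ∈ B, (A0 θ).dist (Φ z) b ≤ 2 * R) →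
      ¬ ∃ b ∈ Φ ⁻¹' B, |z.1 - b.1| ≤ R ∧ |z.2 - b.2| ≤ R := by
    rintro z hz ⟨b, hb, h3, h4⟩
    apply hz
    refine ⟨Φ b, hb, ?_⟩
    have h5 := lip2 hG hΦ z b
    simp only [Int.abs_eq_natAbs] at h3 h4
    omega
  rcases hR (Φ ⁻¹' B) (fun z => χ (Φ z)) h1 (fun z z' h2 h3 =>
    hχ (Φ z) (Φ z') (ad_adj hΦ z z' h2) h3) with h | h
  · have h2 := (h x).resolve_right (key x hx)
    have h3 := (h y).resolve_right (key y hy)
    exact ⟨fun _ => h3, fun _ => h2⟩
  · have h2 := (h x).resolve_right (key x hx)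
    have h3 := (h y).resolve_right (key y hy)
    exact ⟨fun h4 => absurd h4 h2, fun h4 => absurd h4 h3⟩

/-- Every line has far points. -/
theorem line (hL : ∀ x y : Pt, |x.2.2.2 - y.2.2.2| ≤ (A0 θ).dist x y)
    (R : ℕ) (B : Set Pt) (D' : ℕ → ℕ)
    (hD' : ∀ B' : Set Pt, (∀ x ∈ B', ∃ b ∈ B, (A0 θ).dist x b ≤ R) → Dust (A0 θ) D' B')
    (c : Finset (Bool × ℤ × ℤ)) (a b : ℤ) :
    ∃ w : ℤ, ¬ ∃ b' ∈ B, (A0 θ).dist (c, a, b, w) b' ≤ R := by
  by_contra hcon
  push Not at hcon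
  have h1 := hD' {x | ∃ w : ℤ, x = (c, a, b, w)} (by
    rintro x ⟨w, rfl⟩
    exact hcon w)
  have h2 : ∀ n : ℕ, Relation.ReflTransGen
      (fun x y => y ∈ {x : Pt | ∃ w : ℤ, x = (c, a, b, w)} ∧ (A0 θ).dist x y ≤ 1)
      (c, a, b, 0) (c, a, b, (n : ℤ)) := by
    intro n
    induction n with
    | zero => exact Relation.ReflTransGen.refl
    | succ n ih =>
      refine ih.tail ⟨⟨((n + 1 : ℕ) : ℤ), rfl⟩, ?_⟩
      have h3 := SimpleGraph.dist_eq_one_iff_adj.2 (adj_w (θ := θ) c a b n)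
      push_cast
      exact le_of_eq h3
  have h3 := h1 1 (c, a, b, 0) ⟨0, rfl⟩ _ (h2 (D' 1 + 1))
  have h4 := hL (c, a, b, 0) (c, a, b, ((D' 1 + 1 : ℕ) : ℤ))
  simp only [Int.abs_eq_natAbs] at h4
  omega

theorem flat1 (hL : ∀ x y : Pt, |x.2.1 - y.2.1| ≤ (A0 θ).dist x y ∧
      |x.2.2.1 - y.2.2.1| ≤ (A0 θ).dist x y ∧ |x.2.2.2 - y.2.2.2| ≤ (A0 θ).dist x y)
    (c : Finset (Bool × ℤ × ℤ)) (b : ℤ) : Fl θ (fun x => (c, x.1, b, x.2)) where
  a1 t w := adj_a c t b w
  a2 t w := adj_w c t b w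
  d1 x y := by
    have := (hL (c, x.1, b, x.2) (c, y.1, b, y.2)).1
    simp only at this ⊢
    omega
  d2 x y := by
    have := (hL (c, x.1, b, x.2) (c, y.1, b, y.2)).2.2
    simp only at this ⊢
    omega

theorem flat2 (hL : ∀ x y : Pt, |x.2.1 - y.2.1| ≤ (A0 θ).dist x y ∧
      |x.2.2.1 - y.2.2.1| ≤ (A0 θ).dist x y ∧ |x.2.2.2 - y.2.2.2| ≤ (A0 θ).dist x y)
    (c : Finset (Bool × ℤ × ℤ)) (a : ℤ) : Fl θ (fun x => (c, a, x.1, x.2)) where
  a1 t w := adj_b c a t w
  a2 t w := adj_w c a t w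
  d1 x y := by
    have := (hL (c, a, x.1, x.2) (c, a, y.1, y.2)).2.1
    simp only at this ⊢
    omega
  d2 x y := by
    have := (hL (c, a, x.1, x.2) (c, a, y.1, y.2)).2.2
    simp only at this ⊢
    omega

theorem flat3 (hL : ∀ x y : Pt, |x.2.1 - y.2.1| ≤ (A0 θ).dist x y ∧
      |x.2.2.1 - y.2.2.1| ≤ (A0 θ).dist x y ∧ |x.2.2.2 - y.2.2.2| ≤ (A0 θ).dist x y)
    (c : Finset (Bool × ℤ × ℤ)) (t : Bool) (j b : ℤ) :
    Fl θ (fun x => if x.1 ≤ qq θ (t, j) then (c, x.1, b, x.2) else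
      (symmDiff c {(t, j, b)}, x.1 - 1, b, x.2)) where
  a1 s w := by
    simp only
    by_cases h1 : s ≤ qq θ (t, j)
    · rw [if_pos h1]
      by_cases h2 : s + 1 ≤ qq θ (t, j)
      · rw [if_pos h2]
        exact adj_a c s b w
      · rw [if_neg h2]
        have h3 : s = qq θ (t, j) := by omega
        rw [h3, add_sub_cancel_right]
        exact adj_t c t j b w
    · rw [if_neg h1, if_neg (by omega)]
      have h3 := adj_a (θ := θ) (symmDiff c {(t, j, b)}) (s - 1) b w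
      rw [sub_add_cancel] at h3
      rw [add_sub_cancel_right]
      exact h3
  a2 s w := by
    simp only
    split_ifs with h
    · exact adj_w _ _ _ _
    · exact adj_w _ _ _ _
  d1 x y := by
    have h1 := (hL (if x.1 ≤ qq θ (t, j) then (c, x.1, b, x.2) else
      (symmDiff c {(t, j, b)}, x.1 - 1, b, x.2)) (if y.1 ≤ qq θ (t, j) then (c, y.1, b, y.2) else
      (symmDiff c {(t, j, b)}, y.1 - 1, b, y.2))).1
    split_ifs at h1 ⊢ <;> simp only [Int.abs_eq_natAbs] at h1 ⊢ <;> omega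
  d2 x y := by
    have h1 := (hL (if x.1 ≤ qq θ (t, j) then (c, x.1, b, x.2) else
      (symmDiff c {(t, j, b)}, x.1 - 1, b, x.2)) (if y.1 ≤ qq θ (t, j) then (c, y.1, b, y.2) else
      (symmDiff c {(t, j, b)}, y.1 - 1, b, y.2))).2.2
    split_ifs at h1 ⊢ <;> simp only [Int.abs_eq_natAbs] at h1 ⊢ <;> omega

end CTHM

open CTHM in
theorem specCTH (hPLN : SpecPLN) (hCDL : SpecCDL) (hCCN : SpecCCN) (hDNB : SpecDNB) :
    SpecCTH := by
  intro θ hθ1 hθ2 D
  have hG := hCCN θ hθ1 hθ2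
  have hL : ∀ x y : Pt, |x.2.1 - y.2.1| ≤ (A0 θ).dist x y ∧
      |x.2.2.1 - y.2.2.1| ≤ (A0 θ).dist x y ∧ |x.2.2.2 - y.2.2.2| ≤ (A0 θ).dist x y := by
    intro x y
    obtain ⟨h1, h2, h3, _⟩ := hCDL θ hθ1 hθ2 x y
    exact ⟨h1, h2, h3⟩
  obtain ⟨R, hR⟩ := hPLN (D 2 + 1)
  obtain ⟨D', hD'⟩ := hDNB D (2 * R)
  refine ⟨2 * R, fun B hB χ hχ => ?_⟩
  have hline := line (fun x y => (hL x y).2.2) (2 * R) B D'
    (fun B' hB' => hD' Pt (A0 θ) hG B B' hB hB')
  have hflat := flat hG D R hR B hB χ hχ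
  set far : Pt → Prop := fun x => ¬ ∃ b ∈ B, (A0 θ).dist x b ≤ 2 * R with hfar
  set E : Finset (Bool × ℤ × ℤ) × ℤ × ℤ → Finset (Bool × ℤ × ℤ) × ℤ × ℤ → Prop := fun p q =>
    ∀ w w', far (p.1, p.2.1, p.2.2, w) → far (q.1, q.2.1, q.2.2, w') →
      (χ (p.1, p.2.1, p.2.2, w) ↔ χ (q.1, q.2.1, q.2.2, w')) with hE
  have Etr : ∀ p q r, E p q → E q r → E p r := by
    intro p q r h1 h2 w w' hw hw'
    obtain ⟨v, hv⟩ := hline q.1 q.2.1 q.2.2
    exact (h1 w v hw hv).trans (h2 v w' hv hw')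
  have E1 : ∀ c a a' b, E (c, a, b) (c, a', b) := by
    intro c a a' b w w' hw hw'
    exact hflat _ (flat1 hL c b) (a, w) (a', w') hw hw'
  have E2 : ∀ c a b b', E (c, a, b) (c, a, b') := by
    intro c a b b' w w' hw hw'
    exact hflat _ (flat2 hL c a) (b, w) (b', w') hw hw'
  have E3 : ∀ c t j b, E (c, qq θ (t, j), b) (symmDiff c {(t, j, b)}, qq θ (t, j), b) := by
    intro c t j b w w' hw hw'
    have h1 := hflat _ (flat3 hL c t j b) (qq θ (t, j), w) (qq θ (t, j) + 1, w')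
    simp only [le_refl, if_true, add_le_iff_nonpos_right, add_sub_cancel_right] at h1
    rw [if_neg (by norm_num)] at h1
    exact h1 hw hw'
  have E4 : ∀ (s c : Finset (Bool × ℤ × ℤ)), E (c, 0, 0) (symmDiff c s, 0, 0) := by
    intro s
    induction s using Finset.induction_on with
    | empty =>
      intro c
      have : symmDiff c ∅ = c := symmDiff_bot c
      rw [this]
      exact E1 c 0 0 0
    | insert l s hl ih =>
      intro c
      obtain ⟨t, j, b⟩ := l
      have h1 : symmDiff c (insert (t, j, b) s) = symmDiff (symmDiff c s) {(t, j, b)} := by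
        rw [symmDiff_assoc]
        congr 1
        ext x
        rw [Finset.mem_insert, Finset.mem_symmDiff, Finset.mem_singleton]
        constructor
        · rintro (rfl | h)
          · exact Or.inr ⟨rfl, hl⟩
          · exact Or.inl ⟨h, fun h2 => hl (h2 ▸ h)⟩
        · rintro (⟨h, _⟩ | ⟨h, _⟩)
          · exact Or.inr h
          · exact Or.inl h
      rw [h1]
      refine Etr _ _ _ (ih c) ?_
      refine Etr _ (symmDiff c s, qq θ (t, j), 0) _ (E1 _ _ _ _) ?_
      refine Etr _ (symmDiff c s, qq θ (t, j), b) _ (E2 _ _ _ _) ?_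
      refine Etr _ _ _ (E3 _ t j b) ?_
      exact Etr _ _ _ (E2 _ _ _ 0) (E1 _ _ _ _)
  have E5 : ∀ p q, E p q := by
    rintro ⟨c, a, b⟩ ⟨c', a', b'⟩
    refine Etr _ (c, 0, b) _ (E1 _ _ _ _) ?_
    refine Etr _ (c, 0, 0) _ (E2 _ _ _ _) ?_
    refine Etr _ (c', 0, 0) _ ?_ (Etr _ _ _ (E1 _ _ a' _) (E2 _ _ _ _))
    have h1 := E4 (symmDiff c c') c
    rwa [symmDiff_symmDiff_cancel_left] at h1
  have hall : ∀ x y : Pt, far x → far y → (χ x ↔ χ y) := by
    rintro ⟨c, a, b, w⟩ ⟨c', a', b', w'⟩ hx hy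
    exact E5 (c, a, b) (c', a', b') w w' hx hy
  by_cases hex : ∃ x, far x ∧ χ x
  · left
    obtain ⟨x₀, h1, h2⟩ := hex
    intro x
    by_cases h3 : ∃ b ∈ B, (A0 θ).dist x b ≤ 2 * R
    · exact Or.inr h3
    · exact Or.inl ((hall x x₀ h3 h1).2 h2)
  · right
    intro x
    by_cases h3 : ∃ b ∈ B, (A0 θ).dist x b ≤ 2 * R
    · exact Or.inr h3
    · exact Or.inl (fun h4 => hex ⟨x, h3, h4⟩)

end Pool.Agent.Lib.MP_d1d9c5_gt.BD
end

section
/-!
# DNB: neighbourhoods and subsets of dusts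
-/
set_option autoImplicit false

open scoped Classical

namespace Pool.Agent.Lib.MP_d1d9c5_gt.BD

theorem specDNB : SpecDNB := by
  intro D r
  refine ⟨fun ρ => D (ρ + 2 * r) + 2 * r, ?_⟩
  intro P A hA B B' hB hB' ρ x hx y hxy
  obtain ⟨b, hb, hxb⟩ := hB' x hx
  have key : ∃ c ∈ B, A.dist y c ≤ r ∧
      Relation.ReflTransGen (fun a b => b ∈ B ∧ A.dist a b ≤ ρ + 2 * r) b c := by
    induction hxy with
    | refl => exact ⟨b, hb, hxb, Relation.ReflTransGen.refl⟩
    | tail h0 h ih =>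
      rename_i y z
      obtain ⟨c, hc, hyc, hbc⟩ := ih
      obtain ⟨e, he, hze⟩ := hB' z h.1
      refine ⟨e, he, hze, hbc.tail ⟨he, ?_⟩⟩
      have h1 := hA.dist_triangle (u := c) (v := y) (w := e)
      have h2 := hA.dist_triangle (u := y) (v := z) (w := e)
      have h3 : A.dist c y = A.dist y c := A.dist_comm
      have h4 := h.2
      omega
  obtain ⟨c, hc, hyc, hbc⟩ := key
  have h1 := hB (ρ + 2 * r) b hb c hbc
  have h2 := hA.dist_triangle (u := x) (v := b) (w := y)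
  have h3 := hA.dist_triangle (u := b) (v := c) (w := y)
  have h4 : A.dist c y = A.dist y c := A.dist_comm
  show A.dist x y ≤ D (ρ + 2 * r) + 2 * r
  omega

end Pool.Agent.Lib.MP_d1d9c5_gt.BD
end

section
/-!
# DNU: an unbounded connected graph is not dust
-/
set_option autoImplicit false

open scoped Classical

namespace Pool.Agent.Lib.MP_d1d9c5_gt.BD

theorem specDNU : SpecDNU := by
  intro P A D hA hU hD
  obtain ⟨x, y, hxy⟩ := hU (D 1)
  have h1 : Relation.ReflTransGen A.Adj x y := (A.reachable_iff_reflTransGen x y).1 (hA x y)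
  have h2 : Relation.ReflTransGen (fun a b => b ∈ (Set.univ : Set P) ∧ A.dist a b ≤ 1) x y :=
    h1.lift id fun a b hab => ⟨Set.mem_univ b, (SimpleGraph.dist_eq_one_iff_adj.2 hab).le⟩
  have h3 := hD 1 x (Set.mem_univ x) y h2
  omega

end Pool.Agent.Lib.MP_d1d9c5_gt.BD
end

section
set_option autoImplicit false

open scoped Classical

/-! # The union of two dusts -/

namespace Pool.Agent.Lib.MP_d1d9c5_gt.BD

theorem specDUN : SpecDUN := by
  intro D D'
  refine ⟨fun ρ => D' (D ρ + 2 * ρ) + 2 * (D ρ + ρ), ?_⟩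
  intro P A hA B B' hB hB' ρ x hx y hxy
  have key : (x ∈ B ∧ Relation.ReflTransGen (fun a b => b ∈ B ∧ A.dist a b ≤ ρ) x y) ∨
      ∃ x' ∈ B', ∃ y' : P, A.dist x x' ≤ D ρ + ρ ∧
        Relation.ReflTransGen (fun a b => b ∈ B' ∧ A.dist a b ≤ D ρ + 2 * ρ) x' y' ∧
        (y = y' ∨ ∃ z ∈ B, A.dist y' z ≤ ρ ∧
          Relation.ReflTransGen (fun a b => b ∈ B ∧ A.dist a b ≤ ρ) z y) := by
    induction hxy with
    | refl =>
      rcases hx with hx | hx
      · exact Or.inl ⟨hx, Relation.ReflTransGen.refl⟩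
      · refine Or.inr ⟨x, hx, x, ?_, Relation.ReflTransGen.refl, Or.inl rfl⟩
        rw [SimpleGraph.dist_self]
        exact Nat.zero_le _
    | @tail b c hab hbc ih =>
      obtain ⟨hc, hbc⟩ := hbc
      rcases ih with ⟨hxB, hch⟩ | ⟨x', hx', y', hd, hch, hy⟩
      · by_cases hcB : c ∈ B
        · exact Or.inl ⟨hxB, hch.tail ⟨hcB, hbc⟩⟩
        · have hcB' : c ∈ B' := hc.resolve_left hcB
          refine Or.inr ⟨c, hcB', c, ?_, Relation.ReflTransGen.refl, Or.inl rfl⟩
          have h1 := hB ρ x hxB b hch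
          have h2 := hA.dist_triangle (u := x) (v := b) (w := c)
          omega
      · refine Or.inr ⟨x', hx', ?_⟩
        by_cases hcB : c ∈ B
        · refine ⟨y', hd, hch, Or.inr ?_⟩
          rcases hy with hy | ⟨z, hz, hyz, hzb⟩
          · subst hy
            exact ⟨c, hcB, hbc, Relation.ReflTransGen.refl⟩
          · exact ⟨z, hz, hyz, hzb.tail ⟨hcB, hbc⟩⟩
        · have hcB' : c ∈ B' := hc.resolve_left hcB
          refine ⟨c, hd, hch.tail ⟨hcB', ?_⟩, Or.inl rfl⟩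
          rcases hy with hy | ⟨z, hz, hyz, hzb⟩
          · subst hy
            omega
          · have h1 := hB ρ z hz b hzb
            have h2 := hA.dist_triangle (u := y') (v := z) (w := b)
            have h3 := hA.dist_triangle (u := y') (v := b) (w := c)
            omega
  change A.dist x y ≤ D' (D ρ + 2 * ρ) + 2 * (D ρ + ρ)
  rcases key with ⟨hxB, hch⟩ | ⟨x', hx', y', hd, hch, hy⟩
  · have := hB ρ x hxB y hch
    omega
  · have h1 := hB' _ x' hx' y' hch
    have h2 := hA.dist_triangle (u := x) (v := x') (w := y')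
    rcases hy with hy | ⟨z, hz, hyz, hzb⟩
    · subst hy
      omega
    · have h3 := hB ρ z hz y hzb
      have h4 := hA.dist_triangle (u := y') (v := z) (w := y)
      have h5 := hA.dist_triangle (u := x) (v := y') (w := y)
      omega

end Pool.Agent.Lib.MP_d1d9c5_gt.BD
end

section
set_option autoImplicit false

open scoped Classical

namespace Pool.Agent.Lib.MP_d1d9c5_gt.BD

universe w

namespace FINM

theorem countW : Countable (W I0 × Pt) := by
  have h1 : Countable I0 := by unfold I0; infer_instance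
  have h2 : Countable (W I0) := by unfold W; infer_instance
  infer_instance

theorem infW : Infinite (W I0 × Pt) := by
  refine Infinite.of_injective (fun n : ℤ => ((W.nil, (∅, n, 0, 0)) : W I0 × Pt)) ?_
  intro m n h
  have h1 := congrArg (fun p : W I0 × Pt => p.2.2.1) h
  exact h1

end FINM

/-- FIN: assembly. -/
theorem specFIN (hTCN : SpecTCN) (hTDG : SpecTDG) (hRTR : SpecRTR) (hHOM : SpecHOM.{w})
    (hCON : SpecCON.{w}) (hCCN : SpecCCN) (hCDS : SpecCDS) (hCLV : SpecCLV) (hCDG : SpecCDG)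
    (hCTH : SpecCTH) (hCRT : SpecCRT) : SpecFIN.{w} := by
  have h1 : (1 : ℝ) < √2 := by
    rw [show (1 : ℝ) = √1 by simp]
    exact Real.sqrt_lt_sqrt (by norm_num) (by norm_num)
  have h2 : √2 < (2 : ℝ) := by
    rw [Real.sqrt_lt' (by norm_num)]; norm_num
  obtain ⟨D, hD⟩ := hCDS (√2) h1 h2
  obtain ⟨g1, g2, g3, g4⟩ := hCDG (√2) h1 h2
  obtain ⟨C, hC⟩ := hCRT (√2) h1 h2
  have hconn := hCCN (√2) h1 h2
  have hpc : Pc (A0 (√2)) (S0 (√2)) D 8 :=
    ⟨hconn, g3, hCTH (√2) h1 h2, hD, g4, g1, g2⟩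
  refine ⟨W I0 × Pt, TG (A0 (√2)) (S0 (√2)), FINM.countW, FINM.infW,
    hTCN _ _ _ _ hconn g4, ⟨2 * 8, ?_⟩, ⟨2 * C + 1, by positivity, hRTR _ _ _ _ hconn g4 C hC⟩, ?_⟩
  · intro v
    have := hTDG _ _ (A0 (√2)) (S0 (√2)) 8 g1 g2 v
    exact_mod_cast this
  · rintro Y _ hY ⟨C', f, hC', hf⟩
    obtain ⟨C'', F, hF⟩ := hHOM _ _ Y hY C' f hC' hf
    exact hCON _ _ _ _ D 8 hpc (√2) lev0 pos0 irrational_sqrt_two (hCLV (√2) h1 h2) _ C'' F hF

end Pool.Agent.Lib.MP_d1d9c5_gt.BD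
end

section
set_option autoImplicit false

/-! HOM: a rough isometry to a homogeneous space gives a transitive quasi-action (helper74) -/

namespace Pool.Agent.Lib.MP_d1d9c5_gt.BD

universe w

theorem specHOM : SpecHOM.{w} := by
  intro X G Y _ hY C f hC hf
  obtain ⟨h1, h2⟩ := hf
  choose s hs using h2
  have up : ∀ x x', (G.dist x x' : ℝ) ≤ C * dist (f x) (f x') + C := fun x x' => (h1 x x').2
  have lo : ∀ x x', dist (f x) (f x') ≤ C * (G.dist x x' + C) := by
    intro x x'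
    have h := (h1 x x').1
    have h3 : C⁻¹ * dist (f x) (f x') ≤ (G.dist x x' : ℝ) + C := by
      unfold graphDist at h
      linarith
    have h4 := mul_le_mul_of_nonneg_left h3 hC.le
    rwa [← mul_assoc, mul_inv_cancel₀ hC.ne', one_mul] at h4
  have key : ∀ y y', (G.dist (s y) (s y') : ℝ) ≤ C * dist y y' + (2 * C ^ 2 + C) := by
    intro y y'
    have h3 := up (s y) (s y')
    have h4 : dist (f (s y)) (f (s y')) ≤ C + dist y y' + C := by
      have h5 := dist_triangle4 (f (s y)) y y' (f (s y'))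
      have h6 := (hs y).le
      have h7 := (hs y').le
      rw [dist_comm] at h7
      linarith
    have h5 := mul_le_mul_of_nonneg_left h4 hC.le
    nlinarith
  have key2 : ∀ x, (G.dist (s (f x)) x : ℝ) ≤ C ^ 2 + C := by
    intro x
    have h3 := up (s (f x)) x
    have h4 := mul_le_mul_of_nonneg_left (hs (f x)).le hC.le
    nlinarith
  set B : ℝ := C ^ 3 + 3 * C ^ 2 + C with hB
  have hC2 : 0 < C ^ 2 := by positivity
  have hC3 : 0 < C ^ 3 := by positivity
  have hBc : B ≤ (⌈B⌉₊ : ℝ) := Nat.le_ceil B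
  refine ⟨⌈B⌉₊, fun h x => s (h (f x)), ?_, ?_, ?_, ?_⟩
  · intro h x y
    have h3 := key (h (f x)) (h (f y))
    rw [h.dist_eq] at h3
    have h4 := mul_le_mul_of_nonneg_left (lo x y) hC.le
    have h5 : (G.dist (s (h (f x))) (s (h (f y))) : ℝ) ≤ (⌈B⌉₊ : ℝ) * G.dist x y + ⌈B⌉₊ := by
      have hd : (0 : ℝ) ≤ G.dist x y := Nat.cast_nonneg _
      have h6 : C ^ 2 * (G.dist x y : ℝ) ≤ (⌈B⌉₊ : ℝ) * G.dist x y :=
        mul_le_mul_of_nonneg_right (by linarith) hd
      nlinarith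
    exact_mod_cast h5
  · intro h k x
    have h3 := key (h (f (s (k (f x))))) ((h * k) (f x))
    have h4 : dist (h (f (s (k (f x))))) ((h * k) (f x)) ≤ C := by
      have : (h * k) (f x) = h (k (f x)) := rfl
      rw [this, h.dist_eq]
      exact (hs _).le
    have h5 := mul_le_mul_of_nonneg_left h4 hC.le
    have h6 : (G.dist (s (h (f (s (k (f x)))))) (s ((h * k) (f x))) : ℝ) ≤ ⌈B⌉₊ := by
      nlinarith
    exact_mod_cast h6
  · intro x
    have h3 := key2 x
    have h6 : (G.dist (s ((1 : Y ≃ᵢ Y) (f x))) x : ℝ) ≤ ⌈B⌉₊ := by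
      have : (1 : Y ≃ᵢ Y) (f x) = f x := rfl
      rw [this]
      linarith
    exact_mod_cast h6
  · intro x y
    obtain ⟨e, he⟩ := hY (f x) (f y)
    refine ⟨e, ?_⟩
    have h3 := key2 y
    have h6 : (G.dist (s (e (f x))) y : ℝ) ≤ ⌈B⌉₊ := by
      rw [he]
      linarith
    exact_mod_cast h6

end Pool.Agent.Lib.MP_d1d9c5_gt.BD
end

section
/-!
# MP_d1d9c5_gt, module LVM: movement of the gluing sets
-/
set_option autoImplicit false

open scoped Classical

namespace Pool.Agent.Lib.MP_d1d9c5_gt.BD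

universe w

namespace LVMM

variable {P I : Type}

theorem le_trans' {k l m : Bool × ℤ} (h : Le k l) (h' : Le l m) : Le k m := by
  unfold Le at *
  rcases h with ⟨h1, h2⟩ | ⟨h1, h2⟩
  · rcases h' with ⟨h3, h4⟩ | ⟨h3, h4⟩
    · exact Or.inl ⟨h1, h4⟩
    · exact Or.inl ⟨h1, by rw [← h3, h2]⟩
  · rcases h' with ⟨h3, h4⟩ | ⟨h3, h4⟩
    · exact Or.inl ⟨by rw [h1, h3], h4⟩
    · exact Or.inr ⟨h1.trans h3, h2.trans h4⟩

theorem le_total' (k l : Bool × ℤ) : Le k l ∨ Le l k := by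
  obtain ⟨a, b⟩ := k
  obtain ⟨c, d⟩ := l
  unfold Le
  rcases le_total b d with h | h <;> cases a <;> cases c <;> simp [h]

theorem exists_min (lev : I → Bool × ℤ) (l : List I) (hl : l ≠ []) :
    ∃ j ∈ l, ∀ j' ∈ l, Le (lev j) (lev j') := by
  induction l with
  | nil => exact absurd rfl hl
  | cons a l ih =>
    by_cases h : l = []
    · subst h
      refine ⟨a, by simp, ?_⟩
      intro j' hj'
      have : j' = a := by simpa using hj'
      rw [this]
      exact Or.inr ⟨rfl, le_rfl⟩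
    · obtain ⟨j, hj, hm⟩ := ih h
      rcases le_total' (lev a) (lev j) with h1 | h1
      · refine ⟨a, by simp, ?_⟩
        intro j' hj'
        rcases List.mem_cons.1 hj' with h2 | h2
        · rw [h2]
          exact Or.inr ⟨rfl, le_rfl⟩
        · exact le_trans' h1 (hm j' h2)
      · refine ⟨j, List.mem_cons_of_mem _ hj, ?_⟩
        intro j' hj'
        rcases List.mem_cons.1 hj' with h2 | h2
        · rw [h2]
          exact h1
        · exact hm j' h2

/-- the word of one letter -/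
def sg (i : I) : W I := ⟨[i], List.isChain_singleton i⟩

theorem exists_bound {A : SimpleGraph P} {B : Set P} {S : I → Set P} (l : List I)
    (h : ∀ j ∈ l, CI A B (S j)) :
    ∃ r : ℕ, ∀ x ∈ B, ∀ j ∈ l, ∃ y ∈ S j, A.dist x y ≤ r := by
  induction l with
  | nil => exact ⟨0, by simp⟩
  | cons a l ih =>
    obtain ⟨r, hr⟩ := ih fun j hj => h j (List.mem_cons_of_mem _ hj)
    obtain ⟨r', hr'⟩ := h a (by simp)
    refine ⟨r + r', fun x hx j hj => ?_⟩
    rcases List.mem_cons.1 hj with h2 | h2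
    · subst h2
      obtain ⟨y, hy, h3⟩ := hr' x hx
      exact ⟨y, hy, h3.trans (Nat.le_add_left _ _)⟩
    · obtain ⟨y, hy, h3⟩ := hr x hx j h2
      exact ⟨y, hy, h3.trans (Nat.le_add_right _ _)⟩

end LVMM

open LVMM in
/-- LVM -/
theorem specLVM (hTPR : SpecTPR) (hTCR : SpecTCR) (hTUP : SpecTUP) (hTCN : SpecTCN) :
    SpecLVM.{w} := by
  intro P I A S D d hP θ lev pos hL Γ _ C F hF R π hπ
  obtain ⟨tp1, tp2, -, tp4⟩ := hTPR P I A S hP.conn hP.ne
  have hc := hTCN P I A S hP.conn hP.ne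
  have hA := hP.conn
  have tcr := hTCR P I A S hP.conn hP.ne
  have tup := hTUP P I A S hP.conn hP.ne
  refine ⟨3 * R + 2 * C, fun h hh i => ?_⟩
  have hinv : π h⁻¹ W.nil = W.nil := by
    have h1 := hπ.mul h⁻¹ h W.nil
    rw [inv_mul_cancel, hπ.one, hh] at h1
    exact h1.symm
  have hinv' : π h⁻¹ (π h (sg i)) = sg i := by
    have h1 := hπ.mul h⁻¹ h (sg i)
    rw [inv_mul_cancel, hπ.one] at h1
    exact h1.symm
  have hne : (π h (sg i)).1 ≠ [] := by
    intro h0
    have h1 : π h (sg i) = W.nil := Subtype.ext h0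
    rw [h1, hinv] at hinv'
    have h2 := congrArg Subtype.val hinv'
    simp [W.nil, sg] at h2
  obtain ⟨j, hj, hmin⟩ := exists_min lev _ hne
  -- part 1
  have part1 : ∀ x ∈ S i, ∃ s ∈ S j, A.dist (br (F h) x) s ≤ 3 * R + 2 * C := by
    intro x hx
    obtain ⟨y, hy⟩ := hπ.mp h W.nil x
    rw [hh] at hy
    obtain ⟨y', hy'⟩ := hπ.mp h (sg i) x
    obtain ⟨a, b, hab⟩ := List.append_of_mem hj
    have hch : (j :: b).IsChain (· ≠ ·) := by
      have h1 := (π h (sg i)).2
      rw [hab] at h1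
      exact (List.isChain_append.1 h1).2.1
    have hchb : b.IsChain (· ≠ ·) := hch.tail
    have h1 := tcr ⟨j :: b, hch⟩ ⟨b, hchb⟩ j rfl (π h (sg i), y') (W.nil, y)
      ⟨a, hab.symm⟩ (by
        intro h2
        have := List.eq_nil_of_suffix_nil h2
        exact absurd this (by simp))
    obtain ⟨s, hs, h2⟩ := h1
    refine ⟨s, hs, ?_⟩
    have e1 : (TG A S).dist (W.nil, x) (sg i, x) ≤ 1 := by
      rw [(TG A S).dist_comm]
      exact tp4 (sg i) W.nil i x rfl hx
    have e2 := hF.lip h (W.nil, x) (sg i, x)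
    have e3 := Nat.mul_le_mul_left C e1
    have e4 := hc.dist_triangle (u := (π h (sg i), y')) (v := F h (sg i, x))
      (w := F h (W.nil, x))
    have e5 := hc.dist_triangle (u := (π h (sg i), y')) (v := F h (W.nil, x)) (w := (W.nil, y))
    rw [(TG A S).dist_comm (u := (π h (sg i), y')) (v := F h (sg i, x)),
      (TG A S).dist_comm (u := F h (sg i, x)) (v := F h (W.nil, x))] at e4
    have e6 := tp1 (⟨b, hchb⟩, s) ((W.nil, y) : W I × P)
    have e7 := tp1 (F h (W.nil, x)) ((W.nil, y) : W I × P)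
    have e8 := hA.dist_triangle (u := br (F h) x) (v := y) (w := s)
    rw [A.dist_comm (u := y) (v := s)] at e8
    have e9 : A.dist (br (F h) x) y ≤ R := e7.trans hy
    have e10 : A.dist s y ≤ (TG A S).dist ((⟨b, hchb⟩ : W I), s) (W.nil, y) := e6
    omega
  refine ⟨j, ⟨3 * R + 2 * C, fun z hz => ?_⟩, ?_, ?_⟩
  · obtain ⟨x, hx, rfl⟩ := hz
    exact part1 x hx
  · -- part 2
    obtain ⟨r, hr⟩ := exists_bound (A := A) (B := S j) (S := S) (π h (sg i)).1
      (fun j' hj' => (hL.ci j j').2 (hmin j' hj'))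
    refine ⟨2 * C + (C * R + C) + (C * (2 * R + (C * ((π h (sg i)).1.length * (2 * r + 1)) + C))
      + C), fun x' hx' => ?_⟩
    have e1 := tup r x' (π h (sg i)) (fun j' hj' => hr x' hx' j' hj')
    have e2 := hF.lip h⁻¹ (W.nil, x') (π h (sg i), x')
    have e3 := Nat.mul_le_mul_left C e1
    obtain ⟨z, hz⟩ := hπ.mp h⁻¹ W.nil x'
    rw [hinv] at hz
    obtain ⟨z', hz'⟩ := hπ.mp h⁻¹ (π h (sg i)) x'
    rw [hinv'] at hz'
    obtain ⟨s, hs, h2⟩ := tcr (sg i) W.nil i rfl (sg i, z') (W.nil, z) (List.suffix_refl _) (by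
        intro h2
        have := List.eq_nil_of_suffix_nil h2
        exact absurd this (by simp [sg]))
    have e4 := hc.dist_triangle (u := (sg i, z')) (v := F h⁻¹ (π h (sg i), x'))
      (w := F h⁻¹ (W.nil, x'))
    have e5 := hc.dist_triangle (u := (sg i, z')) (v := F h⁻¹ (W.nil, x')) (w := (W.nil, z))
    rw [(TG A S).dist_comm (u := (sg i, z')) (v := F h⁻¹ (π h (sg i), x')),
      (TG A S).dist_comm (u := F h⁻¹ (π h (sg i), x')) (v := F h⁻¹ (W.nil, x'))] at e4
    have e6 : (TG A S).dist ((W.nil, z) : W I × P) (W.nil, s) ≤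
        2 * R + (C * ((π h (sg i)).1.length * (2 * r + 1)) + C) := by
      rw [(TG A S).dist_comm]
      omega
    have e7 := hF.lip h (W.nil, z) (W.nil, s)
    have e8 := Nat.mul_le_mul_left C e6
    have e9 := hF.lip h (F h⁻¹ (W.nil, x')) (W.nil, z)
    have e10 := Nat.mul_le_mul_left C hz
    have e11 := hF.mul h h⁻¹ (W.nil, x')
    rw [mul_inv_cancel] at e11
    have e12 := hF.one (W.nil, x')
    have t1 := hc.dist_triangle (u := (W.nil, x')) (v := F 1 (W.nil, x'))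
      (w := F h (F h⁻¹ (W.nil, x')))
    rw [(TG A S).dist_comm (u := (W.nil, x')) (v := F 1 (W.nil, x')),
      (TG A S).dist_comm (u := F 1 (W.nil, x')) (v := F h (F h⁻¹ (W.nil, x')))] at t1
    have t2 := hc.dist_triangle (u := (W.nil, x')) (v := F h (F h⁻¹ (W.nil, x')))
      (w := F h (W.nil, z))
    have t3 := hc.dist_triangle (u := (W.nil, x')) (v := F h (W.nil, z)) (w := F h (W.nil, s))
    have t4 : A.dist x' (br (F h) s) ≤ (TG A S).dist (W.nil, x') (F h (W.nil, s)) :=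
      tp1 (W.nil, x') (F h (W.nil, s))
    refine ⟨br (F h) s, ⟨s, hs, rfl⟩, ?_⟩
    omega
  · intro x hx
    obtain ⟨s, hs, h1⟩ := part1 x hx
    have h2 := hL.lip (br (F h) x) s
    rw [hL.at_lev j s hs] at h2
    refine h2.trans ?_
    exact_mod_cast h1

end Pool.Agent.Lib.MP_d1d9c5_gt.BD
end

section
set_option autoImplicit false

/-! ORD: the automorphisms of the ordered set `ℤ + ℤ` (helper74) -/

namespace Pool.Agent.Lib.MP_d1d9c5_gt.BD

namespace ORDM

/-- covering relation -/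
def Cv (k l : Bool × ℤ) : Prop :=
  Le k l ∧ ¬ Le l k ∧ ∀ m, Le k m → Le m l → (Le m k ∨ Le l m)

theorem cv_succ (k : Bool × ℤ) : Cv k (k.1, k.2 + 1) := by
  refine ⟨?_, ?_, ?_⟩
  · right; exact ⟨rfl, by simp⟩
  · rintro (⟨h1, h2⟩ | ⟨_, h2⟩)
    · simp only at h1 h2; rw [h1] at h2; exact Bool.noConfusion h2
    · simp only at h2; omega
  · intro m h1 h2
    unfold Le at *
    simp only at *
    rcases h1 with ⟨a1, a2⟩ | ⟨a1, a2⟩
    · rcases h2 with ⟨b1, b2⟩ | ⟨b1, b2⟩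
      · rw [a2] at b1; exact Bool.noConfusion b1
      · rw [a1, a2] at b1; exact Bool.noConfusion b1
    · rcases h2 with ⟨b1, b2⟩ | ⟨b1, b2⟩
      · rw [a1, b1] at b2; exact Bool.noConfusion b2
      · by_cases h : m.2 ≤ k.2
        · left; right; exact ⟨a1.symm, h⟩
        · right; right; exact ⟨a1, by omega⟩

theorem cv_eq (k l : Bool × ℤ) (h : Cv k l) : l = (k.1, k.2 + 1) := by
  obtain ⟨h1, h2, h3⟩ := h
  obtain ⟨t, a⟩ := k
  obtain ⟨t', a'⟩ := l
  rcases h1 with ⟨a1, a2⟩ | ⟨a1, a2⟩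
  · simp only at a1 a2
    subst a1 a2
    exfalso
    rcases h3 (false, a + 1) (Or.inr ⟨rfl, by simp⟩) (Or.inl ⟨rfl, rfl⟩) with h | h
    · rcases h with ⟨_, h⟩ | ⟨_, h⟩
      · exact Bool.noConfusion h
      · simp only at h; omega
    · rcases h with ⟨h, _⟩ | ⟨h, _⟩
      · exact Bool.noConfusion h
      · exact Bool.noConfusion h
  · simp only at a1 a2
    subst a1
    have h4 : a < a' := by
      by_contra hc
      exact h2 (Or.inr ⟨rfl, by simp only; omega⟩)
    rcases h3 (t, a + 1) (Or.inr ⟨rfl, by simp⟩) (Or.inr ⟨rfl, by simp only; omega⟩) with h | h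
    · rcases h with ⟨h, h'⟩ | ⟨_, h⟩
      · simp only at h h'; rw [h] at h'; exact Bool.noConfusion h'
      · simp only at h; omega
    · rcases h with ⟨h, h'⟩ | ⟨_, h⟩
      · simp only at h h'; rw [h] at h'; exact Bool.noConfusion h'
      · simp only at h
        have : a' = a + 1 := by omega
        rw [this]

end ORDM

open ORDM in
theorem specORD : SpecORD := by
  intro σ τ hτσ hστ hle
  have hcv : ∀ k l, Cv k l → Cv (σ k) (σ l) := by
    rintro k l ⟨h1, h2, h3⟩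
    refine ⟨(hle k l).1 h1, fun h => h2 ((hle l k).2 h), fun m h4 h5 => ?_⟩
    rw [← hστ m] at h4 h5 ⊢
    rcases h3 (τ m) ((hle _ _).2 h4) ((hle _ _).2 h5) with h | h
    · left; exact (hle _ _).1 h
    · right; exact (hle _ _).1 h
  have hs : ∀ (t : Bool) (a : ℤ), σ (t, a + 1) = ((σ (t, a)).1, (σ (t, a)).2 + 1) := fun t a =>
    cv_eq _ _ (hcv _ _ (cv_succ (t, a)))
  have hall : ∀ (t : Bool) (a : ℤ), σ (t, a) = ((σ (t, 0)).1, (σ (t, 0)).2 + a) := by
    intro t a
    induction a using Int.induction_on with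
    | zero => simp
    | succ n ih => rw [hs, ih]; simp only [add_assoc]
    | pred n ih =>
      have h := hs t (-(n : ℤ) - 1)
      rw [sub_add_cancel, ih] at h
      have h1 := congrArg Prod.fst h
      have h2 := congrArg Prod.snd h
      simp only at h1 h2
      refine Prod.ext h1.symm ?_
      simp only
      omega
  have hfn : (σ (false, 0)).1 = false := by
    by_contra hc
    have hc' : (σ (false, 0)).1 = true := by
      cases h : (σ (false, 0)).1
      · exact absurd h hc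
      · rfl
    have h1 : ∀ a : ℤ, Le (σ (false, a)) (σ (true, 0)) := fun a =>
      (hle _ _).1 (Or.inl ⟨rfl, rfl⟩)
    have h2 := h1 ((σ (true, 0)).2 - (σ (false, 0)).2 + 1)
    rw [hall false] at h2
    rcases h2 with ⟨h, _⟩ | ⟨_, h⟩
    · simp only at h; rw [hc'] at h; exact Bool.noConfusion h
    · simp only at h; omega
  have htn : (σ (true, 0)).1 = true := by
    by_contra hc
    have hc' : (σ (true, 0)).1 = false := by
      cases h : (σ (true, 0)).1
      · rfl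
      · exact absurd h hc
    have h1 : ∀ a : ℤ, Le (σ (false, a)) (σ (true, 0)) := fun a =>
      (hle _ _).1 (Or.inl ⟨rfl, rfl⟩)
    have h2 := h1 ((σ (true, 0)).2 - (σ (false, 0)).2 + 1)
    rw [hall false] at h2
    rcases h2 with ⟨_, h⟩ | ⟨_, h⟩
    · rw [hc'] at h; exact Bool.noConfusion h
    · simp only at h; omega
  refine ⟨(σ (false, 0)).2, (σ (true, 0)).2, fun a => ⟨?_, ?_⟩⟩
  · rw [hall false a, hfn, add_comm]
  · rw [hall true a, htn, add_comm]

end Pool.Agent.Lib.MP_d1d9c5_gt.BD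
end

section
set_option autoImplicit false

open scoped Classical

namespace Pool.Agent.Lib.MP_d1d9c5_gt.BD

universe w

/-- PER -/
theorem specPER (hRIG : SpecRIG) (hUNQ : SpecUNQ) (hQAQ : SpecQAQ.{w}) (hTCN : SpecTCN) :
    SpecPER.{w} := by
  intro P I A S D d hP Γ _ C F hF
  have hcon := hTCN P I A S hP.conn hP.ne
  obtain ⟨C', hC'⟩ := hQAQ _ (TG A S) Γ C F hcon hF
  obtain ⟨R, hR⟩ := hRIG P I A S D d hP C'
  choose π hπ using fun (h : Γ) (v : W I) => hR (F h) (F h⁻¹) (hC' h) v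
  have mono : ∀ (f : W I × P → W I × P) (v v' : W I) (r r' : ℕ), r ≤ r' → Mp A S r f v v' →
      Mp A S r' f v v' := by
    intro f v v' r r' hr h x
    obtain ⟨y, hy⟩ := h x
    exact ⟨y, hy.trans hr⟩
  refine ⟨R, π, ⟨fun h v => hπ h v, fun v => ?_, fun h k v => ?_⟩⟩
  · refine hUNQ P I A S D d hP C' (R + C) (F 1) (F 1⁻¹) (hC' 1) v (π 1 v) v
      (mono _ _ _ _ _ (Nat.le_add_right _ _) (hπ 1 v)) ?_
    intro x
    exact ⟨x, (hF.one (v, x)).trans (Nat.le_add_left _ _)⟩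
  · refine hUNQ P I A S D d hP C' (R + (C + (C * R + C) + R)) (F (h * k)) (F (h * k)⁻¹)
      (hC' (h * k)) v (π (h * k) v) (π h (π k v))
      (mono _ _ _ _ _ (Nat.le_add_right _ _) (hπ (h * k) v)) ?_
    intro x
    obtain ⟨y, hy⟩ := hπ k v x
    obtain ⟨z, hz⟩ := hπ h (π k v) y
    refine ⟨z, ?_⟩
    have h1 := hF.mul h k (v, x)
    have h2 := hF.lip h (F k (v, x)) (π k v, y)
    have h3 : C * (TG A S).dist (F k (v, x)) (π k v, y) ≤ C * R := Nat.mul_le_mul_left _ hy
    have h4 := hcon.dist_triangle (u := F (h * k) (v, x)) (v := F h (F k (v, x)))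
      (w := F h (π k v, y))
    have h5 := hcon.dist_triangle (u := F (h * k) (v, x)) (v := F h (π k v, y))
      (w := (π h (π k v), z))
    rw [(TG A S).dist_comm (u := F (h * k) (v, x)) (v := F h (F k (v, x)))] at h4
    omega

end Pool.Agent.Lib.MP_d1d9c5_gt.BD
end

section
/-! # Module PLA: removal of one cluster. -/
set_option autoImplicit false

open scoped Classical

namespace Pool.Agent.Lib.MP_d1d9c5_gt.BD

namespace PLAM

theorem add_self2 (x : ZMod 2) : x + x = 0 := CharTwo.add_self_eq_zero x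

theorem ne_iff2 (x y : ZMod 2) : x ≠ y ↔ x + y ≠ 0 := by
  rw [not_iff_not]
  exact (CharTwo.add_eq_zero).symm

theorem kgs {x y : ℤ × ℤ} (h : Kg x y) : Kg y x := by
  unfold Kg at *
  rw [abs_sub_comm y.1, abs_sub_comm y.2]
  exact h

theorem adk {x y : ℤ × ℤ} (h : Ad x y) : Kg x y := by
  unfold Ad at h
  unfold Kg
  have h1 := abs_nonneg (x.1 - y.1)
  have h2 := abs_nonneg (x.2 - y.2)
  constructor <;> linarith

section

variable (B : Set (ℤ × ℤ)) (b₀ : ℤ × ℤ) (χ : ℤ × ℤ → ZMod 2)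

/-- Indicator of the cluster. -/
noncomputable def kk (x : ℤ × ℤ) : ZMod 2 := if Kc B b₀ x then 1 else 0

theorem kk_eq (hb : b₀ ∈ B) {x y : ℤ × ℤ} (hx : x ∈ B) (hy : y ∈ B) (h : Kg x y) :
    kk B b₀ x = kk B b₀ y := by
  have key : ∀ x y : ℤ × ℤ, y ∈ B → Kg x y → Kc B b₀ x → Kc B b₀ y :=
    fun x y hy h hx => Relation.ReflTransGen.tail hx ⟨hy, h⟩
  have h1 : Kc B b₀ x ↔ Kc B b₀ y := ⟨key x y hy h, key y x hx (kgs h)⟩
  unfold kk
  simp only [h1]

/-- The weight of an edge. -/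
noncomputable def gg (x y : ℤ × ℤ) : ZMod 2 := (χ x + χ y) * kk B b₀ x

theorem gg_symm (hb : b₀ ∈ B) (hχ : ∀ x y, Ad x y → χ x ≠ χ y → x ∈ B ∧ y ∈ B) {x y : ℤ × ℤ}
    (h : Ad x y) : gg B b₀ χ x y = gg B b₀ χ y x := by
  unfold gg
  by_cases hxy : χ x = χ y
  · rw [hxy, add_self2, zero_mul, zero_mul]
  · obtain ⟨hx, hy⟩ := hχ x y h hxy
    rw [kk_eq B b₀ hb hx hy (adk h), add_comm (χ x)]

/-- The sum over the edges of a unit square. -/
theorem square (hb : b₀ ∈ B) (hχ : ∀ x y, Ad x y → χ x ≠ χ y → x ∈ B ∧ y ∈ B)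
    (p q r s : ℤ × ℤ) (hpq : Ad p q) (hqr : Ad q r) (hsr : Ad s r) (hps : Ad p s)
    (hpr : Kg p r) (hqs : Kg q s) :
    gg B b₀ χ p q + gg B b₀ χ q r + gg B b₀ χ s r + gg B b₀ χ p s = 0 := by
  set κ : ZMod 2 := if (p ∈ B ∧ kk B b₀ p = 1) ∨ (q ∈ B ∧ kk B b₀ q = 1) ∨
    (r ∈ B ∧ kk B b₀ r = 1) ∨ (s ∈ B ∧ kk B b₀ s = 1) then 1 else 0 with hκ
  have kg_refl : ∀ x : ℤ × ℤ, Kg x x := fun x => by unfold Kg; simp
  have kk01 : ∀ x, kk B b₀ x = 1 ∨ kk B b₀ x = 0 := by
    intro x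
    unfold kk
    split_ifs
    · exact Or.inl rfl
    · exact Or.inr rfl
  have main : ∀ x, x ∈ B → Kg p x → Kg q x → Kg r x → Kg s x →
      (x = p ∨ x = q ∨ x = r ∨ x = s) → kk B b₀ x = κ := by
    intro x hx h1 h2 h3 h4 h5
    rcases kk01 x with h | h
    · rw [h, hκ, if_pos]
      rcases h5 with rfl | rfl | rfl | rfl
      · exact Or.inl ⟨hx, h⟩
      · exact Or.inr (Or.inl ⟨hx, h⟩)
      · exact Or.inr (Or.inr (Or.inl ⟨hx, h⟩))
      · exact Or.inr (Or.inr (Or.inr ⟨hx, h⟩))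
    · rw [h, hκ, if_neg]
      rintro (⟨h6, h7⟩ | ⟨h6, h7⟩ | ⟨h6, h7⟩ | ⟨h6, h7⟩)
      · rw [kk_eq B b₀ hb h6 hx h1, h] at h7
        exact zero_ne_one h7
      · rw [kk_eq B b₀ hb h6 hx h2, h] at h7
        exact zero_ne_one h7
      · rw [kk_eq B b₀ hb h6 hx h3, h] at h7
        exact zero_ne_one h7
      · rw [kk_eq B b₀ hb h6 hx h4, h] at h7
        exact zero_ne_one h7
  have kp : p ∈ B → kk B b₀ p = κ := fun hp =>
    main p hp (kg_refl p) (kgs (adk hpq)) (kgs hpr) (kgs (adk hps)) (Or.inl rfl)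
  have kq : q ∈ B → kk B b₀ q = κ := fun hp =>
    main q hp (adk hpq) (kg_refl q) (kgs (adk hqr)) (kgs hqs) (Or.inr (Or.inl rfl))
  have ks : s ∈ B → kk B b₀ s = κ := fun hp =>
    main s hp (adk hps) hqs (kgs (adk hsr)) (kg_refl s) (Or.inr (Or.inr (Or.inr rfl)))
  have edge : ∀ x y, Ad x y → (x ∈ B → kk B b₀ x = κ) → gg B b₀ χ x y = (χ x + χ y) * κ := by
    intro x y hxy hk
    unfold gg
    by_cases h : χ x = χ y
    · rw [h, add_self2, zero_mul, zero_mul]
    · rw [hk (hχ x y hxy h).1]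
  rw [edge p q hpq kp, edge q r hqr kq, edge s r hsr ks, edge p s hps kp]
  have h2 : (2 : ZMod 2) = 0 := by decide
  linear_combination (χ p + χ q + χ r + χ s) * κ * h2

end

/-- A function on the integers with vanishing differences. -/
theorem const_zero (f : ℤ → ZMod 2) (h : ∀ b, f (b + 1) + f b = 0) (L : ℤ) (hL : f L = 0) :
    ∀ b, f b = 0 := by
  have h' : ∀ b, f (b + 1) = f b := fun b => CharTwo.add_eq_zero.mp (h b)
  intro b
  rcases le_total L b with hb | hb
  · induction b, hb using Int.leInduction with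
    | base => exact hL
    | succ n _ ih => rw [h', ih]
  · induction b, hb using Int.leInductionDown with
    | base => exact hL
    | pred n _ ih =>
      have := h' (n - 1)
      rw [sub_add_cancel] at this
      rw [← this, ih]

end PLAM

open PLAM in
/-- PLA. -/
theorem specPLA : SpecPLA := by
  intro D B χ b₀ hb hD hχ
  have kz : ∀ x : ℤ × ℤ, ((D : ℤ) < |b₀.1 - x.1| ∨ (D : ℤ) < |b₀.2 - x.2|) → kk B b₀ x = 0 := by
    intro x hx
    unfold kk
    rw [if_neg]
    intro h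
    have := hD x h
    omega
  set L : ℤ := b₀.2 - D - 1 with hL
  set Ψ : ℤ × ℤ → ZMod 2 := fun x =>
    ∑ j ∈ Finset.Ico L x.2, gg B b₀ χ (x.1, j) (x.1, j + 1) with hΨ
  have adv : ∀ a b : ℤ, Ad (a, b) (a, b + 1) := fun a b => by unfold Ad; simp
  have adh : ∀ a b : ℤ, Ad (a, b) (a + 1, b) := fun a b => by unfold Ad; simp
  -- vertical differences
  have V : ∀ a b : ℤ, Ψ (a, b + 1) + Ψ (a, b) = gg B b₀ χ (a, b) (a, b + 1) := by
    intro a b
    by_cases hb1 : L ≤ b
    · have h1 : Finset.Ico L (b + 1) = insert b (Finset.Ico L b) := by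
        ext j
        simp only [Finset.mem_Ico, Finset.mem_insert]
        omega
      simp only [hΨ]
      rw [h1, Finset.sum_insert (by simp)]
      rw [add_assoc, add_self2, add_zero]
    · have h1 : Finset.Ico L (b + 1) = ∅ := Finset.Ico_eq_empty (by omega)
      have h2 : Finset.Ico L b = ∅ := Finset.Ico_eq_empty (by omega)
      simp only [hΨ]
      rw [h1, h2, Finset.sum_empty, add_zero]
      unfold gg
      rw [kz (a, b), mul_zero]
      right
      show (D : ℤ) < |b₀.2 - b|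
      rw [abs_of_nonneg (by omega)]
      omega
  have Ψlow : ∀ a b : ℤ, b ≤ L → Ψ (a, b) = 0 := by
    intro a b hb1
    simp only [hΨ]
    rw [Finset.Ico_eq_empty (by omega), Finset.sum_empty]
  -- horizontal differences
  have Hh : ∀ a b : ℤ, Ψ (a + 1, b) + Ψ (a, b) = gg B b₀ χ (a, b) (a + 1, b) := by
    intro a b
    have h1 := const_zero (fun b => Ψ (a + 1, b) + Ψ (a, b) + gg B b₀ χ (a, b) (a + 1, b))
      (fun b => by
        have h2 := V a b
        have h3 := V (a + 1) b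
        have h4 := square B b₀ χ hb hχ (a, b) (a + 1, b) (a + 1, b + 1) (a, b + 1)
          (adh a b) (adv (a + 1) b) (adh a (b + 1)) (adv a b) (by unfold Kg; simp)
          (by unfold Kg; simp)
        have h5 : (2 : ZMod 2) = 0 := by decide
        show Ψ (a + 1, b + 1) + Ψ (a, b + 1) + gg B b₀ χ (a, b + 1) (a + 1, b + 1) +
          (Ψ (a + 1, b) + Ψ (a, b) + gg B b₀ χ (a, b) (a + 1, b)) = 0
        linear_combination h2 + h3 + h4) L (by
        show Ψ (a + 1, L) + Ψ (a, L) + gg B b₀ χ (a, L) (a + 1, L) = 0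
        rw [Ψlow _ _ le_rfl, Ψlow _ _ le_rfl]
        unfold gg
        rw [kz (a, L), mul_zero, add_zero, add_zero]
        right
        show (D : ℤ) < |b₀.2 - L|
        rw [abs_of_nonneg (by omega)]
        omega) b
    exact CharTwo.add_eq_zero.mp h1
  -- far away
  have Ψside : ∀ a b : ℤ, (D : ℤ) < |b₀.1 - a| → Ψ (a, b) = 0 := by
    intro a b ha
    simp only [hΨ]
    refine Finset.sum_eq_zero fun j _ => ?_
    unfold gg
    rw [kz (a, j) (Or.inl ha), mul_zero]
  have Ψhigh : ∀ a b : ℤ, (D : ℤ) < |b₀.2 - b| → Ψ (a, b) = 0 := by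
    intro a b hb1
    refine const_zero (fun a => Ψ (a, b)) (fun a => ?_) (b₀.1 + D + 1) ?_ a
    · show Ψ (a + 1, b) + Ψ (a, b) = 0
      rw [Hh]
      unfold gg
      rw [kz (a, b) (Or.inr hb1), mul_zero]
    · apply Ψside
      rw [abs_of_nonpos (by omega)]
      omega
  have dif : ∀ x y : ℤ × ℤ, Ad x y → Ψ x + Ψ y = gg B b₀ χ x y := by
    intro x y hxy
    obtain ⟨a, b⟩ := x
    obtain ⟨c, d⟩ := y
    have h : |a - c| + |b - d| = 1 := hxy
    have h1 : (c = a ∧ d = b + 1) ∨ (c = a ∧ b = d + 1) ∨ (d = b ∧ c = a + 1) ∨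
        (d = b ∧ a = c + 1) := by
      rcases abs_cases (a - c) with ⟨h2, h3⟩ | ⟨h2, h3⟩ <;>
      rcases abs_cases (b - d) with ⟨h4, h5⟩ | ⟨h4, h5⟩ <;> omega
    rcases h1 with ⟨rfl, rfl⟩ | ⟨rfl, rfl⟩ | ⟨rfl, rfl⟩ | ⟨rfl, rfl⟩
    · rw [add_comm]
      exact V c b
    · rw [gg_symm B b₀ χ hb hχ hxy]
      exact V c d
    · rw [add_comm]
      exact Hh a d
    · rw [gg_symm B b₀ χ hb hχ hxy]
      exact Hh c d
  refine ⟨fun x => χ x + Ψ x, ?_, ?_⟩
  · intro x hx
    have : Ψ x = 0 := by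
      rcases hx with hx | hx
      · exact Ψside x.1 x.2 (by omega)
      · exact Ψhigh x.1 x.2 (by omega)
    show χ x + Ψ x = χ x
    rw [this, add_zero]
  · intro x y hxy hne
    have h1 : (χ x + Ψ x) + (χ y + Ψ y) = (χ x + χ y) * (1 + kk B b₀ x) := by
      have h2 := dif x y hxy
      unfold gg at h2
      linear_combination h2
    have h3 : (χ x + Ψ x) + (χ y + Ψ y) ≠ 0 := (ne_iff2 _ _).mp hne
    rw [h1] at h3
    refine ⟨?_, ?_⟩
    · intro h
      apply h3
      rw [h, add_self2, zero_mul]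
    · intro h
      apply h3
      have : kk B b₀ x = 1 := by
        unfold kk
        rw [if_pos h]
      rw [this, add_self2, mul_zero]

end Pool.Agent.Lib.MP_d1d9c5_gt.BD
end

section
set_option autoImplicit false

open scoped Classical

namespace Pool.Agent.Lib.MP_d1d9c5_gt.BD

namespace PLNM

theorem path (n : ℕ) : ∀ x y : ℤ × ℤ, |x.1 - y.1| + |x.2 - y.2| = n →
    ∃ z : ℕ → ℤ × ℤ, z 0 = x ∧ z n = y ∧ ∀ i < n, Ad (z i) (z (i + 1)) := by
  induction n with
  | zero =>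
    intro x y h
    have h1 : |x.1 - y.1| = 0 := by
      have := abs_nonneg (x.1 - y.1); have := abs_nonneg (x.2 - y.2); push_cast at h; omega
    have h2 : |x.2 - y.2| = 0 := by
      have := abs_nonneg (x.1 - y.1); have := abs_nonneg (x.2 - y.2); push_cast at h; omega
    have h3 : x = y := by
      rw [abs_eq_zero] at h1 h2
      exact Prod.ext (by omega) (by omega)
    exact ⟨fun _ => x, rfl, h3, fun i hi => absurd hi (Nat.not_lt_zero _)⟩
  | succ n ih =>
    intro x y h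
    have key : ∀ x' : ℤ × ℤ, Ad x x' → |x'.1 - y.1| + |x'.2 - y.2| = n →
        ∃ z : ℕ → ℤ × ℤ, z 0 = x ∧ z (n + 1) = y ∧ ∀ i < n + 1, Ad (z i) (z (i + 1)) := by
      intro x' h1 h2
      obtain ⟨z, hz0, hzn, hz⟩ := ih x' y h2
      refine ⟨fun i => Nat.casesOn i x z, rfl, hzn, fun i hi => ?_⟩
      cases i with
      | zero => simpa [hz0] using h1
      | succ i => exact hz i (by omega)
    rcases lt_trichotomy x.1 y.1 with h1 | h1 | h1
    · refine key (x.1 + 1, x.2) ?_ ?_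
      · simp [Ad]
      · rw [abs_of_neg (by omega)] at h
        rw [abs_of_nonpos (by simp only; omega)]
        push_cast at h ⊢
        omega
    · rcases lt_trichotomy x.2 y.2 with h2 | h2 | h2
      · refine key (x.1, x.2 + 1) ?_ ?_
        · simp [Ad]
        · rw [h1, sub_self, abs_zero, abs_of_neg (by omega)] at h
          simp only
          rw [h1, sub_self, abs_zero, abs_of_nonpos (by omega)]
          push_cast at h ⊢
          omega
      · exfalso
        rw [h1, h2, sub_self, sub_self, abs_zero] at h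
        push_cast at h
        omega
      · refine key (x.1, x.2 - 1) ?_ ?_
        · simp [Ad]
        · rw [h1, sub_self, abs_zero, abs_of_pos (by omega)] at h
          simp only
          rw [h1, sub_self, abs_zero, abs_of_nonneg (by omega)]
          push_cast at h ⊢
          omega
    · refine key (x.1 - 1, x.2) ?_ ?_
      · simp [Ad]
      · rw [abs_of_pos (by omega)] at h
        rw [abs_of_nonneg (by simp only; omega)]
        push_cast at h ⊢
        omega

theorem main (hPLA : SpecPLA) (D : ℕ) (B : Set (ℤ × ℤ))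
    (hB : ∀ x ∈ B, ∀ y, Kc B x y → |x.1 - y.1| ≤ D ∧ |x.2 - y.2| ≤ D) (n : ℕ) (z : ℕ → ℤ × ℤ)
    (hz : ∀ i < n, Ad (z i) (z (i + 1)))
    (hx : ∀ b ∈ B, ((D : ℤ) + 1 < |b.1 - (z 0).1| ∨ (D : ℤ) + 1 < |b.2 - (z 0).2|))
    (hy : ∀ b ∈ B, ((D : ℤ) + 1 < |b.1 - (z n).1| ∨ (D : ℤ) + 1 < |b.2 - (z n).2|)) (N : ℕ) :
    ∀ χ : ℤ × ℤ → ZMod 2, (∀ x y, Ad x y → χ x ≠ χ y → x ∈ B ∧ y ∈ B) →
      ((Finset.range n).filter (fun i => χ (z i) ≠ χ (z (i + 1)))).card = N →
      χ (z 0) = χ (z n) := by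
  induction N using Nat.strong_induction_on with
  | _ N ih =>
    intro χ hχ hN
    by_cases h0 : ∃ k < n, χ (z k) ≠ χ (z (k + 1))
    · obtain ⟨k, hk, hne⟩ := h0
      have hb := (hχ _ _ (hz k hk) hne).1
      obtain ⟨χ', h1, h2⟩ := hPLA D B χ (z k) hb (hB _ hb) hχ
      have h3 : χ' (z 0) = χ' (z n) := by
        refine ih _ ?_ χ' (fun x y hxy hne' => hχ x y hxy (h2 x y hxy hne').1) rfl
        rw [← hN]
        refine Finset.card_lt_card ?_
        rw [Finset.ssubset_iff_of_subset]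
        · refine ⟨k, by simp [hk, hne], ?_⟩
          intro hmem
          have h4 := (Finset.mem_filter.1 hmem).2
          exact (h2 _ _ (hz k hk) h4).2 Relation.ReflTransGen.refl
        · intro i hi
          rw [Finset.mem_filter] at hi ⊢
          exact ⟨hi.1, (h2 _ _ (hz i (Finset.mem_range.1 hi.1)) hi.2).1⟩
      rw [← h1 (z 0) (hx _ hb), ← h1 (z n) (hy _ hb), h3]
    · push Not at h0
      have : ∀ k ≤ n, χ (z 0) = χ (z k) := by
        intro k
        induction k with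
        | zero => intro _; rfl
        | succ k ihk => intro hk; rw [ihk (by omega), h0 k (by omega)]
      exact this n le_rfl

end PLNM

/-- PLN -/
theorem specPLN (hPLA : SpecPLA) : SpecPLN := by
  intro D
  refine ⟨D + 1, fun B χ hB hχ => ?_⟩
  by_contra hcon
  push Not at hcon
  obtain ⟨⟨x, hx, hxf⟩, y, hy, hyf⟩ := hcon
  have far : ∀ x : ℤ × ℤ, (∀ b ∈ B, |x.1 - b.1| ≤ ((D + 1 : ℕ) : ℤ) →
      ((D + 1 : ℕ) : ℤ) < |x.2 - b.2|) →
      ∀ b ∈ B, ((D : ℤ) + 1 < |b.1 - x.1| ∨ (D : ℤ) + 1 < |b.2 - x.2|) := by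
    intro x h b hb
    by_contra hc
    push Not at hc
    have h1 := h b hb (by rw [abs_sub_comm]; push_cast; exact hc.1)
    rw [abs_sub_comm] at h1
    push_cast at h1
    omega
  obtain ⟨n, hn⟩ : ∃ n : ℕ, |x.1 - y.1| + |x.2 - y.2| = n :=
    ⟨(|x.1 - y.1| + |x.2 - y.2|).toNat, by
      rw [Int.toNat_of_nonneg (by positivity)]⟩
  obtain ⟨z, hz0, hzn, hz⟩ := PLNM.path n x y hn
  have key := PLNM.main hPLA D B hB n z hz (by rw [hz0]; exact far x hxf)
    (by rw [hzn]; exact far y hyf) _ (fun p => if χ p then 1 else 0) (by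
      intro a b hab hne
      refine hχ a b hab ?_
      intro hiff
      apply hne
      simp only [hiff]) rfl
  rw [hz0, hzn] at key
  simp [hx, hy] at key

end Pool.Agent.Lib.MP_d1d9c5_gt.BD
end

section
/-!
# MP_d1d9c5_gt, bounded degree example: PUL (pull back of dust)
-/
set_option autoImplicit false

open scoped Classical

namespace Pool.Agent.Lib.MP_d1d9c5_gt.BD

namespace PULM

theorem lower {X : Type} {G : SimpleGraph X} (hG : G.Connected) {C : ℕ} {f g : X → X}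
    (h : QI G C f g) (p q : X) : G.dist p q ≤ C * G.dist (f p) (f q) + 3 * C := by
  have h1 : G.dist p q ≤ G.dist p (g (f p)) + G.dist (g (f p)) q := hG.dist_triangle
  have h2 : G.dist (g (f p)) q ≤ G.dist (g (f p)) (g (f q)) + G.dist (g (f q)) q :=
    hG.dist_triangle
  have h3 := h.gf p
  have h4 := h.gf q
  have h5 := h.lipg (f p) (f q)
  rw [SimpleGraph.dist_comm] at h3
  omega

end PULM

theorem specPUL (hTPR : SpecTPR) (hTCN : SpecTCN) : SpecPUL := by
  intro P I A S D d hP C r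
  have hG : (TG A S).Connected := hTCN P I A S hP.conn hP.ne
  obtain ⟨-, h2, -, -⟩ := hTPR P I A S hP.conn hP.ne
  refine ⟨fun ρ => C * (D (C * ρ + C + 2 * r) + 2 * r) + 3 * C, ?_⟩
  intro f g hf v u i ρ x hx y hxy
  obtain ⟨s, hs, hsx⟩ := hx
  -- the chain of the points of `S i`
  have key : ∀ y, Relation.ReflTransGen (fun a b =>
      b ∈ {x | ∃ s ∈ S i, (TG A S).dist (f (v, x)) (u, s) ≤ r} ∧ A.dist a b ≤ ρ) x y →
      (∃ t ∈ S i, (TG A S).dist (f (v, y)) (u, t) ≤ r) ∧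
      ∀ t ∈ S i, (TG A S).dist (f (v, y)) (u, t) ≤ r →
        Relation.ReflTransGen (fun a b => b ∈ S i ∧ A.dist a b ≤ C * ρ + C + 2 * r) s t := by
    intro y hy
    induction hy with
    | refl =>
      refine ⟨⟨s, hs, hsx⟩, fun t ht htx => Relation.ReflTransGen.single ⟨ht, ?_⟩⟩
      rw [← h2 u s t]
      have h3 : (TG A S).dist (u, s) (u, t) ≤
          (TG A S).dist (u, s) (f (v, x)) + (TG A S).dist (f (v, x)) (u, t) := hG.dist_triangle
      rw [SimpleGraph.dist_comm] at hsx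
      omega
    | tail hxb hbc ih =>
      rename_i b c
      obtain ⟨⟨t, ht, htb⟩, ih2⟩ := ih
      obtain ⟨hc, hbc2⟩ := hbc
      refine ⟨hc, fun t' ht' htc => (ih2 t ht htb).tail ⟨ht', ?_⟩⟩
      rw [← h2 u t t']
      have h3 : (TG A S).dist (u, t) (u, t') ≤
          (TG A S).dist (u, t) (f (v, b)) + (TG A S).dist (f (v, b)) (u, t') := hG.dist_triangle
      have h4 : (TG A S).dist (f (v, b)) (u, t') ≤
          (TG A S).dist (f (v, b)) (f (v, c)) + (TG A S).dist (f (v, c)) (u, t') :=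
        hG.dist_triangle
      have h5 := hf.lipf (v, b) (v, c)
      rw [h2 v b c] at h5
      have h6 : C * A.dist b c ≤ C * ρ := Nat.mul_le_mul_left C hbc2
      rw [SimpleGraph.dist_comm] at htb
      omega
  obtain ⟨⟨t, ht, hty⟩, h3⟩ := key y hxy
  have h4 := hP.dust i _ s hs t (h3 t ht hty)
  rw [← h2 v x y]
  refine (PULM.lower hG hf (v, x) (v, y)).trans ?_
  have h5 : (TG A S).dist (f (v, x)) (f (v, y)) ≤
      (TG A S).dist (f (v, x)) (u, s) + (TG A S).dist (u, s) (f (v, y)) := hG.dist_triangle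
  have h6 : (TG A S).dist (u, s) (f (v, y)) ≤
      (TG A S).dist (u, s) (u, t) + (TG A S).dist (u, t) (f (v, y)) := hG.dist_triangle
  rw [h2 u s t] at h6
  rw [SimpleGraph.dist_comm] at hty
  have h7 : (TG A S).dist (f (v, x)) (f (v, y)) ≤ D (C * ρ + C + 2 * r) + 2 * r := by omega
  exact Nat.add_le_add_right (Nat.mul_le_mul_left C h7) _

end Pool.Agent.Lib.MP_d1d9c5_gt.BD
end

section
set_option autoImplicit false

open scoped Classical

namespace Pool.Agent.Lib.MP_d1d9c5_gt.BD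

universe w

/-- QAQ -/
theorem specQAQ : SpecQAQ.{w} := by
  intro X G Γ _ C F hG hF
  refine ⟨2 * C, fun h => ⟨fun x y => ?_, fun x y => ?_, fun x => ?_, fun x => ?_⟩⟩
  · have := hF.lip h x y
    nlinarith [Nat.zero_le (C * G.dist x y)]
  · have := hF.lip h⁻¹ x y
    nlinarith [Nat.zero_le (C * G.dist x y)]
  · have h1 := hF.mul h⁻¹ h x
    rw [inv_mul_cancel] at h1
    have h2 := hF.one x
    have h3 := hG.dist_triangle (u := F h⁻¹ (F h x)) (v := F 1 x) (w := x)
    omega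
  · have h1 := hF.mul h h⁻¹ x
    rw [mul_inv_cancel] at h1
    have h2 := hF.one x
    have h3 := hG.dist_triangle (u := F h (F h⁻¹ x)) (v := F 1 x) (w := x)
    omega

end Pool.Agent.Lib.MP_d1d9c5_gt.BD
end

section
set_option autoImplicit false

open scoped Classical

namespace Pool.Agent.Lib.MP_d1d9c5_gt.BD

namespace RIGM

variable {P I : Type}

/-- the copy `v` is mapped essentially beyond the copy `u` -/
def Inn (A : SimpleGraph P) (S : I → Set P) (f : W I × P → W I × P) (v : W I) (R : ℕ)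
    (u : W I) : Prop :=
  ∃ (i : I) (u' : W I), u.1 = i :: u'.1 ∧
    ∀ x, u.1 <:+ (f (v, x)).1.1 ∨ ∃ s ∈ S i, (TG A S).dist (f (v, x)) (u, s) ≤ R

theorem exists_max (Q : W I → Prop) (N : ℕ) (hN : ∀ u, Q u → u.1.length ≤ N) :
    ∃ v' : W I, (v' = W.nil ∨ Q v') ∧ ∀ u, Q u → u.1.length ≤ v'.1.length := by
  by_cases h : ∃ u, Q u
  · obtain ⟨u, hu⟩ := h
    let T : ℕ → Prop := fun n => ∃ u, Q u ∧ u.1.length = n
    have hT : T (Nat.findGreatest T N) :=
      Nat.findGreatest_spec (P := T) (hN u hu) ⟨u, hu, rfl⟩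
    obtain ⟨v', h1, h2⟩ := hT
    refine ⟨v', Or.inr h1, fun u hu => ?_⟩
    rw [h2]
    exact Nat.le_findGreatest (hN u hu) ⟨u, hu, rfl⟩
  · push Not at h
    exact ⟨W.nil, Or.inl rfl, fun u hu => absurd hu (h u)⟩

end RIGM

open RIGM in
/-- RIG -/
theorem specRIG (hCOL : SpecCOL) (hTPR : SpecTPR) (hTCN : SpecTCN) : SpecRIG := by
  intro P I A S D d hP C
  obtain ⟨R, hR⟩ := hCOL P I A S D d hP C
  obtain ⟨-, -, tp3, tp4⟩ := hTPR P I A S hP.conn hP.ne
  have hc := hTCN P I A S hP.conn hP.ne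
  refine ⟨R + 1, fun f g hf v => ?_⟩
  obtain ⟨x₀⟩ := hP.conn.nonempty
  obtain ⟨v', hv', hmax⟩ := exists_max (Inn A S f v R) ((f (v, x₀)).1.1.length + R) (by
    rintro u ⟨i, u', hu, hx⟩
    rcases hx x₀ with h | ⟨s, -, h⟩
    · exact h.length_le.trans (Nat.le_add_right _ _)
    · have h1 := tp3 (u, s) (f (v, x₀))
      rw [(TG A S).dist_comm] at h1
      simp only at h1
      omega)
  refine ⟨v', fun x => ?_⟩
  by_cases hs : v'.1 <:+ (f (v, x)).1.1
  · by_cases heq : v' = (f (v, x)).1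
    · refine ⟨(f (v, x)).2, ?_⟩
      rw [heq, Prod.mk.eta, SimpleGraph.dist_self]
      exact Nat.zero_le _
    · obtain ⟨l, hl⟩ := hs
      have hl0 : l ≠ [] := by
        rintro rfl
        exact heq (Subtype.ext hl)
      obtain ⟨l', i, rfl⟩ : ∃ l' i, l = l' ++ [i] :=
        ⟨l.dropLast, l.getLast hl0, (List.dropLast_append_getLast hl0).symm⟩
      have hsuf : (i :: v'.1) <:+ (f (v, x)).1.1 := ⟨l', by rw [← hl]; simp⟩
      have hch : (i :: v'.1).IsChain (· ≠ ·) := (f (v, x)).1.2.suffix hsuf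
      have hcol := hR f g hf v ⟨i :: v'.1, hch⟩ v' i rfl
      rcases hcol with h1 | h1
      · exfalso
        have := hmax ⟨i :: v'.1, hch⟩ ⟨i, v', rfl, h1⟩
        simp at this
      · rcases h1 x with h2 | ⟨s, hsi, h2⟩
        · exact absurd hsuf h2
        · refine ⟨s, ?_⟩
          have h3 := tp4 ⟨i :: v'.1, hch⟩ v' i s rfl hsi
          have h4 := hc.dist_triangle (u := f (v, x)) (v := (⟨i :: v'.1, hch⟩, s)) (w := (v', s))
          omega
  · rcases hv' with rfl | ⟨i, u', hu, hx⟩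
    · exact absurd (List.nil_suffix) hs
    · rcases hx x with h | ⟨s, -, h⟩
      · exact absurd h hs
      · exact ⟨s, by omega⟩

end Pool.Agent.Lib.MP_d1d9c5_gt.BD
end

section
set_option autoImplicit false

open scoped Classical

/-! # Distances in the tree of copies -/

namespace Pool.Agent.Lib.MP_d1d9c5_gt.BD

namespace TPRM

/-- A function which changes by at most `K` along edges. -/
theorem le_walk {X : Type} {G : SimpleGraph X} {δ : X → X → ℕ} {K : ℕ} (h0 : ∀ x, δ x x = 0)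
    (htr : ∀ x y z, δ x z ≤ δ x y + δ y z) (hadj : ∀ x y, G.Adj x y → δ x y ≤ K) {x y : X}
    (w : G.Walk x y) : δ x y ≤ K * w.length := by
  induction w with
  | nil => rw [h0]; exact Nat.zero_le _
  | @cons a b c h p ih =>
    rw [SimpleGraph.Walk.length_cons]
    have h1 := hadj _ _ h
    have h2 := htr a b c
    rw [Nat.mul_add, Nat.mul_one]
    omega

theorem le_dist {X : Type} {G : SimpleGraph X} (hG : G.Connected) {δ : X → X → ℕ} {K : ℕ}
    (h0 : ∀ x, δ x x = 0) (htr : ∀ x y z, δ x z ≤ δ x y + δ y z)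
    (hadj : ∀ x y, G.Adj x y → δ x y ≤ K) (x y : X) : δ x y ≤ K * G.dist x y := by
  obtain ⟨w, hw⟩ := hG.exists_walk_length_eq_dist x y
  rw [← hw]
  exact le_walk h0 htr hadj w

theorem hom_dist {X Y : Type} {G : SimpleGraph X} {H : SimpleGraph Y} (hG : G.Connected)
    (f : G →g H) (x y : X) : H.dist (f x) (f y) ≤ G.dist x y := by
  obtain ⟨w, hw⟩ := hG.exists_walk_length_eq_dist x y
  rw [← hw, ← SimpleGraph.Walk.length_map f w]
  exact SimpleGraph.dist_le _

/-- the inclusion of a copy -/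
def inc {P I : Type} (A : SimpleGraph P) (S : I → Set P) (v : W I) : A →g TG A S where
  toFun x := (v, x)
  map_rel' h := Or.inl ⟨rfl, h⟩

/-- the length of the word -/
def len {P I : Type} (p : W I × P) : ℕ := p.1.1.length

end TPRM

open TPRM in
theorem specTPR (hTCN : SpecTCN) : SpecTPR := by
  intro P I A S hA hS
  have hT := hTCN P I A S hA hS
  have h1 : ∀ p q : W I × P, A.dist p.2 q.2 ≤ (TG A S).dist p q := by
    intro p q
    have h := le_dist hT (δ := fun p q => A.dist p.2 q.2) (K := 1)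
      (fun x => SimpleGraph.dist_self) (fun x y z => hA.dist_triangle) (fun x y h => ?_) p q
    · rwa [one_mul] at h
    · rcases h with ⟨-, h⟩ | ⟨h, -⟩
      · exact (SimpleGraph.dist_eq_one_iff_adj.2 h).le
      · change A.dist x.2 y.2 ≤ 1
        rw [h, SimpleGraph.dist_self]
        exact Nat.zero_le _
  refine ⟨h1, fun v x y => le_antisymm (hom_dist hA (inc A S v) x y) (h1 (v, x) (v, y)), ?_, ?_⟩
  · intro p q
    have h : len p - len q ≤ 1 * (TG A S).dist p q := by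
      refine le_dist hT (δ := fun p q => len p - len q) (K := 1)
        (fun x => Nat.sub_self _) (fun x y z => ?_) (fun x y h => ?_) p q
      · change len x - len z ≤ len x - len y + (len y - len z)
        omega
      · change len x - len y ≤ 1
        rcases h with ⟨h, -⟩ | ⟨-, i, -, h | h⟩
        · have e : len x = len y := by
            unfold len
            rw [h]
          omega
        · have e : len y = len x + 1 := by
            unfold len
            rw [h, List.length_cons]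
          omega
        · have e : len x = len y + 1 := by
            unfold len
            rw [h, List.length_cons]
          omega
    rw [one_mul] at h
    change len p ≤ len q + (TG A S).dist p q
    omega
  · intro u v i x hu hx
    exact (SimpleGraph.dist_eq_one_iff_adj.2 (Or.inr ⟨rfl, i, hx, Or.inr hu⟩)).le

end Pool.Agent.Lib.MP_d1d9c5_gt.BD
end

section
set_option autoImplicit false

open scoped Classical

/-! # Rough transitivity of the tree of copies -/

namespace Pool.Agent.Lib.MP_d1d9c5_gt.BD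

namespace RTRM

open TPRM

theorem iso_dist {X : Type} {G : SimpleGraph X} (hG : G.Connected) (T : G ≃g G) (x y : X) :
    G.dist (T x) (T y) = G.dist x y := by
  refine le_antisymm (hom_dist hG (T : G ≃g G).toHom x y) ?_
  have h := hom_dist hG (T.symm : G ≃g G).toHom (T x) (T y)
  change G.dist (T.symm (T x)) (T.symm (T y)) ≤ G.dist (T x) (T y) at h
  rwa [T.symm_apply_apply, T.symm_apply_apply] at h

end RTRM

open RTRM in
theorem specRTR (hTAU : SpecTAU) (hTMP : SpecTMP) (hTCN : SpecTCN) : SpecRTR := by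
  intro P I A S hA hS C hC p q
  have hT := hTCN P I A S hA hS
  obtain ⟨f, g, π, hR, hfp⟩ := hC p.2 q.2
  obtain ⟨Φ, Ψ, hΦ, h1, h2, h3, h4⟩ := hTMP P I A S hA hS C f g π hR
  obtain ⟨T, hT1⟩ := hTAU P I A S p.1 W.nil
  obtain ⟨T', hT2⟩ := hTAU P I A S W.nil q.1
  have hK : (0 : ℝ) < 2 * C + 1 := by positivity
  refine ⟨fun x => T' (Φ (T x)), ⟨fun x y => ?_, fun y => ?_⟩, ?_⟩
  · have e1 : (TG A S).dist (T' (Φ (T x))) (T' (Φ (T y))) ≤
        (2 * C + 1) * (TG A S).dist x y := by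
      rw [iso_dist hT, ← iso_dist hT T x y]
      exact h3 _ _
    have e2 : (TG A S).dist x y ≤
        (2 * C + 1) * (TG A S).dist (T' (Φ (T x))) (T' (Φ (T y))) := by
      rw [iso_dist hT, ← iso_dist hT T x y]
      have := h4 (Φ (T x)) (Φ (T y))
      rwa [h1, h1] at this
    have e1' : ((TG A S).dist (T' (Φ (T x))) (T' (Φ (T y))) : ℝ) ≤
        (2 * C + 1) * (TG A S).dist x y := by exact_mod_cast e1
    have e2' : ((TG A S).dist x y : ℝ) ≤
        (2 * C + 1) * (TG A S).dist (T' (Φ (T x))) (T' (Φ (T y))) := by exact_mod_cast e2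
    unfold graphDist
    refine ⟨?_, by linarith⟩
    have e3 : (2 * (C : ℝ) + 1)⁻¹ * (TG A S).dist (T' (Φ (T x))) (T' (Φ (T y))) ≤
        (TG A S).dist x y := by
      rw [inv_mul_le_iff₀ hK]
      exact e1'
    linarith
  · refine ⟨T.symm (Ψ (T'.symm y)), ?_⟩
    change (((TG A S).dist (T' (Φ (T (T.symm (Ψ (T'.symm y)))))) y : ℕ) : ℝ) < _
    rw [T.apply_symm_apply, h2, T'.apply_symm_apply, SimpleGraph.dist_self, Nat.cast_zero]
    exact hK
  · change T' (Φ (T p)) = q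
    obtain ⟨v, x⟩ := p
    obtain ⟨u, y⟩ := q
    simp only at hfp hT1 hT2
    rw [hT1, hΦ, hfp, hT2]

end Pool.Agent.Lib.MP_d1d9c5_gt.BD
end

section
/-!
# MP_d1d9c5_gt, module TAU: automorphisms of the tree of copies
-/
set_option autoImplicit false

open scoped Classical

namespace Pool.Agent.Lib.MP_d1d9c5_gt.BD.TAUM

variable {I P : Type}

/-- append the letter `j` at the end of the word, or remove it if it is the last letter -/
noncomputable def ap (j : I) (l : List I) : List I :=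
  if l.getLast? = some j then l.dropLast else l ++ [j]

theorem ap_concat (j : I) (l : List I) : ap j (l ++ [j]) = l := by
  simp [ap]

theorem ap_of_ne (j : I) (l : List I) (h : l.getLast? ≠ some j) : ap j l = l ++ [j] := by
  simp [ap, h]

theorem ap_chain (j : I) {l : List I} (h : l.IsChain (· ≠ ·)) : (ap j l).IsChain (· ≠ ·) := by
  unfold ap
  split_ifs with h1
  · obtain ⟨L, hL⟩ : ∃ L, l = L ++ [j] := by
      rw [List.getLast?_eq_some_iff] at h1
      exact h1
    subst hL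
    rw [List.isChain_append] at h
    simpa using h.1
  · rw [List.isChain_append]
    refine ⟨h, List.isChain_singleton _, ?_⟩
    intro x hx y hy hxy
    simp only [List.head?_cons, Option.mem_def, Option.some.injEq] at hy hx
    exact h1 (by rw [hx, hxy, hy])

theorem ap_ap (j : I) {l : List I} (h : l.IsChain (· ≠ ·)) : ap j (ap j l) = l := by
  by_cases h1 : l.getLast? = some j
  · obtain ⟨L, hL⟩ : ∃ L, l = L ++ [j] := by
      rw [List.getLast?_eq_some_iff] at h1
      exact h1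
    subst hL
    rw [ap_concat]
    apply ap_of_ne
    intro h2
    rw [List.isChain_append] at h
    exact h.2.2 j h2 j (by simp) rfl
  · rw [ap_of_ne j l h1, ap_concat]

theorem ap_cons (j i : I) (l : List I) :
    ap j (i :: l) = i :: ap j l ∨ ap j l = i :: ap j (i :: l) := by
  rcases List.eq_nil_or_concat l with h | ⟨L, b, h⟩
  · subst h
    by_cases hij : i = j
    · subst hij
      right
      simp [ap]
    · left
      simp [ap, hij]
  · subst h
    left
    by_cases hb : b = j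
    · subst hb
      rw [List.concat_eq_append, ap_concat, ← List.cons_append, ap_concat]
    · rw [List.concat_eq_append, ap_of_ne, ap_of_ne, List.cons_append]
      · simp [hb]
      · rw [← List.cons_append, List.getLast?_concat]
        simp [hb]

/-- the map on reduced words -/
noncomputable def apw (j : I) (v : W I) : W I := ⟨ap j v.1, ap_chain j v.2⟩

theorem apw_apw (j : I) (v : W I) : apw j (apw j v) = v := Subtype.ext (ap_ap j v.2)

theorem adj_imp (A : SimpleGraph P) (S : I → Set P) (j : I) {p q : W I × P}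
    (h : (TG A S).Adj p q) : (TG A S).Adj (apw j p.1, p.2) (apw j q.1, q.2) := by
  rcases h with ⟨h1, h2⟩ | ⟨h1, i, h2, h3 | h3⟩
  · exact Or.inl ⟨by simp only [h1], h2⟩
  · refine Or.inr ⟨h1, i, h2, ?_⟩
    rcases ap_cons j i p.1.1 with h4 | h4
    · left
      show ap j q.1.1 = i :: ap j p.1.1
      rw [h3, h4]
    · right
      show ap j p.1.1 = i :: ap j q.1.1
      rw [h3]
      exact h4
  · refine Or.inr ⟨h1, i, h2, ?_⟩
    rcases ap_cons j i q.1.1 with h4 | h4
    · right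
      show ap j p.1.1 = i :: ap j q.1.1
      rw [h3, h4]
    · left
      show ap j q.1.1 = i :: ap j p.1.1
      rw [h3]
      exact h4

/-- the automorphism given by the letter `j` -/
noncomputable def au (A : SimpleGraph P) (S : I → Set P) (j : I) : TG A S ≃g TG A S where
  toFun p := (apw j p.1, p.2)
  invFun p := (apw j p.1, p.2)
  left_inv p := by simp [apw_apw]
  right_inv p := by simp [apw_apw]
  map_rel_iff' := by
    intro p q
    constructor
    · intro h
      have h2 := adj_imp A S j h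
      simpa [apw_apw] using h2
    · intro h
      exact adj_imp A S j h

theorem to_nil (A : SimpleGraph P) (S : I → Set P) (n : ℕ) :
    ∀ v : W I, v.1.length = n → ∃ T : TG A S ≃g TG A S, ∀ x : P, T (v, x) = (W.nil, x) := by
  induction n with
  | zero =>
    intro v hv
    refine ⟨RelIso.refl _, fun x => ?_⟩
    have : v = W.nil := Subtype.ext (List.length_eq_zero_iff.1 hv)
    rw [this]
    rfl
  | succ n ih =>
    intro v hv
    obtain ⟨L, b, hL⟩ : ∃ L b, v.1 = L ++ [b] := by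
      rcases List.eq_nil_or_concat v.1 with h | ⟨L, b, h⟩
      · rw [h] at hv
        simp at hv
      · exact ⟨L, b, by rw [h, List.concat_eq_append]⟩
    have h1 : (apw b v).1 = L := by
      show ap b v.1 = L
      rw [hL, ap_concat]
    obtain ⟨T, hT⟩ := ih (apw b v) (by
      rw [h1]
      rw [hL, List.length_append] at hv
      simpa using hv)
    refine ⟨(au A S b).trans T, fun x => ?_⟩
    show T (apw b v, x) = _
    exact hT x

end Pool.Agent.Lib.MP_d1d9c5_gt.BD.TAUM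

namespace Pool.Agent.Lib.MP_d1d9c5_gt.BD

open TAUM

theorem specTAU : SpecTAU := by
  intro P I A S v v'
  obtain ⟨T, hT⟩ := to_nil A S _ v rfl
  obtain ⟨T', hT'⟩ := to_nil A S _ v' rfl
  refine ⟨T.trans T'.symm, fun x => ?_⟩
  show T'.symm (T (v, x)) = (v', x)
  rw [hT, ← hT' x]
  exact T'.symm_apply_apply (v', x)

end Pool.Agent.Lib.MP_d1d9c5_gt.BD
end

section
set_option autoImplicit false

open scoped Classical

/-!
# Row 227, TCN (helper70): the tree of copies is connected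
-/

namespace Pool.Agent.Lib.MP_d1d9c5_gt.BD

namespace TCNM

/-- the inclusion of the copy of `v` -/
def inc {P I : Type} (A : SimpleGraph P) (S : I → Set P) (v : W I) : A →g TG A S where
  toFun x := (v, x)
  map_rel' := fun h => Or.inl ⟨rfl, h⟩

theorem copy {P I : Type} (A : SimpleGraph P) (S : I → Set P) (hA : A.Connected) (v : W I)
    (x y : P) : (TG A S).Reachable (v, x) (v, y) :=
  (hA.preconnected x y).map (inc A S v)

theorem down {P I : Type} (A : SimpleGraph P) (S : I → Set P) (hA : A.Connected)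
    (hS : ∀ i, (S i).Nonempty) (n : ℕ) :
    ∀ v : W I, v.1.length = n → ∀ x y : P, (TG A S).Reachable (v, x) (W.nil, y) := by
  induction n with
  | zero =>
    rintro ⟨l, hl⟩ hn x y
    have h0 : l = [] := List.length_eq_zero_iff.1 hn
    subst h0
    exact copy A S hA W.nil x y
  | succ n ih =>
    rintro ⟨l, hl⟩ hn x y
    cases l with
    | nil => simp at hn
    | cons i t =>
      obtain ⟨s, hs⟩ := hS i
      have ht : t.IsChain (· ≠ ·) := hl.tail
      have h1 : (TG A S).Reachable (⟨i :: t, hl⟩, x) (⟨i :: t, hl⟩, s) := copy A S hA _ x s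
      have h2 : (TG A S).Adj (⟨i :: t, hl⟩, s) (⟨t, ht⟩, s) :=
        Or.inr ⟨rfl, i, hs, Or.inr rfl⟩
      have h3 : (TG A S).Reachable (⟨t, ht⟩, s) (W.nil, y) :=
        ih ⟨t, ht⟩ (by simpa using hn) s y
      exact h1.trans (h2.reachable.trans h3)

end TCNM

theorem specTCN : SpecTCN := by
  intro P I A S hA hS
  obtain ⟨x₀⟩ : Nonempty P := hA.nonempty
  have hne : Nonempty (W I × P) := ⟨(W.nil, x₀)⟩
  have hpre : (TG A S).Preconnected := by
    rintro ⟨v, x⟩ ⟨w, y⟩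
    exact (TCNM.down A S hA hS _ v rfl x x).trans (TCNM.down A S hA hS _ w rfl y x).symm
  exact ⟨hpre⟩

end Pool.Agent.Lib.MP_d1d9c5_gt.BD
end

section
set_option autoImplicit false

open scoped Classical

namespace Pool.Agent.Lib.MP_d1d9c5_gt.BD

namespace TCRM

theorem aux {P I : Type} (A : SimpleGraph P) (S : I → Set P) (hc : (TG A S).Connected)
    (u v : W I) (i : I) (huv : u.1 = i :: v.1) (p q : W I × P) (w : (TG A S).Walk p q) :
    u.1 <:+ p.1.1 → ¬ u.1 <:+ q.1.1 →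
      ∃ s ∈ S i, (TG A S).dist p (u, s) + 1 + (TG A S).dist (v, s) q ≤ w.length := by
  induction w with
  | nil => intro h1 h2; exact absurd h1 h2
  | @cons p b q hadj w' ih =>
    intro h1 h2
    suffices h : ∃ s ∈ S i, (TG A S).dist p (u, s) + 1 + (TG A S).dist (v, s) q ≤
        w'.length + 1 from h
    by_cases hb : u.1 <:+ b.1.1
    · obtain ⟨s, hs, hd⟩ := ih hb h2
      refine ⟨s, hs, ?_⟩
      have h3 := hc.dist_triangle (u := p) (v := b) (w := (u, s))
      have h4 : (TG A S).dist p b ≤ 1 := by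
        rw [SimpleGraph.dist_eq_one_iff_adj.2 hadj]
      omega
    · rcases hadj with ⟨h3, -⟩ | ⟨h3, j, hj, h4 | h4⟩
      · rw [h3] at h1; exact absurd h1 hb
      · refine absurd ?_ hb
        rw [h4]
        exact h1.trans (List.suffix_cons _ _)
      · rw [h4, List.suffix_cons_iff] at h1
        rcases h1 with h1 | h1
        · rw [huv] at h1
          injection h1 with h5 h6
          have hbv : b.1 = v := Subtype.ext h6.symm
          have hpu : p.1 = u := Subtype.ext (by rw [h4, huv, h5, h6])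
          refine ⟨p.2, h5 ▸ hj, ?_⟩
          have e1 : p = (u, p.2) := Prod.ext hpu rfl
          have e2 : b = (v, p.2) := Prod.ext hbv h3.symm
          rw [← e1, SimpleGraph.dist_self, ← e2]
          have := SimpleGraph.dist_le w'
          omega
        · exact absurd h1 hb

end TCRM

/-- TCR -/
theorem specTCR (hTCN : SpecTCN) : SpecTCR := by
  intro P I A S hA hS u v i huv p q h1 h2
  have hc := hTCN P I A S hA hS
  obtain ⟨w, hw⟩ := hc.exists_walk_length_eq_dist p q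
  rw [← hw]
  exact TCRM.aux A S hc u v i huv p q w h1 h2

end Pool.Agent.Lib.MP_d1d9c5_gt.BD
end

section
set_option autoImplicit false

open scoped Classical

/-!
# Row 227, TDG (helper70): degrees of the tree of copies
-/

namespace Pool.Agent.Lib.MP_d1d9c5_gt.BD

namespace TDGM

/-- the other end of the edge of index `i` at the copy `v` -/
noncomputable def oth {I : Type} (v : W I) (i : I) : W I :=
  if h : ∃ u : W I, u.1 = i :: v.1 then h.choose
  else if h' : ∃ u : W I, v.1 = i :: u.1 then h'.choose else v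

theorem oth_eq {I : Type} (v u : W I) (i : I) (h : u.1 = i :: v.1 ∨ v.1 = i :: u.1) :
    oth v i = u := by
  unfold oth
  rcases h with h | h
  · have h1 : ∃ u : W I, u.1 = i :: v.1 := ⟨u, h⟩
    rw [dif_pos h1]
    have h2 := h1.choose_spec
    exact Subtype.ext (h2.trans h.symm)
  · have h1 : ¬ ∃ u : W I, u.1 = i :: v.1 := by
      rintro ⟨w, hw⟩
      have h3 := w.2
      rw [hw, h] at h3
      have h4 := (List.isChain_cons_cons.1 h3).1
      exact h4 rfl
    have h2 : ∃ u : W I, v.1 = i :: u.1 := ⟨u, h⟩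
    rw [dif_neg h1, dif_pos h2]
    have h3 := h2.choose_spec
    have h4 := h.symm.trans h3
    exact Subtype.ext (List.cons.inj h4).2.symm

end TDGM

theorem specTDG : SpecTDG := by
  intro P I A S d hd hm p
  have hsub : (TG A S).neighborSet p ⊆
      (fun y : P => (p.1, y)) '' (A.neighborSet p.2) ∪
        (fun i : I => (TDGM.oth p.1 i, p.2)) '' {i | p.2 ∈ S i} := by
    rintro q hq
    rcases hq with ⟨h1, h2⟩ | ⟨h1, i, h2, h3⟩
    · left
      exact ⟨q.2, h2, Prod.ext h1 rfl⟩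
    · right
      refine ⟨i, h2, Prod.ext ?_ h1⟩
      exact TDGM.oth_eq p.1 q.1 i h3
  calc ((TG A S).neighborSet p).encard
      ≤ ((fun y : P => (p.1, y)) '' (A.neighborSet p.2) ∪
        (fun i : I => (TDGM.oth p.1 i, p.2)) '' {i | p.2 ∈ S i}).encard := Set.encard_le_encard hsub
    _ ≤ ((fun y : P => (p.1, y)) '' (A.neighborSet p.2)).encard +
        ((fun i : I => (TDGM.oth p.1 i, p.2)) '' {i | p.2 ∈ S i}).encard :=
        Set.encard_union_le _ _
    _ ≤ (A.neighborSet p.2).encard + {i | p.2 ∈ S i}.encard :=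
        add_le_add (Set.encard_image_le _ _) (Set.encard_image_le _ _)
    _ ≤ d + d := add_le_add (hd _) (hm _)
    _ = 2 * d := (two_mul _).symm

end Pool.Agent.Lib.MP_d1d9c5_gt.BD
end

section
set_option autoImplicit false

open scoped Classical

/-! # Extension of maps of the pieces to the tree of copies -/

namespace Pool.Agent.Lib.MP_d1d9c5_gt.BD

namespace TMPM

open TPRM

/-- the action of a permutation of the letters on the words -/
def wmap {I : Type} (π : I ≃ I) (v : W I) : W I :=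
  ⟨v.1.map π, (List.isChain_map π).2 (v.2.imp fun _ _ h h' => h (π.injective h'))⟩

theorem wmap_symm {I : Type} (π : I ≃ I) (v : W I) : wmap π.symm (wmap π v) = v := by
  refine Subtype.ext ?_
  change (v.1.map π).map π.symm = v.1
  rw [List.map_map]
  have e : (π.symm : I → I) ∘ π = id := by
    funext i
    exact π.symm_apply_apply i
  rw [e, List.map_id]

/-- the extended map -/
def ext {P I : Type} (f : P → P) (π : I ≃ I) (p : W I × P) : W I × P := (wmap π p.1, f p.2)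

/-- the inverse data -/
theorem rm_symm {P I : Type} {A : SimpleGraph P} {S : I → Set P} {C : ℕ} {f g : P → P}
    {π : I ≃ I} (h : Rm A S C f g π) : Rm A S C g f π.symm where
  gf := h.fg
  fg := h.gf
  lipf := h.lipg
  lipg := h.lipf
  glf := h.glg
  glg := h.glf

theorem ext_lip {P I : Type} {A : SimpleGraph P} {S : I → Set P} (hT : (TG A S).Connected)
    (h2 : ∀ (v : W I) (x y : P), (TG A S).dist (v, x) (v, y) = A.dist x y)
    (h4 : ∀ (u v : W I) (i : I) (x : P), u.1 = i :: v.1 → x ∈ S i →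
      (TG A S).dist (u, x) (v, x) ≤ 1) {C : ℕ} {f g : P → P} {π : I ≃ I}
    (h : Rm A S C f g π) (p q : W I × P) :
    (TG A S).dist (ext f π p) (ext f π q) ≤ (2 * C + 1) * (TG A S).dist p q := by
  refine le_dist hT (δ := fun p q => (TG A S).dist (ext f π p) (ext f π q))
    (fun x => SimpleGraph.dist_self) (fun x y z => hT.dist_triangle) (fun x y hxy => ?_) p q
  -- change of the copy
  have key : ∀ (u v : W I) (i : I) (x : P), u.1 = i :: v.1 → x ∈ S i →
      (TG A S).dist (ext f π (u, x)) (ext f π (v, x)) ≤ 2 * C + 1 := by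
    intro u v i x hu hx
    obtain ⟨z, hz, hz'⟩ := h.glf i x hx
    have e1 : (TG A S).dist (wmap π u, f x) (wmap π u, z) ≤ C := by
      rw [h2]
      exact hz'
    have e2 : (TG A S).dist (wmap π u, z) (wmap π v, z) ≤ 1 := by
      refine h4 _ _ (π i) z ?_ hz
      change u.1.map π = π i :: v.1.map π
      rw [hu, List.map_cons]
    have e3 : (TG A S).dist (wmap π v, z) (wmap π v, f x) ≤ C := by
      rw [h2, SimpleGraph.dist_comm]
      exact hz'
    have e4 := hT.dist_triangle (u := (wmap π u, f x)) (v := (wmap π u, z)) (w := (wmap π v, z))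
    have e5 := hT.dist_triangle (u := (wmap π u, f x)) (v := (wmap π v, z)) (w := (wmap π v, f x))
    change (TG A S).dist (wmap π u, f x) (wmap π v, f x) ≤ 2 * C + 1
    omega
  obtain ⟨u, x⟩ := x
  obtain ⟨v, y⟩ := y
  rcases hxy with ⟨h5, h6⟩ | ⟨h5, i, h6, h7 | h7⟩
  · simp only at h5 h6
    subst h5
    change (TG A S).dist (wmap π u, f x) (wmap π u, f y) ≤ 2 * C + 1
    rw [h2]
    have := h.lipf x y h6
    omega
  · simp only at h5 h6 h7
    subst h5
    change (TG A S).dist (ext f π (u, x)) (ext f π (v, x)) ≤ 2 * C + 1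
    rw [SimpleGraph.dist_comm]
    exact key v u i x h7 h6
  · simp only at h5 h6 h7
    subst h5
    exact key u v i x h7 h6

end TMPM

open TMPM in
theorem specTMP (hTPR : SpecTPR) (hTCN : SpecTCN) : SpecTMP := by
  intro P I A S hA hS C f g π h
  have hT := hTCN P I A S hA hS
  obtain ⟨-, h2, -, h4⟩ := hTPR P I A S hA hS
  refine ⟨ext f π, ext g π.symm, fun x => ?_, fun p => ?_, fun p => ?_,
    ext_lip hT h2 h4 h, ext_lip hT h2 h4 (rm_symm h)⟩
  · refine Prod.ext (Subtype.ext ?_) rfl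
    rfl
  · exact Prod.ext (wmap_symm π p.1) (h.gf p.2)
  · exact Prod.ext (wmap_symm π.symm p.1) (h.fg p.2)

end Pool.Agent.Lib.MP_d1d9c5_gt.BD
end

section
set_option autoImplicit false

open scoped Classical

/-!
# Row 227, TUP (helper70): upper bound for the distance in the tree of copies
-/

namespace Pool.Agent.Lib.MP_d1d9c5_gt.BD

namespace TUPM

theorem exists_tail {I : Type} (v : W I) (n : ℕ) (h : v.1.length = n + 1) :
    ∃ (u : W I) (i : I), v.1 = i :: u.1 ∧ u.1.length = n := by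
  obtain ⟨l, hl⟩ := v
  cases l with
  | nil => simp at h
  | cons i t => exact ⟨⟨t, hl.tail⟩, i, rfl, by simpa using h⟩

theorem eq_nil {I : Type} (v : W I) (h : v.1.length = 0) : v = W.nil :=
  Subtype.ext (List.length_eq_zero_iff.1 h)

end TUPM

theorem specTUP (hTPR : SpecTPR) (hTCN : SpecTCN) : SpecTUP := by
  intro P I A S hA hS r x
  obtain ⟨-, h2, -, h4⟩ := hTPR P I A S hA hS
  have hc := hTCN P I A S hA hS
  have main : ∀ n : ℕ, ∀ v : W I, v.1.length = n → (∀ i ∈ v.1, ∃ s ∈ S i, A.dist x s ≤ r) →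
      (TG A S).dist (W.nil, x) (v, x) ≤ v.1.length * (2 * r + 1) := by
    intro n
    induction n with
    | zero =>
      intro v hv _
      have h0 := TUPM.eq_nil v hv
      rw [h0, SimpleGraph.dist_self]
      exact Nat.zero_le _
    | succ n ih =>
      intro v hv hs
      obtain ⟨u, i, hi, hu⟩ := TUPM.exists_tail v n hv
      have h1 := ih u hu (fun j hj => hs j (by rw [hi]; exact List.mem_cons_of_mem _ hj))
      obtain ⟨s, hsi, hd⟩ := hs i (by rw [hi]; exact List.mem_cons_self)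
      have a1 : (TG A S).dist (u, x) (u, s) ≤ r := by
        rw [h2]; exact hd
      have a2 : (TG A S).dist (u, s) (v, s) ≤ 1 := by
        rw [SimpleGraph.dist_comm]
        exact h4 v u i s hi hsi
      have a3 : (TG A S).dist (v, s) (v, x) ≤ r := by
        rw [h2, SimpleGraph.dist_comm]; exact hd
      have b1 := hc.dist_triangle (u := ((W.nil : W I), x)) (v := (u, x)) (w := (v, x))
      have b2 := hc.dist_triangle (u := (u, x)) (v := (u, s)) (w := (v, x))
      have b3 := hc.dist_triangle (u := (u, s)) (v := (v, s)) (w := (v, x))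
      have e : v.1.length * (2 * r + 1) = u.1.length * (2 * r + 1) + (2 * r + 1) := by
        rw [hi, List.length_cons]; ring
      rw [e]
      omega
  intro v hs
  exact main _ v rfl hs

end Pool.Agent.Lib.MP_d1d9c5_gt.BD
end

section
set_option autoImplicit false

open scoped Classical

namespace Pool.Agent.Lib.MP_d1d9c5_gt.BD

namespace UNQM

theorem aux (hAVO : SpecAVO) (hTCR : SpecTCR) (hTCN : SpecTCN)
    (P I : Type) (A : SimpleGraph P) (S : I → Set P) (D : ℕ → ℕ) (d : ℕ) (hP : Pc A S D d)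
    (C R : ℕ) (f g : W I × P → W I × P) (hf : QI (TG A S) C f g) (v v' v'' : W I)
    (h' : Mp A S R f v v') (h'' : Mp A S R f v v'') : v'.1 <:+ v''.1 := by
  by_contra hn
  rcases hv : v'.1 with _ | ⟨i, l⟩
  · rw [hv] at hn; exact hn (List.nil_suffix)
  · have hl : l.IsChain (· ≠ ·) := by
      have := v'.2
      rw [hv] at this
      exact this.tail
    obtain ⟨x, hx, -⟩ := hAVO P I A S D d hP C (3 * R) f g hf v v' v' i i
    obtain ⟨y, hy⟩ := h' x
    obtain ⟨z, hz⟩ := h'' x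
    have hcon := hTCN P I A S hP.conn hP.ne
    obtain ⟨s, hs, hd⟩ := hTCR P I A S hP.conn hP.ne v' ⟨l, hl⟩ i hv (v', y) (v'', z)
      (List.suffix_refl _) hn
    have h1 := hx s hs
    have h2 := hcon.dist_triangle (u := f (v, x)) (v := (v', y)) (w := (v', s))
    have h3 := hcon.dist_triangle (u := (v', y)) (v := f (v, x)) (w := (v'', z))
    rw [(TG A S).dist_comm (u := (v', y)) (v := f (v, x))] at h3
    omega

end UNQM

/-- UNQ -/
theorem specUNQ (hAVO : SpecAVO) (hTCR : SpecTCR) (hTCN : SpecTCN) :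
    SpecUNQ := by
  intro P I A S D d hP C R f g hf v v' v'' h' h''
  have h1 := UNQM.aux hAVO hTCR hTCN P I A S D d hP C R f g hf v v' v'' h' h''
  have h2 := UNQM.aux hAVO hTCR hTCN P I A S D d hP C R f g hf v v'' v' h'' h'
  exact Subtype.ext (h1.eq_of_length_le h2.length_le)

end Pool.Agent.Lib.MP_d1d9c5_gt.BD
end

section
set_option autoImplicit false

namespace Pool.Agent.Lib.MP_d1d9c5_gt.BD

universe w

/-- The theorem. -/
theorem main : SpecFIN.{w} := by
  have tcn := specTCN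
  have tpr := specTPR tcn
  have tcr := specTCR tcn
  have tup := specTUP tpr tcn
  have tau := specTAU
  have tmp := specTMP tpr tcn
  have dnb := specDNB
  have pul := specPUL tpr tcn
  have avo := specAVO pul specDUN specDNU
  have rig := specRIG (specCOL pul tcr tpr tcn) tpr tcn
  have unq := specUNQ avo tcr tcn
  have per := specPER.{w} rig unq specQAQ.{w} tcn
  have act := specACT.{w} (specLVM.{w} tpr tcr tup tcn) tpr tcn
  have coc := specCOC.{w} tpr specTDG specBAL tcn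
  have con := specCON.{w} per act specORD coc
  have ccn := specCCN
  have cdl := specCDL ccn
  have cdu := specCDU ccn
  have cds := specCDS cdu cdl specCQQ
  have clv := specCLV cdu cdl specCQQ
  have cdg := specCDG specCQQ cdl
  have cth := specCTH (specPLN specPLA) cdl ccn dnb
  have crt := specCRT cdu
  exact specFIN.{w} tcn specTDG (specRTR tau tmp tcn) specHOM.{w} con ccn cds clv cdg
    cth crt

end Pool.Agent.Lib.MP_d1d9c5_gt.BD
end
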