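import Mathlib

set_option autoImplicit false

open scoped Classical

/-!
# A roughly transitive graph of bounded degree which is not roughly isometric to a homogeneous space:
definitions (helper23; idea of helper75)
-/

namespace Pool.Agent.Lib.MP_d1d9c5_gt.BD

universe u w

/-! ### Statement -/

/-- `f` is a `C`-rough isometry with respect to the distance functions `dX` and `dY`. -/
def IsRoughIsometry {X : Type u} {Y : Type w} (dX : X → X → ℝ) (dY : Y → Y → ℝ) (C : ℝ)
    (f : X → Y) : Prop :=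
  (∀ x x', C⁻¹ * dY (f x) (f x') - C ≤ dX x x' ∧ dX x x' ≤ C * dY (f x) (f x') + C) ∧
    ∀ y, ∃ x, dY (f x) y < C

/-- The path-length metric of a connected graph. -/
noncomputable def graphDist {V : Type u} (G : SimpleGraph V) (x y : V) : ℝ := (G.dist x y : ℝ)

/-- A graph is `C`-roughly transitive when any vertex is carried to any other one by a
`C`-rough isometry of the graph to itself. -/
def IsRoughlyTransitive {V : Type u} (G : SimpleGraph V) (C : ℝ) : Prop :=
  ∀ x y : V, ∃ f : V → V, IsRoughIsometry (graphDist G) (graphDist G) C f ∧ f x = y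

/-- A metric space is homogeneous when its isometry group acts transitively on it. -/
def IsHomogeneous (Y : Type u) [MetricSpace Y] : Prop := ∀ y y' : Y, ∃ e : Y ≃ᵢ Y, e y = y'

/-! ### The tree of copies of a graph -/

/-- reduced words (no two consecutive letters are equal) -/
def W (I : Type) : Type := {l : List I // l.IsChain (· ≠ ·)}

/-- the empty word -/
def W.nil {I : Type} : W I := ⟨[], List.IsChain.nil⟩

/-- The tree of copies of the graph `A` on `P`: the copies are indexed by the reduced words, the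
copies of `v` and `i :: v` are joined by the edges `((v, x), (i :: v, x))`, `x ∈ S i`. -/
def TG {P I : Type} (A : SimpleGraph P) (S : I → Set P) : SimpleGraph (W I × P) where
  Adj p q := (p.1 = q.1 ∧ A.Adj p.2 q.2) ∨
    (p.2 = q.2 ∧ ∃ i, p.2 ∈ S i ∧ (q.1.1 = i :: p.1.1 ∨ p.1.1 = i :: q.1.1))
  symm := ⟨by
    rintro p q (⟨h1, h2⟩ | ⟨h1, i, h2, h3⟩)
    · exact Or.inl ⟨h1.symm, h2.symm⟩
    · exact Or.inr ⟨h1.symm, i, h1 ▸ h2, h3.symm⟩⟩
  loopless := ⟨by
    rintro p (⟨_, h2⟩ | ⟨_, i, _, h3 | h3⟩)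
    · exact h2.ne rfl
    · exact absurd (congrArg List.length h3) (by simp)
    · exact absurd (congrArg List.length h3) (by simp)⟩

/-! ### Coarse notions -/

/-- `B` is dust with modulus `D`: every `ρ`-chain in `B` has diameter at most `D ρ`. -/
def Dust {P : Type} (A : SimpleGraph P) (D : ℕ → ℕ) (B : Set P) : Prop :=
  ∀ (ρ : ℕ), ∀ x ∈ B, ∀ y, Relation.ReflTransGen (fun a b => b ∈ B ∧ A.dist a b ≤ ρ) x y →
    A.dist x y ≤ D ρ

/-- the graph is unbounded -/
def Unb {P : Type} (A : SimpleGraph P) : Prop := ∀ n : ℕ, ∃ x y, n < A.dist x y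

/-- The graph is not separated by dust: a colouring whose bichromatic edges are inside a dust `B` is
constant except at points near `B`. -/
def Thick {P : Type} (A : SimpleGraph P) : Prop :=
  ∀ D : ℕ → ℕ, ∃ R : ℕ, ∀ B : Set P, Dust A D B → ∀ χ : P → Prop,
    (∀ x y, A.Adj x y → ¬ (χ x ↔ χ y) → x ∈ B ∧ y ∈ B) →
    (∀ x, χ x ∨ ∃ b ∈ B, A.dist x b ≤ R) ∨ ∀ x, ¬ χ x ∨ ∃ b ∈ B, A.dist x b ≤ R

/-- coarse inclusion -/
def CI {P : Type} (A : SimpleGraph P) (B B' : Set P) : Prop :=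
  ∃ r : ℕ, ∀ x ∈ B, ∃ y ∈ B', A.dist x y ≤ r

/-- `f` is coarsely Lipschitz with coarse inverse `g`. -/
structure QI {X : Type} (G : SimpleGraph X) (C : ℕ) (f g : X → X) : Prop where
  lipf : ∀ x y, G.dist (f x) (f y) ≤ C * G.dist x y + C
  lipg : ∀ x y, G.dist (g x) (g y) ≤ C * G.dist x y + C
  gf : ∀ x, G.dist (g (f x)) x ≤ C
  fg : ∀ x, G.dist (f (g x)) x ≤ C

/-- a transitive quasi-action of the group `Γ` -/
structure QA {X : Type} (G : SimpleGraph X) (Γ : Type w) [Group Γ] (C : ℕ) (F : Γ → X → X) :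
    Prop where
  lip : ∀ h x y, G.dist (F h x) (F h y) ≤ C * G.dist x y + C
  mul : ∀ h k x, G.dist (F h (F k x)) (F (h * k) x) ≤ C
  one : ∀ x, G.dist (F 1 x) x ≤ C
  tra : ∀ x y, ∃ h, G.dist (F h x) y ≤ C

/-- the copy of `v` is mapped into the `R`-neighbourhood of the copy of `v'` -/
def Mp {P I : Type} (A : SimpleGraph P) (S : I → Set P) (R : ℕ) (f : W I × P → W I × P)
    (v v' : W I) : Prop := ∀ x : P, ∃ y : P, (TG A S).dist (f (v, x)) (v', y) ≤ R

/-- the standing assumptions on the pieces -/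
structure Pc {P I : Type} (A : SimpleGraph P) (S : I → Set P) (D : ℕ → ℕ) (d : ℕ) : Prop where
  conn : A.Connected
  unb : Unb A
  thick : Thick A
  dust : ∀ i, Dust A D (S i)
  ne : ∀ i, (S i).Nonempty
  deg : ∀ x, (A.neighborSet x).encard ≤ d
  mult : ∀ x, {i | x ∈ S i}.encard ≤ d

/-! ### Levels -/

/-- the order of the levels: `ℤ` followed by `ℤ` -/
def Le (k l : Bool × ℤ) : Prop := (k.1 = false ∧ l.1 = true) ∨ (k.1 = l.1 ∧ k.2 ≤ l.2)

/-- the position of a level -/
noncomputable def qq (θ : ℝ) (k : Bool × ℤ) : ℤ := if k.1 = true then ⌊θ * k.2⌋ else k.2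

/-- Levels of the gluing sets: coarse inclusion is the order of the levels; `pos` is a Lipschitz
function, equal to `qq` of the level on the gluing sets. -/
structure Lev {P I : Type} (A : SimpleGraph P) (S : I → Set P) (θ : ℝ) (lev : I → Bool × ℤ)
    (pos : P → ℤ) : Prop where
  ci : ∀ i j, CI A (S i) (S j) ↔ Le (lev i) (lev j)
  lip : ∀ x y, |pos x - pos y| ≤ A.dist x y
  at_lev : ∀ i, ∀ x ∈ S i, pos x = qq θ (lev i)
  surj : ∀ k, ∃ i, lev i = k
  cov : ∀ x, ∃ i, lev i = (false, pos x) ∧ x ∈ S i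
  base : ∃ x i, pos x = 0 ∧ lev i = (true, 0) ∧ x ∈ S i
  unb : ∀ n : ℕ, ∃ x, (n : ℤ) ≤ pos x

/-- the map of the pieces induced by `f` on the copy of the empty word -/
def br {P I : Type} (f : W I × P → W I × P) (x : P) : P := (f (W.nil, x)).2

/-- `π` is the permutation of the copies induced by the quasi-action `F`. -/
structure PA {P I : Type} (A : SimpleGraph P) (S : I → Set P) (Γ : Type w) [Group Γ] (R : ℕ)
    (F : Γ → W I × P → W I × P) (π : Γ → W I → W I) : Prop where
  mp : ∀ h v, Mp A S R (F h) v (π h v)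
  one : ∀ v, π 1 v = v
  mul : ∀ h k v, π (h * k) v = π h (π k v)

/-- `σ` is the action on the levels of the elements which fix the copy of the empty word. -/
structure LA {P I : Type} (S : I → Set P) (θ : ℝ) (lev : I → Bool × ℤ) (pos : P → ℤ)
    (Γ : Type w) [Group Γ] (R : ℕ) (F : Γ → W I × P → W I × P) (π : Γ → W I → W I)
    (σ : Γ → Bool × ℤ → Bool × ℤ) : Prop where
  le : ∀ h, π h W.nil = W.nil → ∀ k l, Le k l ↔ Le (σ h k) (σ h l)
  one : ∀ k, σ 1 k = k
  mul : ∀ h h', π h W.nil = W.nil → π h' W.nil = W.nil → ∀ k, σ (h * h') k = σ h (σ h' k)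
  pos : ∀ h, π h W.nil = W.nil → ∀ i, ∀ x ∈ S i, |pos (br (F h) x) - qq θ (σ h (lev i))| ≤ R

/-- Data for a rough isometry of the pieces which is compatible with the gluing sets. -/
structure Rm {P I : Type} (A : SimpleGraph P) (S : I → Set P) (C : ℕ) (f g : P → P)
    (π : I ≃ I) : Prop where
  gf : ∀ x, g (f x) = x
  fg : ∀ x, f (g x) = x
  lipf : ∀ x y, A.Adj x y → A.dist (f x) (f y) ≤ C
  lipg : ∀ x y, A.Adj x y → A.dist (g x) (g y) ≤ C
  glf : ∀ i, ∀ x ∈ S i, ∃ z ∈ S (π i), A.dist (f x) z ≤ C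
  glg : ∀ i, ∀ x ∈ S i, ∃ z ∈ S (π.symm i), A.dist (g x) z ≤ C

/-! ### The plane -/

/-- adjacent points of the plane -/
def Ad (x y : ℤ × ℤ) : Prop := |x.1 - y.1| + |x.2 - y.2| = 1

/-- king moves -/
def Kg (x y : ℤ × ℤ) : Prop := |x.1 - y.1| ≤ 1 ∧ |x.2 - y.2| ≤ 1

/-- chains of king moves in `B` starting from `x` -/
def Kc (B : Set (ℤ × ℤ)) (x y : ℤ × ℤ) : Prop := Relation.ReflTransGen (fun a b => b ∈ B ∧ Kg a b) x y

/-! ### The concrete pieces -/

/-- Points: lamps which are on, position `(a, b)` of the cursor, last coordinate. The lamp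
`(t, j, b)` stands at the position `(qq θ (t, j), b)`. -/
abbrev Pt : Type := Finset (Bool × ℤ × ℤ) × ℤ × ℤ × ℤ

/-- elementary moves: three coordinates, and switching a lamp at the position of the cursor -/
inductive Mo (θ : ℝ) : Pt → Pt → Prop
  | a (c : Finset (Bool × ℤ × ℤ)) (a b w : ℤ) : Mo θ (c, a, b, w) (c, a + 1, b, w)
  | b (c : Finset (Bool × ℤ × ℤ)) (a b w : ℤ) : Mo θ (c, a, b, w) (c, a, b + 1, w)
  | w (c : Finset (Bool × ℤ × ℤ)) (a b w : ℤ) : Mo θ (c, a, b, w) (c, a, b, w + 1)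
  | t (c : Finset (Bool × ℤ × ℤ)) (t : Bool) (j b w : ℤ) :
      Mo θ (c, qq θ (t, j), b, w) (symmDiff c {(t, j, b)}, qq θ (t, j), b, w)

/-- the graph of the pieces (lamplighter graph times a line) -/
def A0 (θ : ℝ) : SimpleGraph Pt := SimpleGraph.fromRel (Mo θ)

/-- the lamps which are free at the level `k` -/
def Fr (k : Bool × ℤ) (l : Bool × ℤ × ℤ) : Prop := Le (l.1, l.2.1) k

/-- indices of the gluing sets: level, second coordinate of the cursor, last coordinate, values of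
the lamps which are not free -/
def I0 : Type := {i : (Bool × ℤ) × ℤ × ℤ × Finset (Bool × ℤ × ℤ) // ∀ l ∈ i.2.2.2, ¬ Fr i.1 l}

/-- the gluing sets -/
def S0 (θ : ℝ) (i : I0) : Set Pt :=
  {x | x.2.1 = qq θ i.1.1 ∧ x.2.2.1 = i.1.2.1 ∧ x.2.2.2 = i.1.2.2.1 ∧
    x.1.filter (fun l => ¬ Fr i.1.1 l) = i.1.2.2.2}

/-- the level of a gluing set -/
def lev0 (i : I0) : Bool × ℤ := i.1.1

/-- the first coordinate of the cursor -/
def pos0 (x : Pt) : ℤ := x.2.1

end Pool.Agent.Lib.MP_d1d9c5_gt.BD
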