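import Pool.Agent.Lib.MP_d1d9c5_gt.BD.Defs

set_option autoImplicit false

open scoped Classical

/-!
# MP_d1d9c5_gt, bounded degree example: exact statements (helper23; idea of helper75)

THEOREM. There are a connected infinite graph of bounded degree and a constant `C` such that the
graph is `C`-roughly transitive and is not roughly isometric to any homogeneous metric space.

THE GRAPH. Piece `P` = (lamplighter graph over `ℤ × ℤ` with two families of lamps: lamp
`(false, j, b)` at the position `(j, b)`, lamp `(true, j, b)` at the position `(⌊θ j⌋, b)`,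
`θ = √2`) times a line. Level `k = (t, j)`: the gluing sets of level `k` are `{cursor fixed at a
position `(qq θ k, b)`, last coordinate fixed, the lamps `l` with `(l.1, l.2.1) ≤ k` free, all others
fixed}`. The graph is the tree of copies of `P`, two copies being glued along each gluing set.

WHY. Gluing sets are dust and dust does not separate `P`, so every rough isometry permutes the
copies. The coarse classes of the gluing sets are the levels, and coarse inclusion is their order.
So the stabilizer of a copy in the isometry group of `Y` acts on the ordered set `ℤ + ℤ` by a pair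
of shifts `(t₁, t₂)`, homomorphisms with `|t₁ - θ t₂|` bounded: `t₁ = θ t₂`, so `t₁ = 0`; but the
stabilizer is cocompact.

RULES. Module `XXX`: file `Pool/Agent/Lib/MP_d1d9c5_gt/BD/XXX.lean`, `import ..BD.Spec`,
`theorem specXXX (hYYY : SpecYYY) .. : SpecXXX` in the namespace
`Pool.Agent.Lib.MP_d1d9c5_gt.BD`; every other Spec may be a hypothesis; own lemmas in the namespace
`Pool.Agent.Lib.MP_d1d9c5_gt.BD.XXXM`; no double quotes. Universe levels: `SpecHOM.{w}` etc.
-/

namespace Pool.Agent.Lib.MP_d1d9c5_gt.BD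

universe w

/-! ## Block T: the tree of copies -/

/-- TCN (80 lines). The tree of copies is connected. Proof: a copy is connected (homomorphism
`x ↦ (v, x)`); from `(i :: v, x)` walk inside the copy to a point of `S i` and go to the copy `v`;
induction on the length. -/
def SpecTCN : Prop :=
  ∀ (P I : Type) (A : SimpleGraph P) (S : I → Set P), A.Connected → (∀ i, (S i).Nonempty) →
    (TG A S).Connected

/-- TPR (120 lines). Distances (from TCN). Proof: (1) and (3): induction along a shortest walk, every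
edge changes the second coordinate by an edge of `A` or not at all, and the length of the word by at
most one. (2): `≥` is (1), `≤`: map a shortest walk of `A`. (4): an edge. -/
def SpecTPR : Prop :=
  ∀ (P I : Type) (A : SimpleGraph P) (S : I → Set P), A.Connected → (∀ i, (S i).Nonempty) →
    (∀ p q : W I × P, A.dist p.2 q.2 ≤ (TG A S).dist p q) ∧
    (∀ (v : W I) (x y : P), (TG A S).dist (v, x) (v, y) = A.dist x y) ∧
    (∀ p q : W I × P, p.1.1.length ≤ q.1.1.length + (TG A S).dist p q) ∧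
    ∀ (u v : W I) (i : I) (x : P), u.1 = i :: v.1 → x ∈ S i → (TG A S).dist (u, x) (v, x) ≤ 1

/-- TCR (150 lines). Crossing: the only way to leave the half tree of the words with suffix
`u = i :: v` is an edge from the copy `u` to the copy `v` at a point of `S i` (from TCN).
Proof: induction along a shortest walk from `p` to `q`; for the first edge `(a, b)` with
`u <:+ a`, not `u <:+ b`: the words differ, `b = j :: a` is impossible, so `a = j :: b`, and
`u <:+ j :: b`, not `u <:+ b` give `u = j :: b` (`List.suffix_cons_iff`). -/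
def SpecTCR : Prop :=
  ∀ (P I : Type) (A : SimpleGraph P) (S : I → Set P), A.Connected → (∀ i, (S i).Nonempty) →
    ∀ (u v : W I) (i : I), u.1 = i :: v.1 → ∀ p q : W I × P, u.1 <:+ p.1.1 → ¬ u.1 <:+ q.1.1 →
      ∃ s ∈ S i, (TG A S).dist p (u, s) + 1 + (TG A S).dist (v, s) q ≤ (TG A S).dist p q

/-- TUP (60 lines). Upper bound (from TPR, TCN). Induction on the word: inside the copy go to
`s ∈ S i`, change the copy, go back. -/
def SpecTUP : Prop :=
  ∀ (P I : Type) (A : SimpleGraph P) (S : I → Set P), A.Connected → (∀ i, (S i).Nonempty) →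
    ∀ (r : ℕ) (x : P) (v : W I), (∀ i ∈ v.1, ∃ s ∈ S i, A.dist x s ≤ r) →
      (TG A S).dist (W.nil, x) (v, x) ≤ v.1.length * (2 * r + 1)

/-- TDG (80 lines). Degrees. Proof: a neighbour of `(v, x)` is `(v, y)` with `y` adjacent to `x`, or
is determined by `i` with `x ∈ S i` (`i :: v`, or the tail of `v` if `v` begins with `i`). -/
def SpecTDG : Prop :=
  ∀ (P I : Type) (A : SimpleGraph P) (S : I → Set P) (d : ℕ),
    (∀ x, (A.neighborSet x).encard ≤ d) → (∀ x, {i | x ∈ S i}.encard ≤ d) →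
    ∀ p : W I × P, ((TG A S).neighborSet p).encard ≤ 2 * d

/-- TAU (200 lines). The automorphism group is transitive on the copies. Proof: for a letter `j` the
map `v ↦ v j` (append `j` at the END of `v`, or remove the last letter if it is `j`) is an involution
of `W I`, and `(v, x) ↦ (v j, x)` preserves the edges: `(i :: v) j = i :: (v j)` for `v` nonempty; for
`v` empty: `[i] j = [i, j]`, `[] j = [j]` if `i ≠ j`, and the two words are exchanged if `i = j`. With
such maps every copy is moved to the copy of the empty word (induction on the length). -/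
def SpecTAU : Prop :=
  ∀ (P I : Type) (A : SimpleGraph P) (S : I → Set P) (v v' : W I),
    ∃ T : TG A S ≃g TG A S, ∀ x : P, T (v, x) = (v', x)

/-- TMP (120 lines). Extension of maps of the pieces (from TPR, TCN): `Φ (v, x) = (v.map π, f x)`.
Proof: it suffices to bound the distance of the images of adjacent points: inside a copy `C`; for
the edge `((v, x), (i :: v, x))`, `x ∈ S i`, go from `f x` to `z ∈ S (π i)`, change the copy, go
back: `2 C + 1`. -/
def SpecTMP : Prop :=
  ∀ (P I : Type) (A : SimpleGraph P) (S : I → Set P), A.Connected → (∀ i, (S i).Nonempty) →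
    ∀ (C : ℕ) (f g : P → P) (π : I ≃ I), Rm A S C f g π →
    ∃ Φ Ψ : W I × P → W I × P, (∀ x, Φ (W.nil, x) = (W.nil, f x)) ∧ (∀ p, Ψ (Φ p) = p) ∧
      (∀ p, Φ (Ψ p) = p) ∧
      (∀ p q, (TG A S).dist (Φ p) (Φ q) ≤ (2 * C + 1) * (TG A S).dist p q) ∧
      ∀ p q, (TG A S).dist (Ψ p) (Ψ q) ≤ (2 * C + 1) * (TG A S).dist p q

/-- RTR (80 lines). Rough transitivity of the tree of copies (from TAU, TMP, TCN): compose an
automorphism moving the copy of `p` to that of the empty word, the map of TMP, and an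
automorphism moving it to the copy of `q`. -/
def SpecRTR : Prop :=
  ∀ (P I : Type) (A : SimpleGraph P) (S : I → Set P), A.Connected → (∀ i, (S i).Nonempty) →
    ∀ C : ℕ, (∀ x y : P, ∃ (f g : P → P) (π : I ≃ I), Rm A S C f g π ∧ f x = y) →
    IsRoughlyTransitive (TG A S) (2 * C + 1)

/-- BAL (60 lines). Balls are finite. -/
def SpecBAL : Prop :=
  ∀ (X : Type) (G : SimpleGraph X) (d : ℕ), G.Connected → (∀ x, (G.neighborSet x).encard ≤ d) →
    ∀ (x : X) (n : ℕ), {y | G.dist x y ≤ n}.Finite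

/-! ## Block D: dust -/

/-- DUN (120 lines). The union of two dusts is dust. Proof: let `a = D ρ`. In a `ρ`-chain of `B ∪ B'`
the points between two consecutive points outside `B` form a `ρ`-chain in `B`, so the points of `B'`
form an `(a + 2ρ)`-chain; so the chain has diameter at most
`D' (a + 2ρ) + 2 (a + 2ρ)` (+ the case of no point of `B'`). E.g. by induction on the chain prove:
either `x, y` are joined by a `ρ`-chain in `B`, or there are `x', y' ∈ B'` joined by an
`(a + 2ρ)`-chain in `B'` with `dist x x' ≤ a + ρ` and `dist y y' ≤ a + ρ`, where more precisely `y` is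
`y'` or joined with a point at distance `≤ ρ` of `y'` by a `ρ`-chain in `B`. -/
def SpecDUN : Prop :=
  ∀ D D' : ℕ → ℕ, ∃ D'' : ℕ → ℕ, ∀ (P : Type) (A : SimpleGraph P), A.Connected →
    ∀ B B' : Set P, Dust A D B → Dust A D' B' → Dust A D'' (B ∪ B')

/-- DNB (60 lines). Neighbourhoods and subsets of dusts: `D' ρ = D (ρ + 2 r) + 2 r`. -/
def SpecDNB : Prop :=
  ∀ (D : ℕ → ℕ) (r : ℕ), ∃ D' : ℕ → ℕ, ∀ (P : Type) (A : SimpleGraph P), A.Connected →
    ∀ B B' : Set P, Dust A D B → (∀ x ∈ B', ∃ b ∈ B, A.dist x b ≤ r) → Dust A D' B'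

/-- DNU (40 lines). An unbounded connected graph is not dust (`1`-chains are walks). -/
def SpecDNU : Prop :=
  ∀ (P : Type) (A : SimpleGraph P) (D : ℕ → ℕ), A.Connected → Unb A → ¬ Dust A D Set.univ

/-- PUL (100 lines). Pull back of dust (from TPR, TCN). Let `f` be a coarse equivalence with constant
`C`, so `dist p q ≤ C * dist (f p) (f q) + 3 C` (apply `g`). For a `ρ`-chain `x₀, x₁, ..` of the set
choose `s_n ∈ S i` with `dist (f (v, x_n)) (u, s_n) ≤ r`. By TPR the `s_n` form a
`(C ρ + C + 2 r)`-chain in `S i`, so `dist s_0 s_n ≤ D (C ρ + C + 2 r) =: e`,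
`dist (f (v, x_0)) (f (v, x_n)) ≤ e + 2 r`, `dist x_0 x_n ≤ C (e + 2 r) + 3 C`. -/
def SpecPUL : Prop :=
  ∀ (P I : Type) (A : SimpleGraph P) (S : I → Set P) (D : ℕ → ℕ) (d : ℕ), Pc A S D d →
    ∀ C r : ℕ, ∃ D' : ℕ → ℕ, ∀ f g, QI (TG A S) C f g → ∀ (v u : W I) (i : I),
      Dust A D' {x | ∃ s ∈ S i, (TG A S).dist (f (v, x)) (u, s) ≤ r}

/-- COL (80 lines). Essentially one side (from PUL, TCR, TPR, TCN). Colour `x` by
`u <:+ (f (v, x)).1`. If `x, y` are adjacent with different colours, `dist (f (v,x)) (f (v,y)) ≤ 2 C`,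
and TCR gives `s ∈ S i` with both points at distance `≤ 2 C` of `(u, s)`. Apply `Thick` to
`B = {x | ∃ s ∈ S i, dist (f (v, x)) (u, s) ≤ 2 C}` (PUL): `R₁`; then `R = C R₁ + 3 C`. -/
def SpecCOL : Prop :=
  ∀ (P I : Type) (A : SimpleGraph P) (S : I → Set P) (D : ℕ → ℕ) (d : ℕ), Pc A S D d →
    ∀ C : ℕ, ∃ R : ℕ, ∀ f g, QI (TG A S) C f g → ∀ (v u u' : W I) (i : I), u.1 = i :: u'.1 →
      (∀ x, u.1 <:+ (f (v, x)).1.1 ∨ ∃ s ∈ S i, (TG A S).dist (f (v, x)) (u, s) ≤ R) ∨
      ∀ x, ¬ u.1 <:+ (f (v, x)).1.1 ∨ ∃ s ∈ S i, (TG A S).dist (f (v, x)) (u, s) ≤ R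

/-- AVO (50 lines). There is a point far from two given gluing sets (from PUL, DUN, DNU). -/
def SpecAVO : Prop :=
  ∀ (P I : Type) (A : SimpleGraph P) (S : I → Set P) (D : ℕ → ℕ) (d : ℕ), Pc A S D d →
    ∀ C R : ℕ, ∀ f g, QI (TG A S) C f g → ∀ (v u₁ u₂ : W I) (i₁ i₂ : I),
      ∃ x, (∀ s ∈ S i₁, R < (TG A S).dist (f (v, x)) (u₁, s)) ∧
        ∀ s ∈ S i₂, R < (TG A S).dist (f (v, x)) (u₂, s)

/-- RIG (200 lines). Copies go to copies (from COL, AVO, TPR, TCN). `R` as in COL; fix `v`. For a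
nonempty word `u` (first letter `i`): In(u) / Out(u) = the two alternatives of COL. AVO: if In(u)
and `u'` is a nonempty suffix of `u` then In(u') (else Out(u'); take `x` far from both sets: `u` is a
suffix of the word of `f (v, x)`, but `u'` is not); if In(u₁), In(u₂) then both are suffixes of one
word, so one is a suffix of the other. Lengths are bounded: `|u| ≤ |(f (v, x₀)).1| + R` (TPR). Let
`v'` be the longest word with In(v'), or the empty word. Claim `Mp (R + 1) f v v'`. Let `w` be the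
word of `f (v, x)`. If `v' = w`, clear. If `v' <:+ w`, `v' ≠ w`, then `i :: v' <:+ w` for some `i`,
not In(i :: v') by maximality, so Out(i :: v') and `dist (f (v, x)) (i :: v', s) ≤ R`, `s ∈ S i`. If
`v'` is not a suffix of `w`, then `v'` is nonempty and In(v') gives `dist (f (v, x)) (v', s) ≤ R`. -/
def SpecRIG : Prop :=
  ∀ (P I : Type) (A : SimpleGraph P) (S : I → Set P) (D : ℕ → ℕ) (d : ℕ), Pc A S D d →
    ∀ C : ℕ, ∃ R : ℕ, ∀ f g, QI (TG A S) C f g → ∀ v : W I, ∃ v' : W I, Mp A S R f v v'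

/-- UNQ (80 lines). The image copy is unique (from AVO, TCR, TPR, TCN). If `v' ≠ v''` then (up to
exchange) `v'` is not a suffix of `v''`; so `v' = i :: u'`. For every `x`, `f (v, x)` is at distance
`≤ R` of `(v', y)` and of `(v'', y'')`; TCR: `dist (v', y) (v', s) ≤ 2 R` for some `s ∈ S i`, so
`dist (f (v, x)) (v', s) ≤ 3 R`, contradicting AVO. -/
def SpecUNQ : Prop :=
  ∀ (P I : Type) (A : SimpleGraph P) (S : I → Set P) (D : ℕ → ℕ) (d : ℕ), Pc A S D d →
    ∀ C R : ℕ, ∀ f g, QI (TG A S) C f g → ∀ v v' v'' : W I, Mp A S R f v v' → Mp A S R f v v'' →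
      v' = v''

/-! ## Block Q: quasi-actions -/

/-- HOM (120 lines). A rough isometry to a homogeneous space gives a transitive quasi-action.
Proof: choose `s : Y → X` with `dist (f (s y)) y < C`; `F h x = s (h (f x))`. -/
def SpecHOM : Prop :=
  ∀ (X : Type) (G : SimpleGraph X) (Y : Type w) [MetricSpace Y], IsHomogeneous Y →
    ∀ (C : ℝ) (f : X → Y), 0 < C → IsRoughIsometry (graphDist G) dist C f →
    ∃ (C' : ℕ) (F : (Y ≃ᵢ Y) → X → X), QA G (Y ≃ᵢ Y) C' F

/-- QAQ (30 lines). The elements of a quasi-action are coarse equivalences, with a uniform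
constant (`2 C`). -/
def SpecQAQ : Prop :=
  ∀ (X : Type) (G : SimpleGraph X) (Γ : Type w) [Group Γ] (C : ℕ) (F : Γ → X → X), G.Connected →
    QA G Γ C F → ∃ C' : ℕ, ∀ h : Γ, QI G C' (F h) (F h⁻¹)

/-- PER (100 lines). The induced permutations of the copies (from RIG, UNQ, QAQ, TCN). `π h v` from
RIG; `F (h * k) (v, x)` is at distance `≤ C` of `F h (F k (v, x))`, `F k (v, x)` at distance `≤ R` of
`(π k v, y)`, so it is at distance `≤ C + (C R + C) + R` of the copy `π h (π k v)`; UNQ with this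
constant. -/
def SpecPER : Prop :=
  ∀ (P I : Type) (A : SimpleGraph P) (S : I → Set P) (D : ℕ → ℕ) (d : ℕ), Pc A S D d →
    ∀ (Γ : Type w) [Group Γ] (C : ℕ) (F : Γ → W I × P → W I × P), QA (TG A S) Γ C F →
    ∃ (R : ℕ) (π : Γ → W I → W I), PA A S Γ R F π

/-- LVM (250 lines). Movement of the gluing sets (from TPR, TCR, TUP, TCN, QAQ). Let
`π h nil = nil`, `v' = π h [i]`; `v' ≠ nil` because `π h` is injective (`π h⁻¹`). Let `j` be a letter of
`v'` of the least level. (1) Let `x ∈ S i`. `F h (nil, x)` is at distance `≤ R` of some `(nil, y)`,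
`F h ([i], x)` at distance `≤ R` of some `(v', y')`, and their distance is `≤ 2 C`. For every letter
`j'` of `v'`, `v'` has a suffix `j' :: u'`, and TCR gives `s ∈ S j'` with
`dist y s ≤ 2 R + 2 C`; so `dist (br (F h) x) s ≤ 3 R + 2 C` (TPR). For `j' = j` this gives the first
inclusion and, with `Lev.lip` and `Lev.at_lev`, the last claim, `R' = 3 R + 2 C`. (2) Let `x' ∈ S j`.
By `Lev.ci` there is `r` with `S j` in the `r`-neighbourhood of `S j'` for all letters `j'` of `v'`, so
`dist (nil, x') (v', x') ≤ |v'| (2 r + 1)` (TUP). Apply `F h⁻¹`: `F h⁻¹ (nil, x')` is near some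
`(nil, z)` and `F h⁻¹ (v', x')` near some `([i], z')`, so `z` is near a point `s ∈ S i` (TCR), all with
constants independent of `x'`; then `(nil, x')` is near `F h (F h⁻¹ (nil, x'))`, near `F h (nil, s)`. -/
def SpecLVM : Prop :=
  ∀ (P I : Type) (A : SimpleGraph P) (S : I → Set P) (D : ℕ → ℕ) (d : ℕ), Pc A S D d →
    ∀ (θ : ℝ) (lev : I → Bool × ℤ) (pos : P → ℤ), Lev A S θ lev pos →
    ∀ (Γ : Type w) [Group Γ] (C : ℕ) (F : Γ → W I × P → W I × P), QA (TG A S) Γ C F →
    ∀ (R : ℕ) (π : Γ → W I → W I), PA A S Γ R F π →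
    ∃ R' : ℕ, ∀ h, π h W.nil = W.nil → ∀ i, ∃ j, CI A (br (F h) '' S i) (S j) ∧
      CI A (S j) (br (F h) '' S i) ∧ ∀ x ∈ S i, |pos (br (F h) x) - qq θ (lev j)| ≤ R'

/-- ACT (200 lines). The action on the levels (from LVM, TPR, TCN). `σ h k = lev j`, where `lev i = k`
and `j` is as in LVM. `br (F h)` is coarsely Lipschitz, so coarse inclusions are preserved by it: if
`Le (lev i) (lev i')` then `S j ⊆ br '' S i ⊆ br '' S i' ⊆ S j'` coarsely, so `Le (lev j) (lev j')`
(`Lev.ci`). In particular `σ h k` does not depend on the choices (`Le` is antisymmetric).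
`dist (F h' (nil, x)) (nil, br (F h') x) ≤ 2 R`, so `br (F (h * h'))` is at bounded distance of
`br (F h) ∘ br (F h')`, `br (F 1)` at bounded distance of the identity, hence `mul`, `one`. For the
converse implication of `le` use `h⁻¹`. For other `h` put `σ h k = k`. -/
def SpecACT : Prop :=
  ∀ (P I : Type) (A : SimpleGraph P) (S : I → Set P) (D : ℕ → ℕ) (d : ℕ), Pc A S D d →
    ∀ (θ : ℝ) (lev : I → Bool × ℤ) (pos : P → ℤ), Lev A S θ lev pos →
    ∀ (Γ : Type w) [Group Γ] (C : ℕ) (F : Γ → W I × P → W I × P), QA (TG A S) Γ C F →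
    ∀ (R : ℕ) (π : Γ → W I → W I), PA A S Γ R F π →
    ∃ (R' : ℕ) (σ : Γ → Bool × ℤ → Bool × ℤ), LA S θ lev pos Γ R' F π σ

/-- ORD (120 lines). The automorphisms of the ordered set `ℤ + ℤ`. Proof: `σ` preserves immediate
successors and predecessors (the successor of `(t, a)` is `(t, a + 1)`). If `σ (false, 0) = (true, b)`
then `σ (false, -n) = (true, b - n)`; but `(false, 0) < (true, b)`, so its preimage is `< (false, 0)`,
of the form `(false, -n)`: contradiction. Similarly `σ (true, 0) = (false, b)` is impossible. -/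
def SpecORD : Prop :=
  ∀ σ τ : Bool × ℤ → Bool × ℤ, (∀ k, τ (σ k) = k) → (∀ k, σ (τ k) = k) →
    (∀ k l, Le k l ↔ Le (σ k) (σ l)) →
    ∃ t₁ t₂ : ℤ, ∀ a : ℤ, σ (false, a) = (false, a + t₁) ∧ σ (true, a) = (true, a + t₂)

/-- COC (120 lines). The stabilizer of a copy moves points arbitrarily far (from TPR, TDG, BAL, TCN,
QAQ). For `x : P` choose `h_x` with `dist (F h_x (nil, x₀)) (nil, x) ≤ C`; `g_x = π h_x⁻¹ nil`. The point
`F h_x⁻¹ (nil, x)` is near `(nil, x₀)` and near the copy `g_x`, so `g_x` is the word of a point of a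
fixed ball, a finite set (BAL). Take a sequence `x_n` with `pos x_n ≥ pos x_m + n` for `m < n`
(`Lev.unb`) and infinitely many `n` with the same `g_{x_n}`; `m < n` two of them, `m` fixed, `n` large,
`h = h_{x_n} h_{x_m}⁻¹`: `π h nil = nil` and `F h (nil, x_m)` is at distance `≤ K` of `(nil, x_n)`, `K`
independent of `m, n`. -/
def SpecCOC : Prop :=
  ∀ (P I : Type) (A : SimpleGraph P) (S : I → Set P) (D : ℕ → ℕ) (d : ℕ), Pc A S D d →
    ∀ (θ : ℝ) (lev : I → Bool × ℤ) (pos : P → ℤ), Lev A S θ lev pos →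
    ∀ (Γ : Type w) [Group Γ] (C : ℕ) (F : Γ → W I × P → W I × P), QA (TG A S) Γ C F →
    ∀ (R : ℕ) (π : Γ → W I → W I), PA A S Γ R F π →
    ∀ n : ℕ, ∃ (h : Γ) (x : P), π h W.nil = W.nil ∧ (n : ℤ) ≤ |pos (br (F h) x) - pos x|

/-- CON (120 lines). The contradiction (from PER, ACT, ORD, COC). For `h` in the stabilizer of
the copy `nil`, ORD for `σ h`, `σ h⁻¹` gives `t₁ h`, `t₂ h`, additive in `h`. `Lev.base` and `Lev.cov` for
the same point `x₀`: `|pos (br (F h) x₀) - t₁| ≤ R'` and `|pos (br (F h) x₀) - ⌊θ t₂⌋| ≤ R'`, so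
`|t₁ - θ t₂| ≤ 2 R' + 1`; for `h ^ n`: `n |t₁ - θ t₂| ≤ 2 R' + 1`, so `t₁ = θ t₂` and `t₁ = t₂ = 0` as `θ`
is irrational. By `Lev.cov`, `|pos (br (F h) x) - pos x| ≤ R'` for all `x`, contradicting COC. -/
def SpecCON : Prop :=
  ∀ (P I : Type) (A : SimpleGraph P) (S : I → Set P) (D : ℕ → ℕ) (d : ℕ), Pc A S D d →
    ∀ (θ : ℝ) (lev : I → Bool × ℤ) (pos : P → ℤ), Irrational θ → Lev A S θ lev pos →
    ∀ (Γ : Type w) [Group Γ] (C : ℕ) (F : Γ → W I × P → W I × P), ¬ QA (TG A S) Γ C F

/-! ## Block P: the plane -/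

/-- PLA (200 lines). Removal of one cluster. `K` = the points of `B` joined with `b₀` by chains of king
moves; it lies in the square of radius `D` about `b₀`. All bichromatic edges of one unit square have
their ends in `B`, and the ends are joined by king moves: so either all or none of them have their
ends in `K`. Let `g e = 1` for the bichromatic edges `e` with ends in `K`, else `0`: the sum of `g`
over the four edges of a unit square is `0` in `ZMod 2`. Let `Ψ (a, b)` be the sum of
`g` over the vertical edges `((a, j), (a, j+1))` with `b₀.2 - D - 1 ≤ j < b`. Then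
`Ψ (a, b+1) - Ψ (a, b) = g` (vertical edge; both sides vanish below), and
`Ψ (a+1, b) - Ψ (a, b) = g` (horizontal edge), by telescoping the sums over the unit squares below.
`Ψ = 0` for `|a - b₀.1| > D`, below the square, and above it (there `Ψ` does not depend on the point).
`χ' = χ + Ψ`. -/
def SpecPLA : Prop :=
  ∀ (D : ℕ) (B : Set (ℤ × ℤ)) (χ : ℤ × ℤ → ZMod 2) (b₀ : ℤ × ℤ), b₀ ∈ B →
    (∀ y, Kc B b₀ y → |b₀.1 - y.1| ≤ D ∧ |b₀.2 - y.2| ≤ D) →
    (∀ x y, Ad x y → χ x ≠ χ y → x ∈ B ∧ y ∈ B) →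
    ∃ χ' : ℤ × ℤ → ZMod 2, (∀ x, ((D : ℤ) + 1 < |b₀.1 - x.1| ∨ (D : ℤ) + 1 < |b₀.2 - x.2|) →
      χ' x = χ x) ∧ ∀ x y, Ad x y → χ' x ≠ χ' y → χ x ≠ χ y ∧ ¬ Kc B b₀ x

/-- PLN (150 lines). The plane is not separated by bounded clusters (from PLA); `R = D + 1`. Proof: let
`x`, `y` be two points which are not in the squares of radius `D + 1` about points of `B`; claim
`χ x = χ y`. Join them by a path `z_0, .., z_n` (first horizontal, then vertical). Induction on the
number of bichromatic edges of the path, for all colourings satisfying the hypothesis with the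
same `B`: if there is one, `(z_k, z_{k+1})`, apply PLA with `b₀ = z_k`: the colours of `x`, `y` do not
change and the number decreases. (If there is no such point `x` both claims hold.) -/
def SpecPLN : Prop :=
  ∀ D : ℕ, ∃ R : ℕ, ∀ (B : Set (ℤ × ℤ)) (χ : ℤ × ℤ → Prop),
    (∀ x ∈ B, ∀ y, Kc B x y → |x.1 - y.1| ≤ D ∧ |x.2 - y.2| ≤ D) →
    (∀ x y, Ad x y → ¬ (χ x ↔ χ y) → x ∈ B ∧ y ∈ B) →
    (∀ x, χ x ∨ ∃ b ∈ B, |x.1 - b.1| ≤ R ∧ |x.2 - b.2| ≤ R) ∨
      ∀ x, ¬ χ x ∨ ∃ b ∈ B, |x.1 - b.1| ≤ R ∧ |x.2 - b.2| ≤ R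

/-! ## Block C: the concrete pieces -/

/-- CQQ (30 lines). -/
def SpecCQQ : Prop :=
  ∀ θ : ℝ, 1 < θ → θ < 2 → (∀ (t : Bool) (j j' : ℤ), j < j' → qq θ (t, j) < qq θ (t, j')) ∧
    (∀ k l, k = l ↔ (Le k l ∧ Le l k)) ∧ (∀ k l m, Le k l → Le l m → Le k m) ∧
    ∀ k l, Le k l ∨ Le l k

/-- CCN (100 lines). The graph of the pieces is connected: move the cursor, switch off the lamps one
by one. -/
def SpecCCN : Prop := ∀ θ : ℝ, 1 < θ → θ < 2 → (A0 θ).Connected

/-- CDU (120 lines). Upper bound for the distance (from CCN). Induction on the number of lamps in the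
symmetric difference: go to the lamp, switch it, go back. -/
def SpecCDU : Prop :=
  ∀ θ : ℝ, 1 < θ → θ < 2 → ∀ x y : Pt, (A0 θ).dist x y ≤
    (x.2.1 - y.2.1).natAbs + (x.2.2.1 - y.2.2.1).natAbs + (x.2.2.2 - y.2.2.2).natAbs +
      ∑ l ∈ symmDiff x.1 y.1,
        (2 * ((qq θ (l.1, l.2.1) - x.2.1).natAbs + (l.2.2 - x.2.2.1).natAbs) + 1)

/-- CDL (100 lines). Lower bounds for the distance (from CCN): induction along a shortest walk. (To
switch the lamp `l` the cursor has to be at its position.) -/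
def SpecCDL : Prop :=
  ∀ θ : ℝ, 1 < θ → θ < 2 → ∀ x y : Pt,
    |x.2.1 - y.2.1| ≤ (A0 θ).dist x y ∧ |x.2.2.1 - y.2.2.1| ≤ (A0 θ).dist x y ∧
    |x.2.2.2 - y.2.2.2| ≤ (A0 θ).dist x y ∧
    ∀ l ∈ symmDiff x.1 y.1, |qq θ (l.1, l.2.1) - x.2.1| ≤ (A0 θ).dist x y ∧
      |l.2.2 - x.2.2.1| ≤ (A0 θ).dist x y

/-- CDS (120 lines). The gluing sets are dust (from CDU, CDL, CQQ). In a `ρ`-chain of `S0 θ i` the
cursor does not move, and every step changes only lamps at distance `≤ ρ` of the cursor (CDL); so the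
ends of the chain differ only in such lamps, of which there are at most `2 (2ρ+1)²` (`qq θ (t, ·)` is
injective), and CDU gives the bound `2 (2ρ+1)² (4ρ+1)`. -/
def SpecCDS : Prop :=
  ∀ θ : ℝ, 1 < θ → θ < 2 → ∃ D : ℕ → ℕ, ∀ i : I0, Dust (A0 θ) D (S0 θ i)

/-- CLV (200 lines). The levels (from CDU, CDL, CQQ). `ci`: if `Le k k'` and `x ∈ S0 i` let `y` be the
point of `S0 i'` whose lamps free at level `k'` are those of `x`; the lamps of `x`, `y` differ at most
in the fixed finite set `c ∪ c'` (the lamps of `x` not free at `k'` are not free at `k`), so CDU bounds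
the distance independently of `x`. If not `Le k k'`: the lamps `(k.1, k.2, b'')` are free at `k` and not
at `k'`; take `x ∈ S0 i` with such a lamp on, `b''` far away: by CDL it is on at every `y` with
`dist x y ≤ r`, so `y ∉ S0 i'`. -/
def SpecCLV : Prop :=
  ∀ θ : ℝ, 1 < θ → θ < 2 → Lev (A0 θ) (S0 θ) θ lev0 pos0

/-- CDG (120 lines). Degrees (from CQQ): six neighbours by moving, at most two by switching a lamp;
every point lies in at most two gluing sets. -/
def SpecCDG : Prop :=
  ∀ θ : ℝ, 1 < θ → θ < 2 → (∀ x, ((A0 θ).neighborSet x).encard ≤ (8 : ℕ)) ∧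
    (∀ x, {i | x ∈ S0 θ i}.encard ≤ (8 : ℕ)) ∧ Unb (A0 θ) ∧ ∀ i, (S0 θ i).Nonempty

/-- CTH (300 lines). The pieces are thick (from PLN, CDL, CCN, DNB). A flat is a map
`Φ (t, w) = (c_t, a_t, b_t, w)` from the plane, `Φ (t, w)` adjacent to `Φ (t+1, w)`, with
`|t - t'| ≤ dist (Φ (t, w)) (Φ (t', w')) + 1`. Flats: (1) `(c, t, b, w)`; (2) `(c, a, t, w)`; (3) for a
lamp `l` at the position `(a, b)`: `(c, t, b, w)` for `t ≤ a` and `(symmDiff c {l}, t - 1, b, w)` for
`t > a`. PLN for `Φ⁻¹ B` (a king move is a `2`-chain, so clusters have radius `≤ D 2 + 1`) gives the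
essential colour of each flat: all points of the flat at distance `> R₁` of `B` have this colour. By
DNB (and unboundedness) no line `{(c, a, b)} × ℤ` lies in the `R₁`-neighbourhood of `B`, so two flats
containing a common line have the same essential colour. Flats of type (1) and (2) through
`(c, a, b)`: the colour does not depend on `b`; flats of type (3) contain the lines `(c, a, b)` and
`(symmDiff c {l}, a, b)`: the colour does not depend on `c`. Every point is on a flat of type (1). -/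
def SpecCTH : Prop := ∀ θ : ℝ, 1 < θ → θ < 2 → Thick (A0 θ)

/-- CRT (300 lines). Rough transitivity of the pieces (from CDU, CQQ). `x = (c, a, b, w)`,
`y = (c', a', b', w')`, `n = a' - a`, `n₂ = ⌊n / θ⌋`. `τ` = the permutation of the lamps
`(false, j, e) ↦ (false, j + n, e + b' - b)`, `(true, j, e) ↦ (true, j + n₂, e + b' - b)`,
`f (ĉ, â, b̂, ŵ) = (symmDiff (ĉ.map τ) e, â + n, b̂ + b' - b, ŵ + w' - w)`, `e = symmDiff (c.map τ) c'`.
`|qq θ (τ l) - qq θ l - n| ≤ 3`. Moves go to moves; switching the lamp `l` at the cursor goes to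
switching the lamp `τ l` at distance `≤ 3` of the cursor: `dist ≤ 7` (CDU). The gluing set of level `k`
goes to the gluing set of level `τ k` up to a translation of the cursor by at most `3`. `C = 7`. -/
def SpecCRT : Prop :=
  ∀ θ : ℝ, 1 < θ → θ < 2 → ∃ C : ℕ, ∀ x y : Pt, ∃ (f g : Pt → Pt) (π : I0 ≃ I0),
    Rm (A0 θ) (S0 θ) C f g π ∧ f x = y

/-- FIN (helper23). Assembly with `θ = √2` (from TCN, TDG, RTR, HOM, CON, CCN, CDS, CLV, CDG, CTH,
CRT). -/
def SpecFIN : Prop :=
  ∃ (V : Type) (G : SimpleGraph V), Countable V ∧ Infinite V ∧ G.Connected ∧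
    (∃ d : ℕ, ∀ v, (G.neighborSet v).encard ≤ d) ∧
    (∃ C : ℝ, 0 < C ∧ IsRoughlyTransitive G C) ∧
    ∀ (Y : Type w) [MetricSpace Y], IsHomogeneous Y →
      ¬ ∃ (C : ℝ) (f : V → Y), 0 < C ∧ IsRoughIsometry (graphDist G) dist C f

end Pool.Agent.Lib.MP_d1d9c5_gt.BD
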